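import Mathlib.Tactic.Monotonicity.Lemmas
import Mathlib.Algebra.Order.Star.Real
import Mathlib.MeasureTheory.Integral.IntervalIntegral.FundThmCalculus
import Mathlib.Analysis.InnerProductSpace.Calculus
import Mathlib.Analysis.ODE.Gronwall
import Mathlib.Topology.MetricSpace.Contracting
import Pool.Agent.BoltzD.Geo.BP
import Mathlib.Algebra.Order.Archimedean.Real.Hom
import Mathlib.Algebra.Order.Ring.Star
import Mathlib.Analysis.Calculus.UniformLimitsDeriv
import Mathlib.Topology.Sheaves.Presheaf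
import Mathlib.Analysis.Calculus.Deriv.MeanValue

-- ======== part 0: formerly Pool.Agent.BoltzD.Solver.ODE
section MrgPart0

/-!
Global solutions of linear equations in a Banach space (forward in time, extended linearly
backwards), and the energy form of the Gronwall inequality.
-/

set_option autoImplicit false

open Set Filter Topology MeasureTheory intervalIntegral
open scoped BoundedContinuousFunction

noncomputable section

namespace Pool.Agent.BoltzD.Solver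

variable [Dim]

section ODE

variable {E : Type*} [NormedAddCommGroup E] [NormedSpace ℝ E] [CompleteSpace E]

theorem exists_linear_ode (B : ℝ → E →L[ℝ] E) (F : ℝ → E) (hB : Continuous B) (hF : Continuous F)
    (a : ℝ) (x0 : E) :
    ∃ γ : ℝ → E, γ a = x0 ∧ (∀ t, t ≤ a → γ t = x0 + (t - a) • (F a - B a x0)) ∧
      ∀ t, HasDerivAt γ (F (max t a) - B (max t a) (γ (max t a))) t := by
  set β : ℝ → ℝ := fun τ => ‖B τ‖ + ‖F τ‖ with hβ
  have hβc : Continuous β := hB.norm.add hF.norm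
  have hβ0 : ∀ τ, 0 ≤ β τ := fun τ => add_nonneg (norm_nonneg _) (norm_nonneg _)
  set w : ℝ → ℝ := fun t => Real.exp (2 * ∫ τ in a..t, β τ) with hw
  have hwd : ∀ t, HasDerivAt w (2 * (β t * w t)) t := by
    intro t
    have h2 : HasDerivAt (fun t => ∫ τ in a..t, β τ) (β t) t :=
      (hβc.integral_hasStrictDerivAt a t).hasDerivAt
    have h3 := (h2.const_mul 2).exp
    convert h3 using 1
    simp only [hw]; ring
  have hwc : Continuous w := continuous_iff_continuousAt.2 fun t => (hwd t).continuousAt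
  have hwpos : ∀ t, 0 < w t := fun t => Real.exp_pos _
  have hwa : w a = 1 := by simp [hw]
  have hw1 : ∀ t, a ≤ t → 1 ≤ w t := by
    intro t ht
    apply Real.one_le_exp
    have : 0 ≤ ∫ τ in a..t, β τ := integral_nonneg ht fun τ _ => hβ0 τ
    linarith
  have hint : ∀ t, ∫ τ in a..t, β τ * w τ = (w t - 1) / 2 := by
    intro t
    have := integral_eq_sub_of_hasDerivAt (a := a) (b := t) (f := w)
      (f' := fun τ => 2 * (β τ * w τ)) (fun τ _ => hwd τ)
      ((continuous_const.mul (hβc.mul hwc)).intervalIntegrable _ _)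
    rw [intervalIntegral.integral_const_mul, hwa] at this
    linarith
  -- the integrand
  set I : (ℝ →ᵇ E) → ℝ → E := fun u τ => F τ - B τ (w τ • u τ) with hI
  have hIc : ∀ u, Continuous (I u) := fun u =>
    hF.sub (hB.clm_apply (hwc.smul u.continuous))
  have hmax : Continuous fun t : ℝ => max t a := continuous_id.max continuous_const
  have hΦc : ∀ u, Continuous fun t => (w (max t a))⁻¹ • (x0 + ∫ τ in a..max t a, I u τ) := by
    intro u
    have h1 : Continuous fun t => ∫ τ in a..t, I u τ :=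
      continuous_iff_continuousAt.2 fun t =>
        ((hIc u).integral_hasStrictDerivAt a t).hasDerivAt.continuousAt
    exact ((hwc.comp hmax).inv₀ fun t => (hwpos _).ne').smul (continuous_const.add (h1.comp hmax))
  have key : ∀ (G : ℝ → E) (d : ℝ), Continuous G → 0 ≤ d →
      (∀ τ, a ≤ τ → ‖G τ‖ ≤ β τ * w τ * d) →
      ∀ t, a ≤ t → (w t)⁻¹ * ‖∫ τ in a..t, G τ‖ ≤ d / 2 := by
    intro G d hG hd h t ht
    have h1 : ‖∫ τ in a..t, G τ‖ ≤ ∫ τ in a..t, β τ * w τ * d := by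
      refine (intervalIntegral.norm_integral_le_integral_norm ht).trans ?_
      exact intervalIntegral.integral_mono_on ht (hG.norm.intervalIntegrable _ _)
        (((hβc.mul hwc).mul continuous_const).intervalIntegrable _ _) fun τ hτ => h τ hτ.1
    rw [intervalIntegral.integral_mul_const, hint] at h1
    have h2 := hwpos t
    rw [inv_mul_le_iff₀ h2]
    nlinarith
  have hΦb : ∀ (u : ℝ →ᵇ E) t, ‖(w (max t a))⁻¹ • (x0 + ∫ τ in a..max t a, I u τ)‖ ≤
      ‖x0‖ + (1 + ‖u‖) / 2 := by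
    intro u t
    have ht : a ≤ max t a := le_max_right _ _
    have h1 := key (I u) (1 + ‖u‖) (hIc u) (by positivity) (fun τ hτ => by
      have h2 := hw1 τ hτ
      have h3 : ‖B τ (w τ • u τ)‖ ≤ ‖B τ‖ * (w τ * ‖u‖) := by
        refine ((B τ).le_opNorm _).trans ?_
        rw [norm_smul, Real.norm_of_nonneg (hwpos τ).le]
        gcongr
        exact u.norm_coe_le_norm τ
      have h4 := norm_sub_le (F τ) (B τ (w τ • u τ))
      have h5 := norm_nonneg (F τ)
      have h6 := norm_nonneg (B τ)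
      have h7 := norm_nonneg u
      simp only [hI, hβ]
      nlinarith [mul_nonneg h5 h7, mul_nonneg (mul_nonneg h5 h7) (hwpos τ).le,
        mul_nonneg h6 (hwpos τ).le, mul_nonneg h5 (sub_nonneg.2 h2)]) _ ht
    have h2 := hw1 _ ht
    have h3 : (w (max t a))⁻¹ ≤ 1 := inv_le_one_of_one_le₀ h2
    have h4 : 0 ≤ (w (max t a))⁻¹ := by positivity
    rw [norm_smul, Real.norm_of_nonneg h4]
    calc _ ≤ (w (max t a))⁻¹ * (‖x0‖ + ‖∫ τ in a..max t a, I u τ‖) := by
          gcongr; exact norm_add_le _ _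
      _ ≤ _ := by
          rw [mul_add]
          have := mul_le_mul_of_nonneg_right h3 (norm_nonneg x0)
          linarith
  set Φ : (ℝ →ᵇ E) → (ℝ →ᵇ E) := fun u =>
    BoundedContinuousFunction.ofNormedAddCommGroup _ (hΦc u) _ (hΦb u) with hΦ
  have hΦa : ∀ u t, Φ u t = (w (max t a))⁻¹ • (x0 + ∫ τ in a..max t a, I u τ) := fun u t => rfl
  have hcon : ContractingWith (1 / 2) Φ := by
    refine ⟨by norm_num, LipschitzWith.of_dist_le_mul fun u v => ?_⟩
    rw [BoundedContinuousFunction.dist_le (by positivity)]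
    intro t
    have ht : a ≤ max t a := le_max_right _ _
    rw [dist_eq_norm, hΦa, hΦa, ← smul_sub, add_sub_add_left_eq_sub,
      ← integral_sub ((hIc u).intervalIntegrable _ _) ((hIc v).intervalIntegrable _ _),
      norm_smul, Real.norm_of_nonneg (inv_nonneg.2 (hwpos _).le)]
    have := key (fun τ => I u τ - I v τ) (dist u v) ((hIc u).sub (hIc v)) dist_nonneg
      (fun τ hτ => by
        have h1 : I u τ - I v τ = B τ (w τ • (v τ - u τ)) := by
          simp only [hI, smul_sub, map_sub]; abel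
        rw [h1]
        refine ((B τ).le_opNorm _).trans ?_
        rw [norm_smul, Real.norm_of_nonneg (hwpos τ).le, ← dist_eq_norm, dist_comm]
        have h2 := BoundedContinuousFunction.dist_coe_le_dist (f := u) (g := v) τ
        have h3 : ‖B τ‖ ≤ β τ := le_add_of_nonneg_right (norm_nonneg _)
        have h4 := (hwpos τ).le
        calc _ ≤ β τ * (w τ * dist u v) := by gcongr
          _ = _ := by ring) _ ht
    simp only [NNReal.coe_div, NNReal.coe_one, NNReal.coe_ofNat]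
    linarith
  set u := hcon.fixedPoint Φ with hu
  have hfix : Φ u = u := hcon.fixedPoint_isFixedPt
  have hJ : Continuous fun τ => I u (max τ a) := (hIc u).comp hmax
  set γ : ℝ → E := fun t => x0 + ∫ τ in a..t, I u (max τ a) with hγ
  have hγw : ∀ t, a ≤ t → γ t = w t • u t := by
    intro t ht
    have h1 : u t = (w t)⁻¹ • (x0 + ∫ τ in a..t, I u τ) := by
      rw [← hfix, hΦa, hfix, max_eq_left ht]
    rw [h1, smul_smul, mul_inv_cancel₀ (hwpos t).ne', one_smul]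
    simp only [hγ]
    congr 1
    apply integral_congr
    intro τ hτ
    rw [uIcc_of_le ht] at hτ
    simp only [max_eq_left hτ.1]
  have hγa : γ a = x0 := by simp [hγ]
  refine ⟨γ, hγa, fun t ht => ?_, fun t => ?_⟩
  · have h1 : ∫ τ in a..t, I u (max τ a) = ∫ τ in a..t, (F a - B a x0) := by
      apply integral_congr
      intro τ hτ
      rw [uIcc_of_ge ht] at hτ
      simp only [max_eq_right hτ.2, hI, ← hγw a le_rfl, hγa]
    simp only [hγ, h1, intervalIntegral.integral_const]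
  rw [hγw _ (le_max_right _ _)]
  exact ((hJ.integral_hasStrictDerivAt a t).hasDerivAt).const_add x0

end ODE

section Gronwall

variable {H : Type*} [NormedAddCommGroup H] [InnerProductSpace ℝ H]

theorem energy_gronwall {h h' : ℝ → H} {a b C r : ℝ} (hC : 0 ≤ C)
    (hd : ∀ t ∈ Icc a b, HasDerivAt h (h' t) t)
    (hb : ∀ t ∈ Icc a b, inner ℝ (h' t) (h t) ≤ C * ‖h t‖ ^ 2 + r * ‖h t‖) :
    ∀ t ∈ Icc a b, ‖h t‖ ^ 2 ≤ (‖h a‖ ^ 2 + r ^ 2) * Real.exp ((2 * C + 1) * (b - a)) := by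
  intro t ht
  have h1 : ∀ t ∈ Icc a b, HasDerivAt (fun t => ‖h t‖ ^ 2) (2 * inner ℝ (h t) (h' t)) t :=
    fun t ht => (hd t ht).norm_sq
  have h2 := le_gronwallBound_of_liminf_deriv_right_le (f := fun t => ‖h t‖ ^ 2)
    (f' := fun t => 2 * inner ℝ (h t) (h' t)) (δ := ‖h a‖ ^ 2) (K := 2 * C + 1) (ε := r ^ 2)
    (a := a) (b := b) (fun t ht => (h1 t ht).continuousAt.continuousWithinAt)
    (fun x hx r hr => ((h1 x (Ico_subset_Icc_self hx)).hasDerivWithinAt (s := Ici x)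
      |>.liminf_right_slope_le hr).mono fun z hz => by
        simpa [slope_def_field, div_eq_inv_mul] using hz) le_rfl
    (fun x hx => by
      have := hb x (Ico_subset_Icc_self hx)
      rw [real_inner_comm] at this
      nlinarith [sq_nonneg (r - ‖h x‖)]) t ht
  have hK : (2 * C + 1) ≠ 0 := by positivity
  rw [gronwallBound_of_K_ne_0 hK] at h2
  have h3 : Real.exp ((2 * C + 1) * (t - a)) ≤ Real.exp ((2 * C + 1) * (b - a)) := by
    gcongr; exact ht.2
  have h4 : r ^ 2 / (2 * C + 1) ≤ r ^ 2 := div_le_self (sq_nonneg r) (by linarith)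
  have h5 : 0 ≤ r ^ 2 / (2 * C + 1) := by positivity
  have h6 := Real.exp_pos ((2 * C + 1) * (t - a))
  calc ‖h t‖ ^ 2 ≤ ‖h a‖ ^ 2 * Real.exp ((2 * C + 1) * (t - a)) +
        r ^ 2 / (2 * C + 1) * (Real.exp ((2 * C + 1) * (t - a)) - 1) := h2
    _ ≤ ‖h a‖ ^ 2 * Real.exp ((2 * C + 1) * (t - a)) +
        r ^ 2 * Real.exp ((2 * C + 1) * (t - a)) := by nlinarith
    _ = (‖h a‖ ^ 2 + r ^ 2) * Real.exp ((2 * C + 1) * (t - a)) := by ring
    _ ≤ _ := by gcongr

end Gronwall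

end Pool.Agent.BoltzD.Solver

end
end MrgPart0

-- ======== part 1: formerly Pool.Agent.BoltzD.Solver.Lvl
section MrgPart1

/-!
Positive definite forms on a real vector space, the normed spaces they define, and the finite
dimensional (Galerkin) approximate solutions.
-/

set_option autoImplicit false

open Set Filter Topology

noncomputable section

namespace Pool.Agent.BoltzD.Solver

variable [Dim]

/-- A symmetric positive definite bilinear form. -/
structure PD (X : Type*) [AddCommGroup X] [Module ℝ X] where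
  B : X →ₗ[ℝ] X →ₗ[ℝ] ℝ
  symm : ∀ x y, B x y = B y x
  nonneg : ∀ x, 0 ≤ B x x
  defin : ∀ x, B x x = 0 → x = 0

variable {X : Type*} [AddCommGroup X] [Module ℝ X]

/-- The space with the inner product given by the form. -/
def Lvl (_q : PD X) : Type _ := X

namespace Lvl

variable (q : PD X)

/-- The inner product core. -/
@[reducible] def core : InnerProductSpace.Core ℝ X where
  inner x y := q.B x y
  conj_inner_symm x y := by simpa using q.symm y x
  re_inner_nonneg x := by simpa using q.nonneg x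
  add_left x y z := by simp
  smul_left x y r := by simp
  definite := q.defin

instance : NormedAddCommGroup (Lvl q) :=
  @InnerProductSpace.Core.toNormedAddCommGroup ℝ X _ _ _ (core q)

instance : InnerProductSpace ℝ (Lvl q) :=
  @InnerProductSpace.ofCore ℝ X _ _ _ (core q).toCore

end Lvl

/-- The identity map into the normed space of a form. -/
def toL (q : PD X) : X →ₗ[ℝ] Lvl q where
  toFun x := x
  map_add' _ _ := rfl
  map_smul' _ _ := rfl

/-- The identity map out of the normed space of a form. -/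
def ofL (q : PD X) : Lvl q →ₗ[ℝ] X where
  toFun x := x
  map_add' _ _ := rfl
  map_smul' _ _ := rfl

@[simp] lemma ofL_toL (q : PD X) (x : X) : ofL q (toL q x) = x := rfl

@[simp] lemma toL_ofL (q : PD X) (x : Lvl q) : toL q (ofL q x) = x := rfl

lemma inner_toL (q : PD X) (x y : X) : inner ℝ (toL q x) (toL q y) = q.B x y := rfl

/-- The norm of a form. -/
def PD.nr (q : PD X) (x : X) : ℝ := ‖toL q x‖

namespace PD

variable (q : PD X)

lemma nr_nonneg (x : X) : 0 ≤ q.nr x := norm_nonneg _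

lemma nr_sq (x : X) : q.nr x ^ 2 = q.B x x := by
  rw [nr, ← real_inner_self_eq_norm_sq, inner_toL]

lemma nr_eq_sqrt (x : X) : q.nr x = √(q.B x x) := by
  rw [← nr_sq, Real.sqrt_sq (q.nr_nonneg x)]

lemma nr_add_le (x y : X) : q.nr (x + y) ≤ q.nr x + q.nr y := by
  simp only [nr, map_add]; exact norm_add_le _ _

lemma nr_sub_le (x y : X) : q.nr (x - y) ≤ q.nr x + q.nr y := by
  simp only [nr, map_sub]; exact norm_sub_le _ _

lemma nr_sub_comm (x y : X) : q.nr (x - y) = q.nr (y - x) := by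
  simp only [nr, map_sub]; exact norm_sub_rev _ _

lemma nr_smul (c : ℝ) (x : X) : q.nr (c • x) = |c| * q.nr x := by
  simp only [nr, map_smul, norm_smul, Real.norm_eq_abs]

lemma nr_triangle (x y z : X) : q.nr (x - z) ≤ q.nr (x - y) + q.nr (y - z) := by
  have := q.nr_add_le (x - y) (y - z)
  rwa [sub_add_sub_cancel] at this

lemma abs_B_le (x y : X) : |q.B x y| ≤ q.nr x * q.nr y := by
  rw [← inner_toL]; exact abs_real_inner_le_norm _ _

lemma B_le (x y : X) : q.B x y ≤ q.nr x * q.nr y := (le_abs_self _).trans (q.abs_B_le x y)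

lemma eq_zero_of_nr {x : X} (h : q.nr x = 0) : x = 0 :=
  q.defin x (by rw [← nr_sq, h]; norm_num)

lemma nr_proj_le (P : X →ₗ[ℝ] X) (hP : ∀ x, P (P x) = P x)
    (hs : ∀ x y, q.B (P x) y = q.B x (P y)) (x : X) : q.nr (P x) ≤ q.nr x := by
  have h1 : q.nr (P x) ^ 2 ≤ q.nr x * q.nr (P x) := by
    rw [nr_sq, hs, hP]; exact q.B_le _ _
  rcases (q.nr_nonneg (P x)).eq_or_lt with h | h
  · rw [← h]; exact q.nr_nonneg x
  · nlinarith

end PD

theorem continuous_of_weak {E : Type*} [NormedAddCommGroup E] [InnerProductSpace ℝ E]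
    [FiniteDimensional ℝ E] {f : ℝ → E} (hf : ∀ e, Continuous fun s => inner ℝ e (f s)) :
    Continuous f := by
  have h : f = fun s => ∑ i, inner ℝ (stdOrthonormalBasis ℝ E i) (f s) •
      stdOrthonormalBasis ℝ E i := funext fun s => ((stdOrthonormalBasis ℝ E).sum_repr' _).symm
  rw [h]
  exact continuous_finsetSum _ fun i _ => (hf _).smul continuous_const

/-- The Galerkin approximation in one finite dimensional subspace. -/
theorem exists_galerkin (q : PD X) (Y : Submodule ℝ X) [FiniteDimensional ℝ Y]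
    (P : X →ₗ[ℝ] X) (hPY : ∀ x, P x ∈ Y) (hYP : ∀ y ∈ Y, P y = y)
    (hs : ∀ x y, q.B (P x) y = q.B x (P y))
    (A : ℝ → X →ₗ[ℝ] X) (F : ℝ → X) (hA : ∀ x y, Continuous fun s => q.B (A s x) y)
    (hF : ∀ y, Continuous fun s => q.B (F s) y) (a : ℝ) (x0 : X) :
    ∃ γ : ℝ → X, (∀ t, γ t ∈ Y) ∧ γ a = P x0 ∧
      (∀ t, t ≤ a → γ t = P x0 + (t - a) • P (F a - A a (P x0))) ∧
      ∀ Q : PD X, (∀ t, HasDerivAt (fun t => toL Q (γ t))
          (toL Q (P (F (max t a) - A (max t a) (γ (max t a))))) t) ∧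
        Continuous fun t => toL Q (P (F t - A t (γ t))) := by
  let Y' : Submodule ℝ (Lvl q) := Y
  have : FiniteDimensional ℝ Y' := (inferInstance : FiniteDimensional ℝ Y)
  have : CompleteSpace Y' := FiniteDimensional.complete ℝ Y'
  let pr : X →ₗ[ℝ] Y' := LinearMap.codRestrict Y' ((toL q).comp P) hPY
  let inc : Y' →ₗ[ℝ] X := (ofL q).comp Y'.subtype
  have hinc : ∀ x, inc (pr x) = P x := fun x => rfl
  have hmem : ∀ e, inc e ∈ Y := fun e => e.2
  have hweak : ∀ f : ℝ → X, (∀ y, Continuous fun s => q.B (f s) y) →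
      Continuous fun s => pr (f s) := by
    intro f hf
    refine continuous_of_weak fun e => ?_
    have : ∀ s, inner ℝ e (pr (f s)) = q.B (f s) (inc e) := by
      intro s
      change q.B (inc e) (P (f s)) = _
      rw [← hs, hYP _ (hmem e), q.symm]
    simp only [this]
    exact hf _
  let B : ℝ → Y' →L[ℝ] Y' := fun s => LinearMap.toContinuousLinearMap (pr.comp ((A s).comp inc))
  have hBa : ∀ s e, B s e = pr (A s (inc e)) := fun s e => rfl
  have hB : Continuous B := continuous_clm_apply.2 fun e => hweak _ (hA (inc e))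
  have hF' : Continuous fun s => pr (F s) := hweak _ hF
  obtain ⟨γ, h0, h1, h2⟩ := exists_linear_ode B (fun s => pr (F s)) hB hF' a (pr x0)
  have hγc : Continuous γ := continuous_iff_continuousAt.2 fun t => (h2 t).continuousAt
  refine ⟨fun t => inc (γ t), fun t => hmem _, by simp only [h0, hinc], fun t ht => ?_, fun Q => ?_⟩
  · simp only [h1 t ht, map_add, map_smul, map_sub, hBa, hinc]
  · let J : Y' →L[ℝ] Lvl Q := LinearMap.toContinuousLinearMap ((toL Q).comp inc)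
    have hJ : ∀ e, J e = toL Q (inc e) := fun e => rfl
    constructor
    · intro t
      have h3 := J.hasFDerivAt.comp_hasDerivAt t (h2 t)
      simp only [hJ, map_sub, hBa, hinc] at h3
      simp only [map_sub]
      exact h3
    · have h3 := J.continuous.comp (hF'.sub (hB.clm_apply hγc))
      refine h3.congr fun t => ?_
      simp only [Function.comp, Pi.sub_apply, hJ, map_sub, hBa, hinc]

end Pool.Agent.BoltzD.Solver

end
end MrgPart1

-- ======== part 2: formerly Pool.Agent.BoltzD.Solver.Core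
section MrgPart2

/-!
The abstract Galerkin theorem in a scale of norms.
-/

set_option autoImplicit false

open Set Filter Topology

noncomputable section

namespace Pool.Agent.BoltzD.Solver

variable [Dim]

/-- A complete scale of inner product norms with finite rank projections. -/
structure Scale (X : Type*) [AddCommGroup X] [Module ℝ X] where
  q : ℕ → PD X
  Y : ℕ → Submodule ℝ X
  fin : ∀ N, FiniteDimensional ℝ (Y N)
  P : ℕ → X →ₗ[ℝ] X
  PY : ∀ N x, P N x ∈ Y N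
  YP : ∀ N, ∀ y ∈ Y N, P N y = y
  Psymm : ∀ N x y, (q 0).B (P N x) y = (q 0).B x (P N y)
  approx : ∀ n, ∃ ε : ℕ → ℝ, Tendsto ε atTop (𝓝 0) ∧
    ∀ N x, (q n).nr (x - P N x) ≤ ε N * (q (n + 1)).nr x
  compl : ∀ x : ℕ → X, (∀ n, ∃ η : ℕ → ℝ, Tendsto η atTop (𝓝 0) ∧
    ∀ N M, (q n).nr (x N - x M) ≤ η N + η M) →
    ∃ y, ∀ n, Tendsto (fun N => (q n).nr (x N - y)) atTop (𝓝 0)

variable {X : Type*} [AddCommGroup X] [Module ℝ X]

lemma le_of_sq_le_of_mul {c x y K : ℝ} (hc : 0 < c) (hxy : c * x ≤ y) (hK : y ^ 2 ≤ K) :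
    x ≤ c⁻¹ * √K := by
  rw [le_inv_mul_iff₀ hc]
  exact hxy.trans (Real.le_sqrt_of_sq_le hK)

theorem galerkin_core (S : Scale X) (A : ℝ → X →ₗ[ℝ] X) (F : ℝ → X) (a : ℝ) (x0 : X)
    (hA : ∀ x y, Continuous fun s => (S.q 0).B (A s x) y)
    (hF : ∀ y, Continuous fun s => (S.q 0).B (F s) y)
    (hAb : ∀ b n, ∃ m C, 0 ≤ C ∧ ∀ s ∈ Icc a b, ∀ x, (S.q n).nr (A s x) ≤ C * (S.q m).nr x)
    (hFb : ∀ b n, ∃ C, ∀ s ∈ Icc a b, (S.q n).nr (F s) ≤ C)
    (hE : ∀ b n, ∃ (Q : PD X) (c C : ℝ) (m : ℕ), 0 < c ∧ 0 ≤ C ∧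
      (∀ x, c * (S.q n).nr x ≤ Q.nr x) ∧ (∀ x, Q.nr x ≤ (S.q m).nr x) ∧
      (∀ N x y, Q.B (S.P N x) y = Q.B x (S.P N y)) ∧
      ∀ s ∈ Icc a b, ∀ x, -(C * Q.nr x ^ 2) ≤ Q.B (A s x) x) :
    ∃ g g' : ℝ → X, g a = x0 ∧ (∀ s, a ≤ s → g' s = F s - A s (g s)) ∧
      ∀ n, (∀ t, HasDerivAt (fun t => toL (S.q n) (g t)) (toL (S.q n) (g' t)) t) ∧
        Continuous fun t => toL (S.q n) (g' t) := by
  have hgal := fun N => @exists_galerkin _ X _ _ (S.q 0) (S.Y N) (S.fin N) (S.P N) (S.PY N) (S.YP N)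
    (S.Psymm N) A F hA hF a x0
  choose γ hY h0 hneg hder using hgal
  have hidem : ∀ N x, S.P N (S.P N x) = S.P N x := fun N x => S.YP N _ (S.PY N x)
  -- uniform bounds
  have hb : ∀ b n, ∃ M, ∀ N, ∀ s ∈ Icc a b, (S.q n).nr (γ N s) ≤ M := by
    intro b n
    obtain ⟨Q, c, C, m, hc, hC, h1, h2, h3, h4⟩ := hE b n
    obtain ⟨r, hr⟩ := hFb b m
    refine ⟨c⁻¹ * √((Q.nr x0 ^ 2 + r ^ 2) * Real.exp ((2 * C + 1) * (b - a))), fun N s hs => ?_⟩
    refine le_of_sq_le_of_mul hc (h1 _) ?_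
    have h5 := energy_gronwall (h := fun t => toL Q (γ N t)) (a := a) (b := b) (r := r) hC
      (fun t _ => (hder N Q).1 t) (fun t ht => by
        rw [max_eq_left ht.1, inner_toL, h3, S.YP N _ (hY N t), map_sub, LinearMap.sub_apply]
        have h6 := h4 t ht (γ N t)
        have h7 := Q.B_le (F t) (γ N t)
        have h8 : Q.nr (F t) * Q.nr (γ N t) ≤ r * Q.nr (γ N t) :=
          mul_le_mul_of_nonneg_right ((h2 _).trans (hr t ht)) (Q.nr_nonneg _)
        change _ ≤ C * Q.nr (γ N t) ^ 2 + r * Q.nr (γ N t)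
        linarith) s hs
    refine h5.trans ?_
    have h6 : Q.nr (γ N a) ≤ Q.nr x0 := by
      rw [h0]; exact Q.nr_proj_le _ (hidem N) (h3 N) x0
    have h7 := Q.nr_nonneg (γ N a)
    change (Q.nr (γ N a) ^ 2 + r ^ 2) * _ ≤ _
    gcongr
  have hb2 : ∀ b n, ∃ M, 0 ≤ M ∧ ∀ N, ∀ s ∈ Icc a b, (S.q n).nr (F s - A s (γ N s)) ≤ M := by
    intro b n
    obtain ⟨m, C, hC, h1⟩ := hAb b n
    obtain ⟨r, hr⟩ := hFb b n
    obtain ⟨M, hM⟩ := hb b m
    refine ⟨|r + C * M|, abs_nonneg _, fun N s hs => ?_⟩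
    refine ((S.q n).nr_sub_le _ _).trans (le_trans ?_ (le_abs_self _))
    have := mul_le_mul_of_nonneg_left (hM N s hs) hC
    linarith [hr s hs, h1 s hs (γ N s)]
  -- the residuals
  have hres : ∀ b n, ∃ ρ : ℕ → ℝ, Tendsto ρ atTop (𝓝 0) ∧ (∀ N, 0 ≤ ρ N) ∧
      (∀ N, (S.q n).nr (x0 - S.P N x0) ≤ ρ N) ∧ ∀ N, ∀ s ∈ Icc a b,
        (S.q n).nr ((F s - A s (γ N s)) - S.P N (F s - A s (γ N s))) ≤ ρ N := by
    intro b n
    obtain ⟨ε, hε, h1⟩ := S.approx n
    obtain ⟨M, hM, h2⟩ := hb2 b (n + 1)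
    have h3 := (S.q (n + 1)).nr_nonneg x0
    refine ⟨fun N => |ε N| * (M + (S.q (n + 1)).nr x0), ?_, fun N => by positivity,
      fun N => ?_, fun N s hs => ?_⟩
    · simpa using hε.abs.mul_const (M + (S.q (n + 1)).nr x0)
    · exact (h1 N _).trans (mul_le_mul (le_abs_self _) (by linarith) h3 (abs_nonneg _))
    · exact (h1 N _).trans (mul_le_mul (le_abs_self _) (by linarith [h2 N s hs])
        ((S.q (n + 1)).nr_nonneg _) (abs_nonneg _))
  -- Cauchy estimate
  have hc : ∀ b n, ∃ η : ℕ → ℝ, Tendsto η atTop (𝓝 0) ∧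
      ∀ N M, ∀ s ∈ Icc a b, (S.q n).nr (γ N s - γ M s) ≤ η N + η M := by
    intro b n
    obtain ⟨Q, c, C, m, hc, hC, h1, h2, h3, h4⟩ := hE b n
    obtain ⟨ρ, hρ, hρ0, hρ1, hρ2⟩ := hres b m
    set K := Real.exp ((2 * C + 1) * (b - a)) with hK
    have hK0 : 0 ≤ K := (Real.exp_pos _).le
    refine ⟨fun N => c⁻¹ * √(2 * K) * ρ N, by simpa using hρ.const_mul (c⁻¹ * √(2 * K)),
      fun N M s hs => ?_⟩
    have h5 := energy_gronwall (h := fun t => toL Q (γ N t) - toL Q (γ M t)) (a := a) (b := b)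
      (r := ρ N + ρ M) hC
      (fun t _ => ((hder N Q).1 t).sub ((hder M Q).1 t)) (fun t ht => by
        rw [max_eq_left ht.1, ← map_sub, ← map_sub, inner_toL]
        have h6 := h4 t ht (γ N t - γ M t)
        set RN := (F t - A t (γ N t)) - S.P N (F t - A t (γ N t)) with hRN
        set RM := (F t - A t (γ M t)) - S.P M (F t - A t (γ M t)) with hRM
        have h7 : S.P N (F t - A t (γ N t)) - S.P M (F t - A t (γ M t)) =
            (RM - RN) - A t (γ N t - γ M t) := by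
          rw [hRN, hRM, map_sub (A t)]; abel
        have h8 : Q.nr (RM - RN) ≤ ρ N + ρ M := by
          have := Q.nr_sub_le RM RN
          linarith [h2 RM, h2 RN, hρ2 N t ht, hρ2 M t ht]
        have h9 := Q.B_le (RM - RN) (γ N t - γ M t)
        have h10 := mul_le_mul_of_nonneg_right h8 (Q.nr_nonneg (γ N t - γ M t))
        rw [h7, map_sub Q.B, LinearMap.sub_apply]
        change _ ≤ C * Q.nr (γ N t - γ M t) ^ 2 + (ρ N + ρ M) * Q.nr (γ N t - γ M t)
        linarith) s hs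
    simp only [← map_sub] at h5
    have h6 : Q.nr (γ N a - γ M a) ≤ ρ N + ρ M := by
      rw [h0, h0]
      have := Q.nr_triangle (S.P N x0) x0 (S.P M x0)
      rw [Q.nr_sub_comm (S.P N x0) x0] at this
      linarith [h2 (x0 - S.P N x0), h2 (x0 - S.P M x0), hρ1 N, hρ1 M]
    have h7 : Q.nr (γ N s - γ M s) ^ 2 ≤ (ρ N + ρ M) ^ 2 * (2 * K) := by
      refine h5.trans ?_
      have h8 := Q.nr_nonneg (γ N a - γ M a)
      have h9 : Q.nr (γ N a - γ M a) ^ 2 ≤ (ρ N + ρ M) ^ 2 := by gcongr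
      change (Q.nr (γ N a - γ M a) ^ 2 + (ρ N + ρ M) ^ 2) * K ≤ _
      nlinarith
    have h8 := le_of_sq_le_of_mul hc (h1 _) h7
    rw [Real.sqrt_mul (sq_nonneg _), Real.sqrt_sq (add_nonneg (hρ0 N) (hρ0 M))] at h8
    calc _ ≤ _ := h8
      _ = _ := by ring
  -- the limit
  have hlim : ∀ t, ∃ y, ∀ n, Tendsto (fun N => (S.q n).nr (γ N (max t a) - y)) atTop (𝓝 0) := by
    intro t
    refine S.compl _ fun n => ?_
    obtain ⟨η, hη, h1⟩ := hc (max t a) n
    exact ⟨η, hη, fun N M => h1 N M _ ⟨le_max_right _ _, le_rfl⟩⟩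
  choose g₁ hg₁ using hlim
  have hg₁' : ∀ t, a ≤ t → ∀ n, Tendsto (fun N => (S.q n).nr (γ N t - g₁ t)) atTop (𝓝 0) := by
    intro t ht n
    simpa only [max_eq_left ht] using hg₁ t n
  have hunif : ∀ b n, ∃ η : ℕ → ℝ, Tendsto η atTop (𝓝 0) ∧
      ∀ N, ∀ s ∈ Icc a b, (S.q n).nr (γ N s - g₁ s) ≤ η N := by
    intro b n
    obtain ⟨η, hη, h1⟩ := hc b n
    refine ⟨η, hη, fun N s hs => ?_⟩
    have h2 : Tendsto (fun M => η N + η M + (S.q n).nr (γ M s - g₁ s)) atTop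
        (𝓝 (η N + 0 + 0)) := (tendsto_const_nhds.add hη).add (hg₁' s hs.1 n)
    rw [add_zero, add_zero] at h2
    refine ge_of_tendsto' h2 fun M => ?_
    linarith [(S.q n).nr_triangle (γ N s) (γ M s) (g₁ s), h1 N M s hs]
  have hg₁a : g₁ a = x0 := by
    obtain ⟨ρ, hρ, -, hρ1, -⟩ := hres a 0
    have h2 : Tendsto (fun N => ρ N + (S.q 0).nr (γ N a - g₁ a)) atTop (𝓝 (0 + 0)) :=
      hρ.add (hg₁' a le_rfl 0)
    rw [add_zero] at h2
    have h3 : (S.q 0).nr (x0 - g₁ a) ≤ 0 := by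
      refine ge_of_tendsto' h2 fun N => ?_
      have := (S.q 0).nr_triangle x0 (γ N a) (g₁ a)
      rw [h0] at this ⊢
      linarith [hρ1 N]
    exact (sub_eq_zero.1 ((S.q 0).eq_zero_of_nr (le_antisymm h3 ((S.q 0).nr_nonneg _)))).symm
  have hunif' : ∀ b n, ∃ η : ℕ → ℝ, Tendsto η atTop (𝓝 0) ∧ ∀ N, ∀ s ∈ Icc a b,
      (S.q n).nr (S.P N (F s - A s (γ N s)) - (F s - A s (g₁ s))) ≤ η N := by
    intro b n
    obtain ⟨m, C, hC, h1⟩ := hAb b n
    obtain ⟨η, hη, h2⟩ := hunif b m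
    obtain ⟨ρ, hρ, -, -, hρ2⟩ := hres b n
    refine ⟨fun N => ρ N + C * η N, by simpa using hρ.add (hη.const_mul C), fun N s hs => ?_⟩
    have h3 := (S.q n).nr_triangle (S.P N (F s - A s (γ N s))) (F s - A s (γ N s))
      (F s - A s (g₁ s))
    have h4 : F s - A s (γ N s) - (F s - A s (g₁ s)) = A s (g₁ s - γ N s) := by
      rw [map_sub]; abel
    rw [h4, (S.q n).nr_sub_comm _ (F s - A s (γ N s))] at h3
    have h5 := h1 s hs (g₁ s - γ N s)
    rw [(S.q m).nr_sub_comm] at h5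
    have h6 := mul_le_mul_of_nonneg_left (h2 N s hs) hC
    linarith [hρ2 N s hs]
  classical
  set g : ℝ → X := fun t => if a ≤ t then g₁ t else x0 + (t - a) • (F a - A a x0) with hg
  have hgge : ∀ t, a ≤ t → g t = g₁ t := fun t ht => if_pos ht
  set g' : ℝ → X := fun t => F (max t a) - A (max t a) (g₁ (max t a)) with hg'
  have hconv : ∀ n t, Tendsto (fun N => toL (S.q n) (γ N t)) atTop (𝓝 (toL (S.q n) (g t))) := by
    intro n t
    rw [tendsto_iff_norm_sub_tendsto_zero]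
    simp only [← map_sub]
    by_cases ht : a ≤ t
    · rw [hgge t ht]; exact hg₁' t ht n
    · have h1 : g t = x0 + (t - a) • (F a - A a x0) := if_neg ht
      obtain ⟨η, hη, h2⟩ := hunif' a n
      obtain ⟨ρ, hρ, -, hρ1, -⟩ := hres a n
      have h3 : Tendsto (fun N => ρ N + |t - a| * η N) atTop (𝓝 0) := by
        simpa using hρ.add (hη.const_mul |t - a|)
      refine squeeze_zero (fun N => norm_nonneg _) (fun N => ?_) h3
      have h4 := h2 N a ⟨le_rfl, le_rfl⟩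
      rw [hg₁a, h0] at h4
      have h5 : γ N t - g t = (S.P N x0 - x0) +
          (t - a) • (S.P N (F a - A a (S.P N x0)) - (F a - A a x0)) := by
        rw [h1, hneg N t (le_of_not_ge ht), smul_sub (t - a) (S.P N _)]; abel
      change (S.q n).nr (γ N t - g t) ≤ _
      rw [h5]
      refine ((S.q n).nr_add_le _ _).trans ?_
      rw [(S.q n).nr_smul, (S.q n).nr_sub_comm (S.P N x0)]
      have h6 := mul_le_mul_of_nonneg_left h4 (abs_nonneg (t - a))
      linarith [hρ1 N]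
  have hconv' : ∀ n b, a ≤ b → TendstoUniformlyOn
      (fun N t => toL (S.q n) (S.P N (F (max t a) - A (max t a) (γ N (max t a)))))
      (fun t => toL (S.q n) (g' t)) atTop (Iio b) := by
    intro n b hab
    obtain ⟨η, hη, h2⟩ := hunif' b n
    rw [Metric.tendstoUniformlyOn_iff]
    intro ε hε
    filter_upwards [hη.eventually (gt_mem_nhds hε)] with N hN t ht
    rw [dist_comm, dist_eq_norm, ← map_sub]
    exact (h2 N _ ⟨le_max_right _ _, max_le (le_of_lt ht) hab⟩).trans_lt hN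
  refine ⟨g, g', by rw [hgge a le_rfl, hg₁a], fun s hs => ?_, fun n => ⟨fun t => ?_, ?_⟩⟩
  · simp only [hg', max_eq_left hs, hgge s hs]
  · have hb : t ∈ Iio (max t a + 1) :=
      mem_Iio.2 (lt_of_le_of_lt (le_max_left _ _) (lt_add_one _))
    exact hasDerivAt_of_tendstoUniformlyOn isOpen_Iio
      (hconv' n _ ((le_max_right _ _).trans (lt_add_one _).le))
      (Eventually.of_forall fun N x _ => (hder N (S.q n)).1 x) (fun x _ => hconv n x) hb
  · rw [continuous_iff_continuousAt]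
    intro t
    have hb : t ∈ Iio (max t a + 1) :=
      mem_Iio.2 (lt_of_le_of_lt (le_max_left _ _) (lt_add_one _))
    have h1 := (hconv' n _ ((le_max_right t a).trans (lt_add_one _).le)).continuousOn
      (Frequently.of_forall fun N =>
        ((hder N (S.q n)).2.comp (continuous_id.max continuous_const)).continuousOn)
    exact h1.continuousAt (isOpen_Iio.mem_nhds hb)

end Pool.Agent.BoltzD.Solver

end
end MrgPart2

-- ======== part 3: formerly Pool.Agent.BoltzD.Solver.Energy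
section MrgPart3

/-!
Norms built from a finite family of first order letters, and the energy inequality at all orders
for an operator in a class closed under commutators with the letters.
-/

set_option autoImplicit false

open Set Filter Topology Finset

noncomputable section

namespace Pool.Agent.BoltzD.Solver

variable [Dim]

variable {X : Type*} [AddCommGroup X] [Module ℝ X] {ι : Type*} [Fintype ι]

/-- The bilinear form of order `n`: sum over all words of length `n` in the letters. -/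
def NB (Z : ι → X →ₗ[ℝ] X) (b : X →ₗ[ℝ] X →ₗ[ℝ] ℝ) : ℕ → X →ₗ[ℝ] X →ₗ[ℝ] ℝ
  | 0 => b
  | n + 1 => ∑ z, (NB Z b n).compl₁₂ (Z z) (Z z)

/-- Sum of `d` over all words of length `n` in the letters. -/
def lq (Z : ι → X →ₗ[ℝ] X) (d : X → ℝ) : ℕ → X → ℝ
  | 0, x => d x
  | n + 1, x => ∑ z, lq Z d n (Z z x)

/-- Sum of `d` over all words of length less than `n`. -/
def sq (Z : ι → X →ₗ[ℝ] X) (d : X → ℝ) (n : ℕ) (x : X) : ℝ := ∑ j ∈ range n, lq Z d j x

/-- Commutator with a letter. -/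
def ad (Z : X →ₗ[ℝ] X) (A : ℝ → X →ₗ[ℝ] X) : ℝ → X →ₗ[ℝ] X := fun s => Z ∘ₗ A s - A s ∘ₗ Z

lemma ad_apply (Z : X →ₗ[ℝ] X) (A : ℝ → X →ₗ[ℝ] X) (s : ℝ) (x : X) :
    ad Z A s x = Z (A s x) - A s (Z x) := rfl

variable (Z : ι → X →ₗ[ℝ] X)

lemma NB_succ (b : X →ₗ[ℝ] X →ₗ[ℝ] ℝ) (n : ℕ) (x y : X) :
    NB Z b (n + 1) x y = ∑ z, NB Z b n (Z z x) (Z z y) := by
  simp [NB, LinearMap.sum_apply]

lemma NB_self (b : X →ₗ[ℝ] X →ₗ[ℝ] ℝ) (n : ℕ) (x : X) :
    NB Z b n x x = lq Z (fun x => b x x) n x := by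
  induction n generalizing x with
  | zero => rfl
  | succ n ih => simp only [NB_succ, lq, ih]

lemma NB_symm (b : PD X) (n : ℕ) (x y : X) : NB Z b.B n x y = NB Z b.B n y x := by
  induction n generalizing x y with
  | zero => exact b.symm x y
  | succ n ih => simp only [NB_succ, ih (Z _ x)]

variable {Z}

lemma lq_nonneg {d : X → ℝ} (hd : ∀ x, 0 ≤ d x) (n : ℕ) (x : X) : 0 ≤ lq Z d n x := by
  induction n generalizing x with
  | zero => exact hd x
  | succ n ih => exact sum_nonneg fun z _ => ih _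

lemma lq_succ (d : X → ℝ) (n : ℕ) (x : X) : lq Z d (n + 1) x = ∑ z, lq Z d n (Z z x) := rfl

lemma sq_nonneg' {d : X → ℝ} (hd : ∀ x, 0 ≤ d x) (n : ℕ) (x : X) : 0 ≤ sq Z d n x :=
  sum_nonneg fun _ _ => lq_nonneg hd _ _

lemma sq_succ (d : X → ℝ) (n : ℕ) (x : X) : sq Z d (n + 1) x = sq Z d n x + lq Z d n x :=
  sum_range_succ _ _

lemma sq_one (d : X → ℝ) (x : X) : sq Z d 1 x = d x := by simp [sq, lq]

lemma sq_two (d : X → ℝ) (x : X) : sq Z d 2 x = d x + ∑ z, d (Z z x) := by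
  simp [sq, lq, sum_range_succ]

lemma sq_mono {d : X → ℝ} (hd : ∀ x, 0 ≤ d x) {n m : ℕ} (h : n ≤ m) (x : X) :
    sq Z d n x ≤ sq Z d m x :=
  sum_le_sum_of_subset_of_nonneg (range_mono h) fun _ _ _ => lq_nonneg hd _ _

lemma lq_le_sq {d : X → ℝ} (hd : ∀ x, 0 ≤ d x) (n : ℕ) (x : X) :
    lq Z d n x ≤ sq Z d (n + 1) x := by
  rw [sq_succ]; linarith [sq_nonneg' (Z := Z) hd n x]

lemma sum_sq_eq (d : X → ℝ) (n : ℕ) (x : X) :
    ∑ z, sq Z d n (Z z x) + d x = sq Z d (n + 1) x := by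
  simp only [sq]
  rw [sum_range_succ', sum_comm]
  rfl

lemma sum_sq_le {d : X → ℝ} (hd : ∀ x, 0 ≤ d x) (n : ℕ) (x : X) :
    ∑ z, sq Z d n (Z z x) ≤ sq Z d (n + 1) x := by
  rw [← sum_sq_eq]; linarith [hd x]

lemma sq_Z_le {d : X → ℝ} (hd : ∀ x, 0 ≤ d x) (n : ℕ) (z : ι) (x : X) :
    sq Z d n (Z z x) ≤ sq Z d (n + 1) x :=
  (single_le_sum (f := fun z => sq Z d n (Z z x)) (fun _ _ => sq_nonneg' hd _ _)
    (mem_univ z)).trans (sum_sq_le hd n x)

lemma lq_add_le (b : PD X) (n : ℕ) (x y : X) : lq Z (fun x => b.B x x) n (x + y) ≤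
    2 * lq Z (fun x => b.B x x) n x + 2 * lq Z (fun x => b.B x x) n y := by
  have h := lq_nonneg (Z := Z) b.nonneg n (x - y)
  simp only [← NB_self, map_add, map_sub, LinearMap.add_apply, LinearMap.sub_apply] at h ⊢
  linarith

section Tame

variable (Z) (b : PD X) (d : X → ℝ) (I : Set ℝ)

/-- First order bound, with small constant on the dissipation of top order. -/
def Tame (A : ℝ → X →ₗ[ℝ] X) : Prop :=
  ∀ ε : ℝ, 0 < ε → ∃ C : ℝ, 0 ≤ C ∧ ∀ s ∈ I, ∀ f h, |b.B (A s f) h| ≤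
    ε * (sq Z d 2 f + d h) + C * (sq Z (fun x => b.B x x) 2 f + d f + b.B h h)

/-- Bounded with a loss of finitely many letters. -/
def Bdd (A : ℝ → X →ₗ[ℝ] X) : Prop :=
  ∃ (m : ℕ) (C : ℝ), 0 ≤ C ∧ ∀ s ∈ I, ∀ f,
    b.B (A s f) (A s f) ≤ C * sq Z (fun x => b.B x x) m f

variable {Z b d I} {𝒞 : (ℝ → X →ₗ[ℝ] X) → Prop}

theorem tame_all (hd : ∀ x, 0 ≤ d x) (had : ∀ A, 𝒞 A → ∀ z, 𝒞 (ad (Z z) A))
    (ht : ∀ A, 𝒞 A → Tame Z b d I A) (n : ℕ) : ∀ A, 𝒞 A →
    ∀ ε : ℝ, 0 < ε → ∃ C : ℝ, 0 ≤ C ∧ ∀ s ∈ I, ∀ f h, |NB Z b.B n (A s f) h| ≤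
      ε * (sq Z d (n + 2) f + sq Z d (n + 1) h) + C * (sq Z (fun x => b.B x x) (n + 2) f +
        sq Z d (n + 1) f + sq Z (fun x => b.B x x) (n + 1) h) := by
  induction n with
  | zero =>
    intro A hA ε hε
    obtain ⟨C, hC, h⟩ := ht A hA ε hε
    exact ⟨C, hC, fun s hs f h' => by simpa only [zero_add, sq_one, NB] using h s hs f h'⟩
  | succ n ih =>
    intro A hA ε hε
    set κ : ℝ := (Fintype.card ι : ℝ) with hκ
    have hκ0 : 0 ≤ κ := Nat.cast_nonneg _
    have hε1 : 0 < ε / (κ + 2) := by positivity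
    obtain ⟨C1, hC1, h1⟩ := ih A hA _ hε1
    choose C2 hC2 h2 using fun z => ih _ (had A hA z) _ hε1
    have hS : 0 ≤ ∑ z, C2 z := sum_nonneg fun z _ => hC2 z
    refine ⟨C1 + (∑ z, C2 z) * (κ + 1), by positivity, fun s hs f h => ?_⟩
    set nn : X → ℝ := fun x => b.B x x with hnn
    have hn : ∀ x, 0 ≤ nn x := b.nonneg
    have e1 : ∀ z, |NB Z b.B n (Z z (A s f)) (Z z h)| ≤
        (ε / (κ + 2) * (sq Z d (n + 2) (Z z f) + sq Z d (n + 1) (Z z h)) +
          C1 * (sq Z nn (n + 2) (Z z f) + sq Z d (n + 1) (Z z f) + sq Z nn (n + 1) (Z z h))) +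
        (ε / (κ + 2) * (sq Z d (n + 2) f + sq Z d (n + 1) (Z z h)) +
          (∑ z, C2 z) * (sq Z nn (n + 2) f + sq Z d (n + 1) f + sq Z nn (n + 1) (Z z h))) := by
      intro z
      have e2 : Z z (A s f) = A s (Z z f) + ad (Z z) A s f := by rw [ad_apply]; abel
      rw [e2, map_add, LinearMap.add_apply]
      refine (abs_add_le _ _).trans (add_le_add (h1 s hs _ _) ((h2 z s hs _ _).trans ?_))
      have e3 : C2 z ≤ ∑ z, C2 z := single_le_sum (fun z _ => hC2 z) (mem_univ z)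
      have := sq_nonneg' (Z := Z) hn (n + 2) f
      have := sq_nonneg' (Z := Z) hd (n + 1) f
      have := sq_nonneg' (Z := Z) hn (n + 1) (Z z h)
      gcongr
    rw [NB_succ]
    refine (abs_sum_le_sum_abs _ _).trans ((sum_le_sum fun z _ => e1 z).trans ?_)
    simp only [sum_add_distrib, ← mul_sum, sum_const, card_univ, nsmul_eq_mul, ← hκ]
    have a1 := sum_sq_le (Z := Z) hd (n + 2) f
    have a2 := sum_sq_le (Z := Z) hd (n + 1) h
    have a3 := sum_sq_le (Z := Z) hn (n + 2) f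
    have a4 := sum_sq_le (Z := Z) hd (n + 1) f
    have a5 := sum_sq_le (Z := Z) hn (n + 1) h
    have a6 := sq_mono (Z := Z) hd (Nat.le_succ (n + 2)) f
    have a7 := sq_mono (Z := Z) hn (Nat.le_succ (n + 2)) f
    have a8 := sq_mono (Z := Z) hd (Nat.le_succ (n + 1)) f
    have p1 := sq_nonneg' (Z := Z) hd (n + 1 + 2) f
    have p2 := sq_nonneg' (Z := Z) hd (n + 1 + 1) h
    have p3 := sq_nonneg' (Z := Z) hn (n + 1 + 2) f
    have p4 := sq_nonneg' (Z := Z) hd (n + 1 + 1) f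
    have p5 := sq_nonneg' (Z := Z) hn (n + 1 + 1) h
    have hεe : ε = ε / (κ + 2) * (κ + 2) := by field_simp
    set e := ε / (κ + 2)
    simp only [Nat.succ_eq_add_one, show n + 2 + 1 = n + 1 + 2 from rfl,
      show n + 2 = n + 1 + 1 from rfl] at *
    calc _ ≤ (e * (sq Z d (n + 1 + 2) f + sq Z d (n + 1 + 1) h) +
          C1 * (sq Z nn (n + 1 + 2) f + sq Z d (n + 1 + 1) f + sq Z nn (n + 1 + 1) h)) +
        (e * (κ * sq Z d (n + 1 + 2) f + sq Z d (n + 1 + 1) h) +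
          (∑ z, C2 z) * (κ * sq Z nn (n + 1 + 2) f + κ * sq Z d (n + 1 + 1) f +
            sq Z nn (n + 1 + 1) h)) := by gcongr
      _ ≤ _ := by
        rw [hεe]
        nlinarith [mul_nonneg hε1.le p1, mul_nonneg (mul_nonneg hε1.le hκ0) p2,
          mul_nonneg hS p3, mul_nonneg hS p4, mul_nonneg (mul_nonneg hS hκ0) p5]

theorem main_all (hd : ∀ x, 0 ≤ d x) (had : ∀ A, 𝒞 A → ∀ z, 𝒞 (ad (Z z) A))
    (ht : ∀ A, 𝒞 A → Tame Z b d I A) {A : ℝ → X →ₗ[ℝ] X} (hA : 𝒞 A) {κ0 C0 : ℝ}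
    (h0 : ∀ s ∈ I, ∀ h, κ0 * d h - C0 * b.B h h ≤ b.B (A s h) h) (n : ℕ) :
    ∀ ε : ℝ, 0 < ε → ∃ C : ℝ, 0 ≤ C ∧ ∀ s ∈ I, ∀ g,
      κ0 * lq Z d n g - ε * sq Z d (n + 1) g -
        C * (sq Z (fun x => b.B x x) (n + 1) g + sq Z d n g) ≤ NB Z b.B n (A s g) g := by
  induction n with
  | zero =>
    intro ε hε
    refine ⟨|C0|, abs_nonneg _, fun s hs g => le_trans ?_ (h0 s hs g)⟩
    simp only [zero_add, sq_one, lq]
    have h1 : sq Z d 0 g = 0 := by simp [sq]
    have h2 := mul_le_mul_of_nonneg_right (le_abs_self C0) (b.nonneg g)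
    have h3 := mul_nonneg hε.le (hd g)
    rw [h1, add_zero]
    linarith
  | succ n ih =>
    intro ε hε
    set κ : ℝ := (Fintype.card ι : ℝ) with hκ
    have hκ0 : 0 ≤ κ := Nat.cast_nonneg _
    have hε1 : 0 < ε / (κ + 2) := by positivity
    obtain ⟨C1, hC1, h1⟩ := ih _ hε1
    choose C2 hC2 h2 using fun z => tame_all hd had ht n _ (had A hA z) _ hε1
    have hS : 0 ≤ ∑ z, C2 z := sum_nonneg fun z _ => hC2 z
    refine ⟨C1 + (∑ z, C2 z) * (κ + 1), by positivity, fun s hs g => ?_⟩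
    set nn : X → ℝ := fun x => b.B x x with hnn
    have hn : ∀ x, 0 ≤ nn x := b.nonneg
    have e1 : ∀ z, (κ0 * lq Z d n (Z z g) - ε / (κ + 2) * sq Z d (n + 1) (Z z g) -
        C1 * (sq Z nn (n + 1) (Z z g) + sq Z d n (Z z g))) -
        (ε / (κ + 2) * (sq Z d (n + 2) g + sq Z d (n + 1) (Z z g)) +
          (∑ z, C2 z) * (sq Z nn (n + 2) g + sq Z d (n + 1) g + sq Z nn (n + 1) (Z z g))) ≤
        NB Z b.B n (Z z (A s g)) (Z z g) := by
      intro z
      have e2 : Z z (A s g) = A s (Z z g) + ad (Z z) A s g := by rw [ad_apply]; abel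
      rw [e2, map_add, LinearMap.add_apply]
      have e3 : C2 z ≤ ∑ z, C2 z := single_le_sum (fun z _ => hC2 z) (mem_univ z)
      have e4 := (abs_le.1 (h2 z s hs g (Z z g))).1
      have e5 := h1 s hs (Z z g)
      have := sq_nonneg' (Z := Z) hn (n + 2) g
      have := sq_nonneg' (Z := Z) hd (n + 1) g
      have := sq_nonneg' (Z := Z) hn (n + 1) (Z z g)
      have e6 : C2 z * (sq Z nn (n + 2) g + sq Z d (n + 1) g + sq Z nn (n + 1) (Z z g)) ≤
        (∑ z, C2 z) * (sq Z nn (n + 2) g + sq Z d (n + 1) g + sq Z nn (n + 1) (Z z g)) := by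
        gcongr
      linarith
    rw [NB_succ]
    refine le_trans ?_ (sum_le_sum fun z _ => e1 z)
    simp only [sum_add_distrib, sum_sub_distrib, ← mul_sum, sum_const, card_univ, nsmul_eq_mul,
      ← hκ, ← lq_succ]
    have a1 := sum_sq_le (Z := Z) hd (n + 1) g
    have a2 := sum_sq_le (Z := Z) hn (n + 1) g
    have a3 := sum_sq_le (Z := Z) hd n g
    have p1 := sq_nonneg' (Z := Z) hd (n + 1 + 1) g
    have p3 := sq_nonneg' (Z := Z) hn (n + 1 + 1) g
    have p4 := sq_nonneg' (Z := Z) hd (n + 1) g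
    have hεe : ε = ε / (κ + 2) * (κ + 2) := by field_simp
    set e := ε / (κ + 2)
    simp only [show n + 2 = n + 1 + 1 from rfl] at *
    rw [hεe]
    nlinarith [mul_le_mul_of_nonneg_left a1 hε1.le, mul_le_mul_of_nonneg_left a2 hC1,
      mul_le_mul_of_nonneg_left a3 hC1, mul_le_mul_of_nonneg_left a2 hS, mul_nonneg hS p4]

theorem energy_all (hd : ∀ x, 0 ≤ d x) (had : ∀ A, 𝒞 A → ∀ z, 𝒞 (ad (Z z) A))
    (ht : ∀ A, 𝒞 A → Tame Z b d I A) {A : ℝ → X →ₗ[ℝ] X} (hA : 𝒞 A) {κ0 C0 : ℝ} (hκ0 : 0 < κ0)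
    (h0 : ∀ s ∈ I, ∀ h, κ0 * d h - C0 * b.B h h ≤ b.B (A s h) h) (n : ℕ) :
    ∃ δ : ℕ → ℝ, (∀ j, 0 < δ j ∧ δ j ≤ 1) ∧ ∃ κ1 C : ℝ, 0 < κ1 ∧ 0 ≤ C ∧ ∀ s ∈ I, ∀ g,
      κ1 * sq Z d (n + 1) g - C * sq Z (fun x => b.B x x) (n + 1) g ≤
        ∑ j ∈ range (n + 1), δ j * NB Z b.B j (A s g) g := by
  induction n with
  | zero =>
    refine ⟨fun _ => 1, fun _ => ⟨one_pos, le_rfl⟩, κ0, |C0|, hκ0, abs_nonneg _, fun s hs g => ?_⟩
    simp only [zero_add, sq_one, range_one, sum_singleton, one_mul, NB]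
    have h2 := mul_le_mul_of_nonneg_right (le_abs_self C0) (b.nonneg g)
    linarith [h0 s hs g]
  | succ n ih =>
    obtain ⟨δ, hδ, κ1, C, hκ1, hC, h1⟩ := ih
    obtain ⟨C', hC', h2⟩ := main_all hd had ht hA h0 (n + 1) (κ0 / 2) (by positivity)
    set θ : ℝ := min 1 (κ1 / (2 * (C' + κ0 / 2))) with hθ
    have hθ0 : 0 < θ := lt_min one_pos (by positivity)
    have hθ1 : θ ≤ 1 := min_le_left _ _
    have hθ2 : θ * (C' + κ0 / 2) ≤ κ1 / 2 := by
      have : θ ≤ κ1 / (2 * (C' + κ0 / 2)) := min_le_right _ _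
      rw [le_div_iff₀ (by positivity)] at this
      linarith
    classical
    refine ⟨Function.update δ (n + 1) θ, fun j => ?_, min (κ1 / 2) (θ * κ0 / 2), C + C',
      lt_min (by positivity) (by positivity), by positivity, fun s hs g => ?_⟩
    · by_cases hj : j = n + 1
      · subst hj; simp [hθ0, hθ1]
      · rw [Function.update_of_ne hj]; exact hδ j
    · rw [sum_range_succ, Function.update_self, sum_congr rfl fun j hj => by
        rw [Function.update_of_ne (mem_range.1 hj).ne]]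
      have e1 := h1 s hs g
      have e2 := mul_le_mul_of_nonneg_left (h2 s hs g) hθ0.le
      set nn : X → ℝ := fun x => b.B x x with hnn
      have hn : ∀ x, 0 ≤ nn x := b.nonneg
      have p1 := sq_nonneg' (Z := Z) hd (n + 1) g
      have p2 := lq_nonneg (Z := Z) hd (n + 1) g
      have p3 := sq_nonneg' (Z := Z) hn (n + 1 + 1) g
      have a1 := sq_mono (Z := Z) hn (Nat.le_succ (n + 1)) g
      rw [sq_succ d (n + 1)] at e2 ⊢
      have m1 := mul_le_mul_of_nonneg_right (min_le_left (κ1 / 2) (θ * κ0 / 2)) p1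
      have m2 := mul_le_mul_of_nonneg_right (min_le_right (κ1 / 2) (θ * κ0 / 2)) p2
      have m3 := mul_le_mul_of_nonneg_right hθ2 p1
      have m4 := mul_le_mul_of_nonneg_left a1 hC
      have m5 := mul_le_mul_of_nonneg_right hθ1 (mul_nonneg hC' p3)
      simp only [Nat.succ_eq_add_one] at *
      nlinarith

theorem bdd_all (had : ∀ A, 𝒞 A → ∀ z, 𝒞 (ad (Z z) A))
    (hb : ∀ A, 𝒞 A → Bdd Z b I A) (n : ℕ) : ∀ A, 𝒞 A →
    ∃ (m : ℕ) (C : ℝ), 0 ≤ C ∧ ∀ s ∈ I, ∀ f,
      lq Z (fun x => b.B x x) n (A s f) ≤ C * sq Z (fun x => b.B x x) m f := by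
  induction n with
  | zero => exact hb
  | succ n ih =>
    intro A hA
    obtain ⟨m1, C1, hC1, h1⟩ := ih A hA
    choose m2 C2 hC2 h2 using fun z => ih _ (had A hA z)
    have hS : 0 ≤ ∑ z, C2 z := sum_nonneg fun z _ => hC2 z
    refine ⟨m1 + 1 + ∑ z, m2 z, 2 * C1 + 2 * ∑ z, C2 z, by positivity, fun s hs f => ?_⟩
    set nn : X → ℝ := fun x => b.B x x with hnn
    have hn : ∀ x, 0 ≤ nn x := b.nonneg
    set m := m1 + 1 + ∑ z, m2 z with hm
    have e1 : ∀ z, lq Z nn n (Z z (A s f)) ≤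
        2 * (C1 * sq Z nn m1 (Z z f)) + 2 * (C2 z * sq Z nn m f) := by
      intro z
      have e2 : Z z (A s f) = A s (Z z f) + ad (Z z) A s f := by rw [ad_apply]; abel
      rw [e2]
      have e3 : m2 z ≤ m := (single_le_sum (f := m2) (fun _ _ => Nat.zero_le _)
        (mem_univ z)).trans (Nat.le_add_left _ _)
      have e4 := mul_le_mul_of_nonneg_left (sq_mono (Z := Z) hn e3 f) (hC2 z)
      linarith [lq_add_le (Z := Z) b n (A s (Z z f)) (ad (Z z) A s f), h1 s hs (Z z f),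
        h2 z s hs f]
    rw [lq_succ]
    refine (sum_le_sum fun z _ => e1 z).trans ?_
    simp only [sum_add_distrib, ← mul_sum, ← sum_mul]
    have a1 := (sum_sq_le (Z := Z) hn m1 f).trans
      (sq_mono (Z := Z) hn (Nat.le_add_right (m1 + 1) (∑ z, m2 z)) f)
    nlinarith [mul_le_mul_of_nonneg_left a1 hC1]

end Tame

end Pool.Agent.BoltzD.Solver

end
end MrgPart3

-- ======== part 4: formerly Pool.Agent.BoltzD.M7.Abs
section MrgPart4

/-!
Abstract energy inequalities at all orders: time dependent dissipation, bilinear terms,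
interpolation.
-/

set_option autoImplicit false

open Set Filter Topology Finset

noncomputable section

namespace Pool.Agent.BoltzD.M7

variable [Dim]

open Solver

variable {X : Type*} [AddCommGroup X] [Module ℝ X] {ι : Type*} [Fintype ι]
  {Z : ι → X →ₗ[ℝ] X} {b : PD X} {d : X → ℝ} {I : Set ℝ}

lemma lq_mono {d e : X → ℝ} (h : ∀ x, d x ≤ e x) (n : ℕ) (x : X) : lq Z d n x ≤ lq Z e n x := by
  induction n generalizing x with
  | zero => exact h x
  | succ n ih => exact sum_le_sum fun z _ => ih _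

lemma lq_lin (α β : ℝ) (d e : X → ℝ) (n : ℕ) (x : X) :
    lq Z (fun y => α * d y + β * e y) n x = α * lq Z d n x + β * lq Z e n x := by
  induction n generalizing x with
  | zero => rfl
  | succ n ih => simp only [lq_succ, ih, sum_add_distrib, mul_sum]

lemma lq_le_mul {d e : X → ℝ} {κ : ℝ} (h : ∀ x, κ * d x ≤ e x) (n : ℕ) (x : X) :
    κ * lq Z d n x ≤ lq Z e n x := by
  have h1 := lq_lin (Z := Z) κ 0 d d n x
  simp only [zero_mul, add_zero] at h1
  rw [← h1]
  exact lq_mono h n x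

lemma sq_le_mul {d e : X → ℝ} {κ : ℝ} (h : ∀ x, κ * d x ≤ e x) (n : ℕ) (x : X) :
    κ * sq Z d n x ≤ sq Z e n x := by
  rw [Solver.sq, mul_sum]
  exact sum_le_sum fun j _ => lq_le_mul h j x

lemma lq_lq (d : X → ℝ) (j n : ℕ) (x : X) : lq Z (lq Z d j) n x = lq Z d (j + n) x := by
  induction n generalizing x with
  | zero => rfl
  | succ n ih => simp only [← add_assoc, lq_succ, ih]

lemma lq_sq_le (hd : ∀ x, 0 ≤ d x) (q n : ℕ) (x : X) :
    lq Z (sq Z d q) n x ≤ sq Z d (q + n) x := by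
  induction n generalizing x with
  | zero => exact le_rfl
  | succ n ih => exact (sum_le_sum fun z _ => ih _).trans (sum_sq_le hd _ x)

lemma lq_Z_le (hd : ∀ x, 0 ≤ d x) (n : ℕ) (z : ι) (x : X) :
    lq Z d n (Z z x) ≤ lq Z d (n + 1) x :=
  single_le_sum (f := fun z => lq Z d n (Z z x)) (fun _ _ => lq_nonneg hd _ _) (mem_univ z)

lemma lq_add_le' (h : ∀ x y, d (x + y) ≤ 2 * d x + 2 * d y) (n : ℕ) (x y : X) :
    lq Z d n (x + y) ≤ 2 * lq Z d n x + 2 * lq Z d n y := by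
  induction n generalizing x y with
  | zero => exact h x y
  | succ n ih =>
    simp only [lq_succ, map_add, mul_sum, ← sum_add_distrib]
    exact sum_le_sum fun z _ => ih _ _

lemma sq_add_le' (h : ∀ x y, d (x + y) ≤ 2 * d x + 2 * d y) (n : ℕ) (x y : X) :
    sq Z d n (x + y) ≤ 2 * sq Z d n x + 2 * sq Z d n y := by
  simp only [Solver.sq, mul_sum, ← sum_add_distrib]
  exact sum_le_sum fun j _ => lq_add_le' h j x y

lemma abs_NB_le {φ : X →ₗ[ℝ] X →ₗ[ℝ] ℝ} {e : X → ℝ} {η : ℝ}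
    (h : ∀ x y, |φ x y| ≤ η * (e x + e y)) (n : ℕ) (x y : X) :
    |NB Z φ n x y| ≤ η * (lq Z e n x + lq Z e n y) := by
  induction n generalizing x y with
  | zero => exact h x y
  | succ n ih =>
    rw [NB_succ, lq_succ, lq_succ, ← sum_add_distrib, mul_sum]
    exact (abs_sum_le_sum_abs _ _).trans (sum_le_sum fun z _ => ih _ _)

lemma abs_B_le_half (x y : X) : |b.B x y| ≤ 1 / 2 * (b.B x x + b.B y y) := by
  have h := b.abs_B_le x y
  rw [← b.nr_sq, ← b.nr_sq]
  nlinarith [sq_nonneg (b.nr x - b.nr y)]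

/-- Interpolation between three consecutive orders. -/
lemma lq_interp {Zs : ι → X →ₗ[ℝ] X} (adj : ∀ z x y, b.B (Z z x) y = b.B x (Zs z y))
    (hs : ∀ z x, b.B (Zs z x) (Zs z x) ≤ b.B (Z z x) (Z z x)) {ε : ℝ} (hε : 0 < ε) (n : ℕ) (x : X) :
    lq Z (fun x => b.B x x) (n + 1) x ≤ ε * lq Z (fun x => b.B x x) (n + 2) x +
      Fintype.card ι / ε * lq Z (fun x => b.B x x) n x := by
  have h1 : ∀ y, lq Z (fun x => b.B x x) 1 y ≤ ε * lq Z (fun x => b.B x x) 2 y +
      Fintype.card ι / ε * b.B y y := fun y => by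
    rw [lq_succ, lq_succ _ 1, mul_sum, div_eq_mul_inv, mul_assoc, ← nsmul_eq_mul, ← card_univ,
      ← sum_const, ← sum_add_distrib]
    refine sum_le_sum fun z _ => ?_
    have h2 := lq_Z_le (Z := Z) b.nonneg 0 z (Z z y)
    have h3 := hs z (Z z y)
    have h4 := b.B_le y (Zs z (Z z y))
    change b.B (Z z (Z z y)) (Z z (Z z y)) ≤ lq Z _ 1 (Z z y) at h2
    change b.B (Z z y) (Z z y) ≤ _
    rw [adj]
    rw [← b.nr_sq (Zs z _)] at h3
    rw [← b.nr_sq y]
    have h5 : b.nr y * b.nr (Zs z (Z z y)) ≤ ε * b.nr (Zs z (Z z y)) ^ 2 + ε⁻¹ * b.nr y ^ 2 := by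
      have h6 : 0 ≤ ε⁻¹ * (ε * b.nr (Zs z (Z z y)) - b.nr y) ^ 2 := by positivity
      have h7 : ε⁻¹ * (ε * b.nr (Zs z (Z z y)) - b.nr y) ^ 2 = ε * b.nr (Zs z (Z z y)) ^ 2 -
          2 * (b.nr y * b.nr (Zs z (Z z y))) + ε⁻¹ * b.nr y ^ 2 := by
        field_simp
        ring
      nlinarith [mul_nonneg (b.nr_nonneg y) (b.nr_nonneg (Zs z (Z z y)))]
    nlinarith [mul_le_mul_of_nonneg_left (h3.trans h2) hε.le]
  rw [add_comm n 1, add_comm n 2, ← lq_lq, ← lq_lq, ← lq_lin]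
  exact lq_mono h1 n x

section Main

variable {𝒞 : (ℝ → X →ₗ[ℝ] X) → Prop}

theorem main_w (hd : ∀ x, 0 ≤ d x) (had : ∀ A, 𝒞 A → ∀ z, 𝒞 (ad (Z z) A))
    (ht : ∀ A, 𝒞 A → Tame Z b d I A) {A : ℝ → X →ₗ[ℝ] X} (hA : 𝒞 A) {e : ℝ → X → ℝ}
    (h0 : ∀ ε : ℝ, 0 < ε → ∃ C0 : ℝ, 0 ≤ C0 ∧ ∀ s ∈ I, ∀ h,
      e s h - ε * d h - C0 * b.B h h ≤ b.B (A s h) h) (n : ℕ) :
    ∀ ε : ℝ, 0 < ε → ∃ C : ℝ, 0 ≤ C ∧ ∀ s ∈ I, ∀ g,
      lq Z (e s) n g - ε * sq Z d (n + 1) g -
        C * (sq Z (fun x => b.B x x) (n + 1) g + sq Z d n g) ≤ NB Z b.B n (A s g) g := by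
  induction n with
  | zero =>
    intro ε hε
    obtain ⟨C0, hC0, h0⟩ := h0 ε hε
    refine ⟨C0, hC0, fun s hs g => le_trans (le_of_eq ?_) (h0 s hs g)⟩
    simp [Solver.sq, lq]
  | succ n ih =>
    intro ε hε
    set κ : ℝ := (Fintype.card ι : ℝ) with hκ
    have hκ0 : 0 ≤ κ := Nat.cast_nonneg _
    have hε1 : 0 < ε / (κ + 2) := by positivity
    obtain ⟨C1, hC1, h1⟩ := ih _ hε1
    choose C2 hC2 h2 using fun z => tame_all hd had ht n _ (had A hA z) _ hε1
    have hS : 0 ≤ ∑ z, C2 z := sum_nonneg fun z _ => hC2 z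
    refine ⟨C1 + (∑ z, C2 z) * (κ + 1), by positivity, fun s hs g => ?_⟩
    set nn : X → ℝ := fun x => b.B x x with hnn
    have hn : ∀ x, 0 ≤ nn x := b.nonneg
    have e1 : ∀ z, (lq Z (e s) n (Z z g) - ε / (κ + 2) * sq Z d (n + 1) (Z z g) -
        C1 * (sq Z nn (n + 1) (Z z g) + sq Z d n (Z z g))) -
        (ε / (κ + 2) * (sq Z d (n + 2) g + sq Z d (n + 1) (Z z g)) +
          (∑ z, C2 z) * (sq Z nn (n + 2) g + sq Z d (n + 1) g + sq Z nn (n + 1) (Z z g))) ≤
        NB Z b.B n (Z z (A s g)) (Z z g) := by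
      intro z
      have e2 : Z z (A s g) = A s (Z z g) + ad (Z z) A s g := by rw [ad_apply]; abel
      rw [e2, map_add, LinearMap.add_apply]
      have e3 : C2 z ≤ ∑ z, C2 z := single_le_sum (fun z _ => hC2 z) (mem_univ z)
      have e4 := (abs_le.1 (h2 z s hs g (Z z g))).1
      have e5 := h1 s hs (Z z g)
      have := sq_nonneg' (Z := Z) hn (n + 2) g
      have := sq_nonneg' (Z := Z) hd (n + 1) g
      have := sq_nonneg' (Z := Z) hn (n + 1) (Z z g)
      have e6 : C2 z * (sq Z nn (n + 2) g + sq Z d (n + 1) g + sq Z nn (n + 1) (Z z g)) ≤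
        (∑ z, C2 z) * (sq Z nn (n + 2) g + sq Z d (n + 1) g + sq Z nn (n + 1) (Z z g)) := by
        gcongr
      linarith
    rw [NB_succ]
    refine le_trans ?_ (sum_le_sum fun z _ => e1 z)
    simp only [sum_add_distrib, sum_sub_distrib, ← mul_sum, sum_const, card_univ, nsmul_eq_mul,
      ← hκ, ← lq_succ]
    have a1 := sum_sq_le (Z := Z) hd (n + 1) g
    have a2 := sum_sq_le (Z := Z) hn (n + 1) g
    have a3 := sum_sq_le (Z := Z) hd n g
    have p1 := sq_nonneg' (Z := Z) hd (n + 1 + 1) g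
    have p3 := sq_nonneg' (Z := Z) hn (n + 1 + 1) g
    have p4 := sq_nonneg' (Z := Z) hd (n + 1) g
    have hεe : ε = ε / (κ + 2) * (κ + 2) := by field_simp
    set e' := ε / (κ + 2)
    simp only [show n + 2 = n + 1 + 1 from rfl] at *
    rw [hεe]
    nlinarith [mul_le_mul_of_nonneg_left a1 hε1.le, mul_le_mul_of_nonneg_left a2 hC1,
      mul_le_mul_of_nonneg_left a3 hC1, mul_le_mul_of_nonneg_left a2 hS, mul_nonneg hS p4]

end Main

section Bilin

/-- Defect of the Leibniz rule. -/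
def ad2 (Z : X →ₗ[ℝ] X) (B : ℝ → X →ₗ[ℝ] X →ₗ[ℝ] X) : ℝ → X →ₗ[ℝ] X →ₗ[ℝ] X :=
  fun s => (B s).compr₂ Z - (B s).comp Z - (B s).compl₂ Z

lemma ad2_apply (Z : X →ₗ[ℝ] X) (B : ℝ → X →ₗ[ℝ] X →ₗ[ℝ] X) (s : ℝ) (f g : X) :
    ad2 Z B s f g = Z (B s f g) - B s (Z f) g - B s f (Z g) := rfl

variable (Z b d I) in
/-- The trilinear bound. -/
def Tri2 (q : ℕ) (B : ℝ → X →ₗ[ℝ] X →ₗ[ℝ] X) : Prop :=
  ∃ C : ℝ, 0 ≤ C ∧ ∀ s ∈ I, ∀ f g h,
    |b.B (B s f g) h| ≤ C * (√(sq Z (fun x => b.B x x) q f) * √(d g)) * √(d h) ∧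
    |b.B (B s f g) h| ≤ C * (√(d f) * √(sq Z (fun x => b.B x x) q g)) * √(d h)

variable (Z b d) in
/-- One of the two product bounds holds at the orders `i`, `j`. -/
def Sm2 (q : ℕ) (K : ℝ) (f g : X) (i j : ℕ) : Prop :=
  √(sq Z (fun x => b.B x x) (q + i) f) * √(sq Z d (j + 1) g) ≤ K ∨
    √(sq Z d (i + 1) f) * √(sq Z (fun x => b.B x x) (q + j) g) ≤ K

variable {q : ℕ} {K : ℝ} {f g : X} {i j : ℕ} {𝒟 : (ℝ → X →ₗ[ℝ] X →ₗ[ℝ] X) → Prop}

lemma Sm2.left (hd : ∀ x, 0 ≤ d x) (h : Sm2 Z b d q K f g (i + 1) j) (z : ι) :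
    Sm2 Z b d q K (Z z f) g i j :=
  h.imp (le_trans (mul_le_mul_of_nonneg_right
      (Real.sqrt_le_sqrt (sq_Z_le b.nonneg _ z f)) (Real.sqrt_nonneg _)))
    (le_trans (mul_le_mul_of_nonneg_right (Real.sqrt_le_sqrt (sq_Z_le hd _ z f))
      (Real.sqrt_nonneg _)))

lemma Sm2.right (hd : ∀ x, 0 ≤ d x) (h : Sm2 Z b d q K f g i (j + 1)) (z : ι) :
    Sm2 Z b d q K f (Z z g) i j :=
  h.imp (le_trans (mul_le_mul_of_nonneg_left
      (Real.sqrt_le_sqrt (sq_Z_le hd _ z g)) (Real.sqrt_nonneg _)))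
    (le_trans (mul_le_mul_of_nonneg_left (Real.sqrt_le_sqrt (sq_Z_le b.nonneg _ z g))
      (Real.sqrt_nonneg _)))

lemma sum_step (hd : ∀ x, 0 ≤ d x) {n : ℕ} {h : X} {T C : ι → ℝ} (hK : 0 ≤ K) (hC : ∀ z, 0 ≤ C z)
    (hT : ∀ z, |T z| ≤ C z * K * √(lq Z d n (Z z h))) :
    |∑ z, T z| ≤ (∑ z, C z) * K * √(lq Z d (n + 1) h) := by
  rw [sum_mul, sum_mul]
  refine (abs_sum_le_sum_abs _ _).trans (sum_le_sum fun z _ => (hT z).trans ?_)
  exact mul_le_mul_of_nonneg_left (Real.sqrt_le_sqrt (lq_Z_le hd n z h)) (mul_nonneg (hC z) hK)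

theorem low_all (hd : ∀ x, 0 ≤ d x) (had : ∀ B, 𝒟 B → ∀ z, 𝒟 (ad2 (Z z) B))
    (ht : ∀ B, 𝒟 B → Tri2 Z b d I q B) (n : ℕ) : ∀ B, 𝒟 B → ∃ C : ℝ, 0 ≤ C ∧ ∀ s ∈ I,
      ∀ f g h K, 0 ≤ K → (∀ i j, i + j ≤ n → Sm2 Z b d q K f g i j) →
        |NB Z b.B n (B s f g) h| ≤ C * K * √(lq Z d n h) := by
  induction n with
  | zero =>
    intro B hB
    obtain ⟨C, hC, h1⟩ := ht B hB
    refine ⟨C, hC, fun s hs f g h K _ hK => ?_⟩
    rcases hK 0 0 le_rfl with h2 | h2 <;> simp only [add_zero, zero_add, sq_one] at h2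
    · exact (h1 s hs f g h).1.trans (mul_le_mul_of_nonneg_right
        (mul_le_mul_of_nonneg_left h2 hC) (Real.sqrt_nonneg _))
    · exact (h1 s hs f g h).2.trans (mul_le_mul_of_nonneg_right
        (mul_le_mul_of_nonneg_left h2 hC) (Real.sqrt_nonneg _))
  | succ n ih =>
    intro B hB
    obtain ⟨C1, hC1, h1⟩ := ih B hB
    choose C2 hC2 h2 using fun z => ih _ (had B hB z)
    have hC : ∀ z, 0 ≤ C1 + C1 + C2 z := fun z => by linarith [hC2 z]
    refine ⟨∑ z, (C1 + C1 + C2 z), sum_nonneg fun z _ => hC z, fun s hs f g h K hK0 hK => ?_⟩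
    rw [NB_succ]
    refine sum_step hd hK0 hC fun z => ?_
    have e : Z z (B s f g) = B s (Z z f) g + B s f (Z z g) + ad2 (Z z) B s f g := by
      rw [ad2_apply]; abel
    rw [e, map_add, map_add, LinearMap.add_apply, LinearMap.add_apply]
    refine (abs_add_three _ _ _).trans ?_
    linarith [h1 s hs _ g (Z z h) K hK0 fun i j hij => (hK (i + 1) j (by omega)).left hd z,
      h1 s hs f _ (Z z h) K hK0 fun i j hij => (hK i (j + 1) (by omega)).right hd z,
      h2 z s hs f g (Z z h) K hK0 fun i j hij => hK i j (by omega)]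

theorem one_sided (hd : ∀ x, 0 ≤ d x) (had : ∀ B, 𝒟 B → ∀ z, 𝒟 (ad2 (Z z) B))
    (ht : ∀ B, 𝒟 B → Tri2 Z b d I q B) {B : ℝ → X →ₗ[ℝ] X →ₗ[ℝ] X} (hB : 𝒟 B) (n : ℕ) :
    ∃ C : ℝ, 0 ≤ C ∧ ∀ s ∈ I, ∀ f g h K, 0 ≤ K →
      (∀ i j, i + j ≤ n → i < n → Sm2 Z b d q K f g i j) →
        |NB Z b.B n (B s f g) h - NB Z (b.B.comp ((B s).flip g)) n f h| ≤
          C * K * √(lq Z d n h) := by
  induction n with
  | zero => exact ⟨0, le_rfl, fun s hs f g h K _ _ => by simp [NB]⟩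
  | succ n ih =>
    obtain ⟨C0, hC0, h0⟩ := ih
    obtain ⟨C1, hC1, h1⟩ := low_all hd had ht n B hB
    choose C2 hC2 h2 using fun z => low_all hd had ht n _ (had B hB z)
    have hC : ∀ z, 0 ≤ C0 + C1 + C2 z := fun z => by linarith [hC2 z]
    refine ⟨∑ z, (C0 + C1 + C2 z), sum_nonneg fun z _ => hC z, fun s hs f g h K hK0 hK => ?_⟩
    rw [NB_succ, NB_succ, ← sum_sub_distrib]
    refine sum_step hd hK0 hC fun z => ?_
    have e : Z z (B s f g) = B s (Z z f) g + B s f (Z z g) + ad2 (Z z) B s f g := by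
      rw [ad2_apply]; abel
    rw [e, map_add, map_add, LinearMap.add_apply, LinearMap.add_apply, add_sub_right_comm,
      add_sub_right_comm]
    refine (abs_add_three _ _ _).trans ?_
    linarith [h0 s hs _ g (Z z h) K hK0 fun i j hij hi =>
        (hK (i + 1) j (by omega) (by omega)).left hd z,
      h1 s hs f _ (Z z h) K hK0 fun i j hij => (hK i (j + 1) (by omega) (by omega)).right hd z,
      h2 z s hs f g (Z z h) K hK0 fun i j hij => hK i j (by omega) (by omega)]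

/-- The quadratic term at order `n`: small top order part plus lower order terms. -/
theorem quad_le (hd : ∀ x, 0 ≤ d x) (had : ∀ B, 𝒟 B → ∀ z, 𝒟 (ad2 (Z z) B))
    (ht : ∀ B, 𝒟 B → Tri2 Z b d I q B) {B : ℝ → X →ₗ[ℝ] X →ₗ[ℝ] X} (hB : 𝒟 B)
    (hs : ∀ s f g, B s f g = B s g f) {n : ℕ} (hn : 2 * q + 1 ≤ n) :
    ∃ C : ℝ, 0 ≤ C ∧ ∀ s ∈ I, ∀ (g h : X) (e : X → ℝ) (η : ℝ),
      (∀ x y, |b.B (B s x g) y| ≤ η * (e x + e y)) →
      |NB Z b.B n (B s g g) h| ≤ 2 * η * (lq Z e n g + lq Z e n h) +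
        C * (√(sq Z (fun x => b.B x x) n g) * √(sq Z d n g)) * √(lq Z d n h) := by
  obtain ⟨n, rfl⟩ : ∃ m, n = m + 1 := ⟨n - 1, by omega⟩
  obtain ⟨C0, hC0, h0⟩ := one_sided hd had ht hB n
  choose C2 hC2 h2 using fun z => low_all hd had ht n _ (had B hB z)
  have hC : ∀ z, 0 ≤ C0 + C0 + C2 z := fun z => by linarith [hC2 z]
  refine ⟨∑ z, (C0 + C0 + C2 z), sum_nonneg fun z _ => hC z, fun s hs' g h e η he => ?_⟩
  set K := √(sq Z (fun x => b.B x x) (n + 1) g) * √(sq Z d (n + 1) g) with hKd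
  have hK0 : 0 ≤ K := by positivity
  have hK : ∀ i j, i + j ≤ n + 1 → i ≤ n → j ≤ n → Sm2 Z b d q K g g i j := by
    intro i j hij hi hj
    by_cases h1 : q + i ≤ n + 1
    · exact Or.inl (mul_le_mul (Real.sqrt_le_sqrt (sq_mono b.nonneg h1 g))
        (Real.sqrt_le_sqrt (sq_mono hd (by omega) g)) (Real.sqrt_nonneg _) (Real.sqrt_nonneg _))
    · refine Or.inr ?_
      rw [mul_comm]
      exact mul_le_mul (Real.sqrt_le_sqrt (sq_mono b.nonneg (by omega) g))
        (Real.sqrt_le_sqrt (sq_mono hd (by omega) g)) (Real.sqrt_nonneg _) (Real.sqrt_nonneg _)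
  have h3 : |NB Z b.B (n + 1) (B s g g) h - 2 * NB Z (b.B.comp ((B s).flip g)) (n + 1) g h| ≤
      (∑ z, (C0 + C0 + C2 z)) * K * √(lq Z d (n + 1) h) := by
    rw [NB_succ, NB_succ, mul_sum, ← sum_sub_distrib]
    refine sum_step hd hK0 hC fun z => ?_
    have e : Z z (B s g g) = B s (Z z g) g + B s (Z z g) g + ad2 (Z z) B s g g := by
      rw [ad2_apply, hs s g (Z z g)]; abel
    rw [e, map_add, map_add, LinearMap.add_apply, LinearMap.add_apply]
    have a1 := abs_le.1 (h0 s hs' _ g (Z z h) K hK0 fun i j hij hi =>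
      (hK (i + 1) j (by omega) (by omega) (by omega)).left hd z)
    have a2 := abs_le.1 (h2 z s hs' g g (Z z h) K hK0 fun i j hij =>
      hK i j (by omega) (by omega) (by omega))
    rw [abs_le]
    constructor <;> linarith [a1.1, a1.2, a2.1, a2.2]
  have h4 := abs_le.1 (abs_NB_le (Z := Z) (φ := b.B.comp ((B s).flip g)) he (n + 1) g h)
  have h5 := abs_le.1 h3
  rw [abs_le]
  constructor <;> linarith [h4.1, h4.2, h5.1, h5.2]

end Bilin

end Pool.Agent.BoltzD.M7

end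
end MrgPart4

-- ======== part 5: formerly Pool.Agent.BoltzD.M7.Gron
section MrgPart5

/-! Bounds of all orders, uniform along an iteration, on a compact time interval. -/

set_option autoImplicit false

open Set Filter Topology Finset

noncomputable section

namespace Pool.Agent.BoltzD.M7

variable [Dim]

open Solver

theorem seq_gronwall {E E' D ψ : ℕ → ℝ → ℝ} {a a' C K : ℝ}
    (hE : ∀ j s, HasDerivAt (E j) (E' j s) s) (hD : ∀ j, Continuous (D j))
    (hψ : ∀ j, Continuous (ψ j)) (hE0 : ∀ j s, 0 ≤ E j s) (hD0 : ∀ j, ∀ s ∈ Icc a a', 0 ≤ D j s)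
    (hψ0 : ∀ j, ∀ s ∈ Icc a a', 0 ≤ ψ j s) (hC : 0 ≤ C)
    (h : ∀ j, ∀ s ∈ Icc a a', E' (j + 1) s + D (j + 1) s ≤ D j s / 4 + C * E (j + 1) s + ψ j s)
    (hK : ∀ j, ∀ s ∈ Icc a a', ∫ t in a..s, ψ j t ≤ K) (h0 : ∀ j, E j a ≤ K) :
    ∃ K', ∀ j, ∀ s ∈ Icc a a', E j s ≤ K' ∧ ∫ t in a..s, D j t ≤ K' := by
  set w : ℝ → ℝ := fun t => Real.exp (-C * (t - a)) with hw
  have hwc : Continuous w := by fun_prop
  have hw0 : ∀ t, 0 < w t := fun t => Real.exp_pos _
  have hwd : ∀ t, HasDerivAt w (w t * -C) t := fun t => by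
    exact ((((hasDerivAt_id t).sub_const a).const_mul (-C)).exp).congr_deriv (by simp [hw])
  have hw1 : ∀ t ∈ Icc a a', w t ≤ 1 := fun t ht =>
    Real.exp_le_one_iff.2 (by nlinarith [ht.1])
  have hw2 : ∀ t ∈ Icc a a', w a' ≤ w t := fun t ht =>
    Real.exp_le_exp.2 (by nlinarith [ht.2])
  have hEc : ∀ j, Continuous (E j) := fun j =>
    continuous_iff_continuousAt.2 fun s => (hE j s).continuousAt
  have hI : ∀ {φ : ℝ → ℝ}, Continuous φ → ∀ s, HasDerivAt (fun s => ∫ t in a..s, φ t) (φ s) s :=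
    fun hφ s => (hφ.integral_hasStrictDerivAt a s).hasDerivAt
  have hpos : ∀ j, ∀ s ∈ Icc a a', 0 ≤ ∫ t in a..s, w t * D j t := fun j s hs =>
    intervalIntegral.integral_nonneg hs.1 fun t ht =>
      mul_nonneg (hw0 t).le (hD0 j t ⟨ht.1, ht.2.trans hs.2⟩)
  have step : ∀ j, ∀ s ∈ Icc a a', w s * E (j + 1) s + ∫ t in a..s, w t * D (j + 1) t ≤
      2 * K + (w s * E j s + ∫ t in a..s, w t * D j t) / 4 := by
    intro j s hs
    have hd : ∀ s, HasDerivAt (fun s => w s * E (j + 1) s + (∫ t in a..s, w t * D (j + 1) t) -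
        (∫ t in a..s, w t * D j t) / 4 - ∫ t in a..s, ψ j t)
        (w s * -C * E (j + 1) s + w s * E' (j + 1) s + w s * D (j + 1) s - w s * D j s / 4 -
          ψ j s) s := fun s =>
      ((((hwd s).fun_mul (hE (j + 1) s)).fun_add (hI (hwc.mul (hD _)) s)).fun_sub
        ((hI (hwc.mul (hD _)) s).div_const 4)).fun_sub (hI (hψ j) s)
    have hm := antitoneOn_of_deriv_nonpos (convex_Icc a a')
      (fun s _ => (hd s).continuousAt.continuousWithinAt)
      (fun s _ => (hd s).differentiableAt.differentiableWithinAt) fun s hs => by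
        have hs' := interior_subset hs
        rw [(hd s).deriv]
        nlinarith [mul_le_mul_of_nonneg_left (h j s hs') (hw0 s).le,
          mul_le_mul_of_nonneg_right (hw1 s hs') (hψ0 j s hs')]
    have h1 := hm ⟨le_rfl, hs.1.trans hs.2⟩ hs hs.1
    simp only [intervalIntegral.integral_same, hw, sub_self, mul_zero, Real.exp_zero] at h1
    have h2 := mul_nonneg (hw0 s).le (hE0 j s)
    linarith [hK j s hs, h0 (j + 1)]
  have hc0 : Continuous fun s => w s * E 0 s + ∫ t in a..s, w t * D 0 t :=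
    (hwc.mul (hEc 0)).add (continuous_iff_continuousAt.2 fun s =>
      (hI (hwc.mul (hD 0)) s).continuousAt)
  obtain ⟨M, hM⟩ := (isCompact_Icc (a := a) (b := a')).bddAbove_image hc0.continuousOn
  have hK0 : 0 ≤ K := (hE0 0 a).trans (h0 0)
  have hY : ∀ j, ∀ s ∈ Icc a a', w s * E j s + ∫ t in a..s, w t * D j t ≤ max M (4 * K) := by
    intro j
    induction j with
    | zero => exact fun s hs => (hM ⟨s, hs, rfl⟩).trans (le_max_left _ _)
    | succ j ih =>
      intro s hs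
      linarith [step j s hs, ih s hs, le_max_right M (4 * K)]
  refine ⟨max M (4 * K) / w a', fun j s hs => ⟨?_, ?_⟩⟩
  · rw [le_div_iff₀ (hw0 _)]
    nlinarith [hY j s hs, hpos j s hs, mul_le_mul_of_nonneg_right (hw2 s hs) (hE0 j s)]
  · rw [le_div_iff₀ (hw0 _), mul_comm, ← intervalIntegral.integral_const_mul]
    refine le_trans (intervalIntegral.integral_mono_on hs.1
      ((continuous_const.mul (hD j)).intervalIntegrable _ _)
      ((hwc.mul (hD j)).intervalIntegrable _ _) fun t ht => ?_) ?_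
    · have ht' : t ∈ Icc a a' := ⟨ht.1, ht.2.trans hs.2⟩
      exact mul_le_mul_of_nonneg_right (hw2 t ht') (hD0 j t ht')
    · exact (le_add_of_nonneg_left (mul_nonneg (hw0 s).le (hE0 j s))).trans (hY j s hs)

variable {X : Type*} [AddCommGroup X] [Module ℝ X] {ι : Type*} [Fintype ι]
  {Z : ι → X →ₗ[ℝ] X} {b : PD X} {d : X → ℝ}

/-- The hypotheses of the regularity theorem. -/
structure Reg (Z : ι → X →ₗ[ℝ] X) (b : PD X) (d : X → ℝ) (e : ℝ → X → ℝ) (a a' κ M : ℝ)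
    (n0 q : ℕ) (A : ℝ → X →ₗ[ℝ] X) (h h' r f N : ℕ → ℝ → X) : Prop where
  hd : ∀ x, 0 ≤ d x
  hκ : 0 < κ
  hM : 0 ≤ M
  low : ∀ s ∈ Icc a a', ∀ x, κ * d x ≤ e s x
  up : ∀ s ∈ Icc a a', ∀ x, e s x ≤ M * sq Z (fun x => b.B x x) q x
  add : ∀ s ∈ Icc a a', ∀ x y, e s (x + y) ≤ 2 * e s x + 2 * e s y
  der : ∀ n j s, HasDerivAt (fun t => lq Z (fun x => b.B x x) n (h j t))
    (2 * NB Z b.B n (h' j s) (h j s)) s
  cont : ∀ n j, Continuous fun s => lq Z (e s) n (h j s)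
  eqn : ∀ j, ∀ s ∈ Icc a a', h' (j + 1) s + A s (h (j + 1) s) = N j s + f j s
  hA : ∀ n, ∀ ε : ℝ, 0 < ε → ∃ C : ℝ, 0 ≤ C ∧ ∀ s ∈ Icc a a', ∀ g,
    lq Z (e s) n g - ε * sq Z d (n + 1) g -
      C * (sq Z (fun x => b.B x x) (n + 1) g + sq Z d n g) ≤ NB Z b.B n (A s g) g
  hN : ∀ n, n0 ≤ n → ∃ C : ℝ, 0 ≤ C ∧ ∀ j, ∀ s ∈ Icc a a', ∀ y,
    |NB Z b.B n (N j s) y| ≤ 1 / 16 * (lq Z (e s) n (h j s + r j s) + lq Z (e s) n y) +
      C * (√(sq Z (fun x => b.B x x) n (h j s + r j s)) * √(sq Z d n (h j s + r j s))) *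
        √(lq Z d n y)
  hr : ∀ n, ∃ C, ∀ j, ∀ s ∈ Icc a a', sq Z (fun x => b.B x x) n (r j s) ≤ C
  hf : ∀ n, ∃ C, ∀ j, ∀ s ∈ Icc a a', sq Z (fun x => b.B x x) n (f j s) ≤ C
  init : ∀ n, ∃ C, ∀ j, sq Z (fun x => b.B x x) n (h j a) ≤ C
  base : n0 = 0 ∨ ∃ C, ∀ j, ∀ s ∈ Icc a a', sq Z (fun x => b.B x x) (q + n0) (h j s) ≤ C

variable {e : ℝ → X → ℝ} {a a' κ M : ℝ} {n0 q : ℕ} {A : ℝ → X →ₗ[ℝ] X} {h h' r f N : ℕ → ℝ → X}

lemma Reg.e_nonneg (H : Reg Z b d e a a' κ M n0 q A h h' r f N) {s : ℝ} (hs : s ∈ Icc a a')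
    (x : X) : 0 ≤ e s x := (mul_nonneg H.hκ.le (H.hd x)).trans (H.low s hs x)

lemma Reg.lq_le (H : Reg Z b d e a a' κ M n0 q A h h' r f N) {s : ℝ} (hs : s ∈ Icc a a')
    (n : ℕ) (x : X) : lq Z (e s) n x ≤ M * sq Z (fun x => b.B x x) (q + n) x := by
  have h1 := lq_lin (Z := Z) M 0 (sq Z (fun x => b.B x x) q) d n x
  simp only [zero_mul, add_zero] at h1
  exact (lq_mono (H.up s hs) n x).trans (h1.le.trans
    (mul_le_mul_of_nonneg_left (lq_sq_le b.nonneg q n x) H.hM))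

lemma Reg.sq_le (H : Reg Z b d e a a' κ M n0 q A h h' r f N) {s : ℝ} (hs : s ∈ Icc a a')
    (n : ℕ) (x : X) : sq Z (e s) n x ≤ n * (M * sq Z (fun x => b.B x x) (q + n) x) := by
  rw [← nsmul_eq_mul]
  conv_rhs => rw [← card_range n]
  refine sum_le_card_nsmul _ _ _ fun j hj => (H.lq_le hs j x).trans ?_
  rw [card_range]
  exact mul_le_mul_of_nonneg_left (sq_mono b.nonneg (by have := mem_range.1 hj; omega) x) H.hM

lemma Reg.cont_sq (H : Reg Z b d e a a' κ M n0 q A h h' r f N) (n j : ℕ) :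
    Continuous fun s => sq Z (e s) n (h j s) := continuous_finsetSum _ fun m _ => H.cont m j

lemma Reg.step (H : Reg Z b d e a a' κ M n0 q A h h' r f N) {n : ℕ} (hn : n0 ≤ n)
    (P : ∃ C, ∀ j, ∀ s ∈ Icc a a', sq Z (fun x => b.B x x) n (h j s) ≤ C ∧
      ∫ t in a..s, sq Z (e t) n (h j t) ≤ C) :
    ∃ C, ∀ j, ∀ s ∈ Icc a a', sq Z (fun x => b.B x x) (n + 1) (h j s) ≤ C ∧
      ∫ t in a..s, sq Z (e t) (n + 1) (h j t) ≤ C := by
  obtain ⟨C, hC⟩ := P
  have hκ := H.hκ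
  have hM := H.hM
  obtain ⟨C1, hC1, h1⟩ := H.hA n (κ / 8) (by positivity)
  obtain ⟨C2, hC2, h2⟩ := H.hN n hn
  obtain ⟨C3, h3⟩ := H.hr (q + n)
  obtain ⟨C4, h4⟩ := H.hf (n + 1)
  obtain ⟨C5, h5⟩ := H.init (n + 1)
  set nn : X → ℝ := fun x => b.B x x with hnn
  have hn0 : ∀ x, 0 ≤ nn x := b.nonneg
  set c2 : ℝ := 4 * C2 ^ 2 / κ ^ 2 * (2 * |C| + 2 * |C3|) with hc2
  have hc20 : 0 ≤ c2 := by positivity
  set c0 : ℝ := M * |C3| / 4 + 2 * C1 * |C| + |C4| + 2 * c2 * (n * (M * |C3|)) with hc0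
  have hc00 : 0 ≤ c0 := by positivity
  set c1 : ℝ := 1 / 4 + 2 * C1 / κ with hc1
  have hc10 : 0 ≤ c1 := by positivity
  obtain ⟨K', hK'⟩ := seq_gronwall (E := fun j s => lq Z nn n (h j s))
    (D := fun j s => lq Z (e s) n (h j s))
    (ψ := fun j s => c0 + c1 * sq Z (e s) n (h (j + 1) s) + 2 * c2 * sq Z (e s) n (h j s))
    (a := a) (a' := a') (C := 2 * C1 + 1) (K := max C5 (c0 * (a' - a) + c1 * C + 2 * c2 * C))
    (H.der n) (H.cont n)
    (fun j => (continuous_const.add (continuous_const.mul (H.cont_sq n _))).add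
      (continuous_const.mul (H.cont_sq n _)))
    (fun j s => lq_nonneg hn0 _ _) (fun j s hs => lq_nonneg (H.e_nonneg hs) _ _)
    (fun j s hs => by
      have := sq_nonneg' (Z := Z) (H.e_nonneg hs) n (h (j + 1) s)
      have := sq_nonneg' (Z := Z) (H.e_nonneg hs) n (h j s)
      positivity) (by positivity)
    (fun j s hs => by
      have e1 : h' (j + 1) s = N j s + f j s - A s (h (j + 1) s) := eq_sub_of_add_eq (H.eqn j s hs)
      simp only [e1, map_add, map_sub, LinearMap.add_apply, LinearMap.sub_apply]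
      set y := h (j + 1) s
      set g := h j s + r j s with hg
      have a1 := h1 s hs y
      have a2 := (abs_le.1 (h2 j s hs y)).2
      have a3 := (abs_le.1 (abs_NB_le (Z := Z) (φ := b.B) (e := nn) abs_B_le_half n (f j s) y)).2
      rw [sq_succ, sq_succ] at a1
      have b1 := lq_le_mul (Z := Z) (H.low s hs) n y
      have b2 := sq_le_mul (Z := Z) (H.low s hs) n y
      have b3 := (hC (j + 1) s hs).1.trans (le_abs_self C)
      have b4 := (lq_le_sq hn0 n (f j s)).trans ((h4 j s hs).trans (le_abs_self C4))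
      have r1 := (h3 j s hs).trans (le_abs_self C3)
      have b5 : lq Z (e s) n g ≤ 2 * lq Z (e s) n (h j s) + 2 * (M * |C3|) := by
        linarith [lq_add_le' (Z := Z) (H.add s hs) n (h j s) (r j s), H.lq_le hs n (r j s),
          mul_le_mul_of_nonneg_left r1 hM]
      have b6 : sq Z nn n g ≤ 2 * |C| + 2 * |C3| := by
        linarith [sq_add_le' (Z := Z) (d := nn) (lq_add_le (Z := Z) b 0) n (h j s) (r j s),
          (hC j s hs).1.trans (le_abs_self C),
          sq_mono (Z := Z) hn0 (Nat.le_add_left n q) (r j s)]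
      have b7 : κ * sq Z d n g ≤ 2 * sq Z (e s) n (h j s) + 2 * (n * (M * |C3|)) := by
        have t1 : sq Z (e s) n (r j s) ≤ n * (M * |C3|) := (H.sq_le hs n _).trans (by gcongr)
        linarith [sq_le_mul (Z := Z) (H.low s hs) n g,
          sq_add_le' (Z := Z) (H.add s hs) n (h j s) (r j s)]
      have p1 := sq_nonneg' (Z := Z) hn0 n g
      have p2 := sq_nonneg' (Z := Z) H.hd n g
      have p3 := lq_nonneg (Z := Z) H.hd n y
      have p4 := sq_nonneg' (Z := Z) H.hd n y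
      have b8 : C2 * (√(sq Z nn n g) * √(sq Z d n g)) * √(lq Z d n y) ≤
          κ / 8 * lq Z d n y + c2 / 2 * (κ * sq Z d n g) := by
        have t1 : 0 ≤ κ / 8 * (√(lq Z d n y) - 4 * C2 / κ * (√(sq Z nn n g) * √(sq Z d n g))) ^ 2 := by
          positivity
        have t2 : κ / 8 * (√(lq Z d n y) - 4 * C2 / κ * (√(sq Z nn n g) * √(sq Z d n g))) ^ 2 =
            κ / 8 * √(lq Z d n y) ^ 2 - C2 * (√(sq Z nn n g) * √(sq Z d n g)) * √(lq Z d n y) +
              2 * C2 ^ 2 / κ ^ 2 * √(sq Z nn n g) ^ 2 * (κ * √(sq Z d n g) ^ 2) := by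
          field_simp
          ring
        rw [t2, Real.sq_sqrt p1, Real.sq_sqrt p2, Real.sq_sqrt p3] at t1
        have t3 : 2 * C2 ^ 2 / κ ^ 2 * sq Z nn n g * (κ * sq Z d n g) ≤
            c2 / 2 * (κ * sq Z d n g) := by
          refine mul_le_mul_of_nonneg_right ?_ (by positivity)
          calc _ ≤ 2 * C2 ^ 2 / κ ^ 2 * (2 * |C| + 2 * |C3|) := by gcongr
            _ = _ := by rw [hc2]; ring
        linarith
      have b9 : C1 * sq Z d n y ≤ C1 / κ * sq Z (e s) n y := by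
        rw [div_mul_eq_mul_div, le_div_iff₀ hκ]
        nlinarith [mul_le_mul_of_nonneg_left b2 hC1]
      have b10 := mul_le_mul_of_nonneg_left b7 hc20
      have b11 := mul_le_mul_of_nonneg_left b3 hC1
      have p5 := lq_nonneg (Z := Z) (H.e_nonneg hs) n y
      have e2 : c1 * sq Z (e s) n y = sq Z (e s) n y / 4 + 2 * (C1 / κ * sq Z (e s) n y) := by
        rw [hc1]; ring
      rw [e2, hc0]
      linarith)
    (fun j s hs => by
      have i1 := (H.cont_sq n (j + 1)).intervalIntegrable (μ := MeasureTheory.volume) a s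
      have i2 := (H.cont_sq n j).intervalIntegrable (μ := MeasureTheory.volume) a s
      rw [intervalIntegral.integral_add (intervalIntegrable_const.add (i1.const_mul _))
        (i2.const_mul _), intervalIntegral.integral_add intervalIntegrable_const (i1.const_mul _),
        intervalIntegral.integral_const_mul, intervalIntegral.integral_const_mul,
        intervalIntegral.integral_const, smul_eq_mul]
      refine le_trans ?_ (le_max_right _ _)
      nlinarith [mul_le_mul_of_nonneg_left (hC j s hs).2 hc20,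
        mul_le_mul_of_nonneg_left (hC (j + 1) s hs).2 hc10, mul_nonneg hc00 (sub_nonneg.2 hs.2)])
    (fun j => ((lq_le_sq hn0 n _).trans (h5 j)).trans (le_max_left _ _))
  refine ⟨C + K', fun j s hs => ⟨?_, ?_⟩⟩
  · rw [sq_succ]
    exact add_le_add (hC j s hs).1 (hK' j s hs).1
  · simp only [sq_succ]
    rw [intervalIntegral.integral_add ((H.cont_sq n j).intervalIntegrable _ _)
      ((H.cont n j).intervalIntegrable _ _)]
    exact add_le_add (hC j s hs).2 (hK' j s hs).2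

theorem Reg.bound (H : Reg Z b d e a a' κ M n0 q A h h' r f N) (n : ℕ) :
    ∃ C, ∀ j, ∀ s ∈ Icc a a', sq Z (fun x => b.B x x) n (h j s) ≤ C := by
  have key : ∀ n, n0 ≤ n → ∃ C, ∀ j, ∀ s ∈ Icc a a', sq Z (fun x => b.B x x) n (h j s) ≤ C ∧
      ∫ t in a..s, sq Z (e t) n (h j t) ≤ C := by
    intro n hn
    induction n, hn using Nat.le_induction with
    | base =>
      obtain rfl | ⟨C, hC⟩ := H.base
      · exact ⟨0, fun j s hs => by simp [Solver.sq]⟩
      have hM := H.hM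
      refine ⟨max C ((a' - a) * (n0 * (M * |C|))), fun j s hs => ⟨?_, ?_⟩⟩
      · exact ((sq_mono b.nonneg (Nat.le_add_left n0 q) _).trans (hC j s hs)).trans
          (le_max_left _ _)
      · refine le_trans (intervalIntegral.integral_mono_on hs.1
          ((H.cont_sq n0 j).intervalIntegrable _ _) (g := fun _ => n0 * (M * |C|))
          intervalIntegrable_const fun t ht => ?_) ?_
        · have ht' : t ∈ Icc a a' := ⟨ht.1, ht.2.trans hs.2⟩
          have := (hC j t ht').trans (le_abs_self C)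
          exact (H.sq_le ht' n0 _).trans (by gcongr)
        · rw [intervalIntegral.integral_const, smul_eq_mul]
          refine le_trans ?_ (le_max_right _ _)
          have := hs.2
          gcongr
    | succ n hn ih => exact H.step hn ih
  obtain ⟨C, hC⟩ := key (max n0 n) (le_max_left _ _)
  exact ⟨C, fun j s hs => (sq_mono b.nonneg (le_max_right n0 n) _).trans (hC j s hs).1⟩

end Pool.Agent.BoltzD.M7

end
end MrgPart5

-- marker of a merged file
example : 731051 + 824748 = 731051 + 824748 := rfl
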