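import Pool.Agent.BoltzD.En.Split
import Pool.Agent.BoltzD.M6.Phys
import Pool.Agent.BoltzD.Stmt2
import Mathlib.Data.Int.Star
import Mathlib.Analysis.Fourier.AddCircleMulti
import Mathlib.Analysis.Real.Pi.Bounds
import Pool.Agent.BoltzD.Solver.Ops
import Pool.Agent.BoltzD.Calc.EV

-- ======== part 0: formerly Pool.Agent.BoltzD.M7.Spec2
section MrgPart0

-- ======== part 0: formerly Pool.Agent.BoltzD.Pic.IterSpec
section MrgPart0

/-!
Interface between the two halves of the Picard module: the iteration produces a sequence of smooth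
approximate solutions (`Iter`), the limit step turns it into a classical solution (`Lim`).
-/

set_option autoImplicit false

open Pool.Agent.BoltzC Finset

noncomputable section

namespace Pool.Agent.BoltzD

variable [Dim]

/-- All `x`-derivatives of order at most two are small in the norm `nA N`, uniformly in `x`. -/
def SmallN (N : ℕ) (η : ℝ) (G : E3 → SV) : Prop :=
  ∀ u : List Ix, u.length ≤ 2 → ∀ x, nA N (dXw u G x) ≤ η

/-- A sequence `h j` of smooth periodic approximate solutions; `g j` enters the quadratic term and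
`e j` is the error. -/
structure Iter (Q : CollOp) (F : ℝ → Fld) (k : ℝ → E3 → ℝ) (s0 ε : ℝ) (N : ℕ)
    (h h' g e : ℕ → ℝ → E3 → SV) : Prop where
  smd : ∀ j, SmD (h j) (h' j)
  smg : ∀ j, SmC (g j)
  sme : ∀ j, SmC (e j)
  per : ∀ j s, Per (h j s)
  per' : ∀ j s, Per (h' j s)
  perg : ∀ j s, Per (g j s)
  pere : ∀ j s, Per (e j s)
  eqn : ∀ j s, s0 ≤ s → ∀ x, h' j s x + (F s).tr (h j s) x + k s x • Q.L (h j s x)
    = (F s).src x + (k s x / 2) • Q.G (g j s x) (g j s x) + e j s x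
  small : ∀ j s, s0 ≤ s → ∀ x, nA N (h j s x) ≤ ε
  cauchy : ∀ s1 η : ℝ, 0 < η → ∃ J, ∀ j, J ≤ j → ∀ l, J ≤ l → ∀ s ∈ Set.Icc s0 s1,
    SmallN N η (fun x => h j s x - h l s x) ∧ SmallN N η (fun x => g j s x - h j s x) ∧
      SmallN N η (e j s)
  init : ∃ (m : ℕ) (Ψ : Fin m → E3 → SV), (∀ i, Sm (Ψ i)) ∧
    ∀ j, ∃ α : Fin m → ℝ, ∀ x, h j s0 x = ∑ i, α i • Ψ i x
  init_small : ∀ j x V, |h j s0 x V| ≤ 1 / 2 * sqM V

/-- M6c-1: the iteration. -/
def IterStmt : Prop :=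
  ∀ (Q : CollOp) (B : BgD), B.Ok → ∀ (N : ℕ) (ε : ℝ), 0 < ε →
    ∃ (A s0 : ℝ) (h h' g e : ℕ → ℝ → E3 → SV), 0 < A ∧ 0 ≤ s0 ∧
      Iter Q B.fld (fun s x => A * B.k1 s x) s0 ε N h h' g e

/-- M6c-2: the limit. -/
def LimitStmt : Prop :=
  ∀ Q : CollOp, (∀ (f g : SV) (v : E3), Q.G f g v = Coll.Gs f g v) → ∀ (p : ℕ) (ε : ℝ), 0 < ε →
    ∃ (N : ℕ) (ε' : ℝ), 0 < ε' ∧ ∀ (F : ℝ → Fld) (k : ℝ → E3 → ℝ) (s0 : ℝ)
      (h h' g e : ℕ → ℝ → E3 → SV), FldC F → SmC k → (∀ s, Per (k s)) →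
      Iter Q F k s0 ε' N h h' g e → ∃ f : ℝ → E3 → E3 → ℝ, Lim F k s0 ε p f

theorem picard_of (hc : CollStmt) (h1 : IterStmt) (h2 : LimitStmt) : PicardStmt := by
  obtain ⟨Q, hQ⟩ := hc
  intro B hB p ε hε
  obtain ⟨N, ε', hε', h2⟩ := h2 Q hQ p ε hε
  obtain ⟨A, s0, h, h', g, e, hA, hs0, hI⟩ := h1 Q B hB N ε' hε'
  obtain ⟨f, hf⟩ := h2 B.fld _ s0 h h' g e hB.fldC (hB.sm_k1.const_smul A)
    (fun s i x => by simp only [BgD.k1, hB.per_C s i x]) hI
  exact ⟨A, s0, f, hA, hs0, hf⟩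

end Pool.Agent.BoltzD

end
end MrgPart0

-- ======== part 1: formerly Pool.Agent.BoltzD.M7.Spec
section MrgPart1

/-!
Module M7 (smoothness of the solution): the extra structure of the iteration that is needed, and
the strengthened statements.
-/

set_option autoImplicit false

open Pool.Agent.BoltzC Finset Filter Topology
open scoped ContDiff

noncomputable section

namespace Pool.Agent.BoltzD

variable [Dim]

/-- The structure of the iteration: bounds of order `N`, the lag `g (j+1) - h j` is a difference of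
solutions of the hydrodynamic system, the error and the data have finite rank. -/
structure Lag (F : ℝ → Fld) (s0 : ℝ) (N : ℕ) (h g e : ℕ → ℝ → E3 → SV) : Prop where
  bdd : ∀ s1, ∃ C, ∀ j, ∀ s ∈ Set.Icc s0 s1, ∀ u : List Ix, u.length ≤ N → ∀ x,
    nA N (dXw u (h j s) x) ≤ C
  str : ∃ (m m' : ℕ) (φ : Fin m → ℝ → E3 → SV) (Ψ Ψ' : Fin m' → E3 → SV)
    (W W' : ℕ → ℝ → E3 → SV) (c d : ℕ → ℝ → Fin m → ℝ) (α : ℕ → Fin m' → ℝ) (C : ℝ),
    (∀ i, SmC (φ i)) ∧ (∀ i s, Per (φ i s)) ∧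
    (∀ i, Sm (Ψ i) ∧ Per (Ψ i) ∧ Sm (Ψ' i) ∧ Per (Ψ' i)) ∧
    ∀ j, SmD (W j) (W' j) ∧ (∀ s, Per (W j s)) ∧ (∀ s, Per (W' j s)) ∧
      (∀ s x, PP (W j s x) = W j s x) ∧ (∀ i, |α j i| ≤ C) ∧
      (∀ x, W j s0 x = ∑ i, α j i • Ψ i x ∧ h j s0 x = ∑ i, α j i • Ψ' i x) ∧
      ∀ s, s0 ≤ s → (∀ i, |c j s i| ≤ C ∧ |d j s i| ≤ C) ∧ ∀ x,
        W' j s x + PP ((F s).tr (W j s) x) = ∑ i, c j s i • φ i s x ∧
        g (j + 1) s x - h j s x = W (j + 1) s x - W j s x ∧
        e j s x = ∑ i, d j s i • φ i s x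

/-- M6c-1 with the structure of the iteration exposed. -/
def IterStmt2 : Prop :=
  ∀ (Q : CollOp) (B : BgD), B.Ok → ∀ (N : ℕ) (ε : ℝ), 0 < ε →
    ∃ (A s0 : ℝ) (h h' g e : ℕ → ℝ → E3 → SV), 0 < A ∧ 0 ≤ s0 ∧
      Iter Q B.fld (fun s x => A * B.k1 s x) s0 ε N h h' g e ∧ Lag B.fld s0 N h g e

/-- M6c-2 with the pointwise convergence exposed. -/
def LimitStmt2 : Prop :=
  ∀ Q : CollOp, (∀ (f g : SV) (v : E3), Q.G f g v = Coll.Gs f g v) → ∀ (p : ℕ) (ε : ℝ), 0 < ε →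
    ∃ (N : ℕ) (ε' : ℝ), 0 < ε' ∧ ∀ (F : ℝ → Fld) (k : ℝ → E3 → ℝ) (s0 : ℝ)
      (h h' g e : ℕ → ℝ → E3 → SV), FldC F → SmC k → (∀ s, Per (k s)) →
      Iter Q F k s0 ε' N h h' g e → ∃ f : ℝ → E3 → E3 → ℝ, Lim F k s0 ε p f ∧
        ∀ s, s0 ≤ s → ∀ x V, Tendsto (fun j => h j s x V) atTop (𝓝 (f s x V))

theorem IterStmt2.iter (h : IterStmt2) : IterStmt := fun Q B hB N ε hε => by
  obtain ⟨A, s0, h, h', g, e, hA, hs, hI, -⟩ := h Q B hB N ε hε
  exact ⟨A, s0, h, h', g, e, hA, hs, hI⟩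

theorem LimitStmt2.limit (h : LimitStmt2) : LimitStmt := fun Q hQ p ε hε => by
  obtain ⟨N, ε', hε', h⟩ := h Q hQ p ε hε
  exact ⟨N, ε', hε', fun F k s0 h1 h' g e hF hk hp hI => (h F k s0 h1 h' g e hF hk hp hI).imp
    fun f hf => hf.1⟩

end Pool.Agent.BoltzD

end
end MrgPart1

-- ======== part 2: formerly Pool.Agent.BoltzD.M7.Spec2
section MrgPart2

/-! Module M7 (smoothness of the solution): the four steps. -/

set_option autoImplicit false

open Pool.Agent.BoltzC Set Filter Topology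
open scoped ContDiff

noncomputable section

namespace Pool.Agent.BoltzD

variable [Dim]

/-- Bounds of all orders, uniform along the iteration and on compact time intervals. -/
def AllBd (s0 : ℝ) (h : ℕ → ℝ → E3 → SV) : Prop :=
  ∀ (s1 : ℝ) (n : ℕ) (u : List Ix), ∃ C : ℝ, ∀ᶠ j in atTop, ∀ s ∈ Icc s0 s1, ∀ x,
    nA n (dXw u (h j s) x) ≤ C

/-- The time derivative prescribed by the equation. -/
def rhs (Q : CollOp) (F : ℝ → Fld) (k : ℝ → E3 → ℝ) (G : ℝ → E3 → SV) (s : ℝ) (x : E3) : SV :=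
  (F s).src x + (k s x / 2) • Q.G (G s x) (G s x) - (F s).tr (G s) x - k s x • Q.L (G s x)

/-- Smooth on `[s0, ∞) × R^3 × R^3` with rapid decay in `V` of all derivatives. -/
structure SmoothS (s0 : ℝ) (H : ℝ × E3 × E3 → ℝ) : Prop where
  smooth : ContDiffOn ℝ ∞ H (Ici s0 ×ˢ univ)
  decay : ∀ (s1 : ℝ) (n q : ℕ), ∃ C : ℝ, ∀ s ∈ Icc s0 s1, ∀ x V : E3,
    (1 + ‖V‖) ^ q * ‖iteratedFDerivWithin ℝ n H (Ici s0 ×ˢ univ) (s, x, V)‖ ≤ C

/-- M7a: propagation of regularity along the iteration. -/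
def BoundStmt : Prop :=
  ∀ Q : CollOp, ∃ (N0 : ℕ) (ε0 : ℝ), 0 < ε0 ∧ ∀ (F : ℝ → Fld) (k : ℝ → E3 → ℝ) (s0 ε : ℝ) (N : ℕ)
    (h h' g e : ℕ → ℝ → E3 → SV), FldC F → SmC k → (∀ s, Per (k s)) → (∀ s x, 0 < k s x) →
    N0 ≤ N → ε ≤ ε0 → Iter Q F k s0 ε N h h' g e → Lag F s0 N h g e →
    AllBd s0 h ∧ AllBd s0 g ∧ AllBd s0 e

/-- M7b: the limit in Schwartz space. -/
def SvLimStmt : Prop :=
  ∀ (Q : CollOp) (F : ℝ → Fld) (k : ℝ → E3 → ℝ) (s0 ε : ℝ) (N : ℕ)
    (h h' g e : ℕ → ℝ → E3 → SV), FldC F → SmC k → (∀ s, Per (k s)) →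
    Iter Q F k s0 ε N h h' g e → AllBd s0 h → AllBd s0 g → AllBd s0 e →
    ∃ G : ℝ → E3 → SV, SmC G ∧ (∀ s, Per (G s)) ∧
      (∀ s, s0 ≤ s → ∀ x V, Tendsto (fun j => h j s x V) atTop (𝓝 (G s x V))) ∧
      ∀ s, s0 < s → ∀ x, HD (fun t => G t x) (rhs Q F k G s x) s

/-- M7c: all time derivatives. -/
def TimeStmt : Prop :=
  ∀ (Q : CollOp) (B : BgD), B.Ok → ∀ (A s0 : ℝ) (G : ℝ → E3 → SV), SmC G → (∀ s, Per (G s)) →
    (∀ s, s0 < s → ∀ x, HD (fun t => G t x) (rhs Q B.fld (fun s x => A * B.k1 s x) G s x) s) →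
    SmoothS s0 fun q => sqM q.2.2 * (sqM q.2.2 + G q.1 q.2.1 q.2.2)

/-- M7d: the change of variables. -/
def ChangeStmt : Prop :=
  ∀ (r s0 A : ℝ) (u : ℝ × E3 → E3) (c : ℝ × E3 → ℝ) (H : ℝ × E3 × E3 → ℝ), 0 < r →
    ContDiff ℝ ∞ u → ContDiff ℝ ∞ c → (∀ s, Per fun x => u (s, x)) → (∀ s, Per fun x => c (s, x)) →
    (∀ p, 0 < c p) → SmoothS s0 H →
    Stmt.Smooth (M6.Tb r s0) fun t => M6.Fs A u c H (M6.sOf r s0 t)

end Pool.Agent.BoltzD

end
end MrgPart2

-- marker of a merged file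
example : 731051 + 186307 = 731051 + 186307 := rfl

end MrgPart0

-- ======== part 1: formerly Pool.Agent.BoltzD.Solver.Main
section MrgPart1

-- ======== part 0: formerly Pool.Agent.BoltzD.Calc.Cas
section MrgPart0

/-! The Hartley basis of the torus: Parseval identity and the spectral gap above a cut-off. -/

set_option autoImplicit false

open Filter Topology MeasureTheory Set Real

namespace Pool.Agent.BoltzC

variable [Dim]

/-- The phase `2π n·x`. -/
noncomputable def phase (n : Ix → ℤ) (x : E3) : ℝ := 2 * π * ∑ i, (n i : ℝ) * x i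

theorem cas_eq (n : Ix → ℤ) (x : E3) : cas n x = cos (phase n x) + sin (phase n x) := rfl

theorem phase_neg (n : Ix → ℤ) (x : E3) : phase (-n) x = -phase n x := by
  simp [phase]

theorem phase_add_smul (n : Ix → ℤ) (x : E3) (i : Ix) (t : ℝ) :
    phase n (x + t • ev i) = phase n x + 2 * π * n i * t := by
  simp [phase, ev_coord, mul_add, Finset.sum_add_distrib]
  ring

theorem continuous_phase (n : Ix → ℤ) : Continuous (phase n) := by
  unfold phase; fun_prop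

theorem cas_neg (n : Ix → ℤ) (x : E3) : cas (-n) x = cos (phase n x) - sin (phase n x) := by
  rw [cas_eq, phase_neg, cos_neg, sin_neg]; ring

theorem continuous_cas (n : Ix → ℤ) : Continuous (cas n) :=
  (continuous_cos.comp (continuous_phase n)).add (continuous_sin.comp (continuous_phase n))

theorem per_cas (n : Ix → ℤ) : Per (cas n) := by
  intro i x
  have := phase_add_smul n x i 1
  rw [one_smul, mul_one, mul_comm (2 * π)] at this
  rw [cas_eq, cas_eq, this, cos_add_int_mul_two_pi, sin_add_int_mul_two_pi]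

theorem hasDerivAt_cas (n : Ix → ℤ) (i : Ix) (x : E3) :
    HasDerivAt (fun t : ℝ => cas n (x + t • ev i)) (2 * π * n i * cas (-n) x) 0 := by
  have h0 : HasDerivAt (fun t : ℝ => phase n x + 2 * π * n i * t) (2 * π * n i) 0 := by
    simpa using ((hasDerivAt_id (0 : ℝ)).const_mul (2 * π * n i)).const_add (phase n x)
  simp only [cas_eq n, phase_add_smul, cas_neg]
  refine (h0.cos.add h0.sin).congr_deriv ?_
  simp only [mul_zero, add_zero]
  ring

theorem dX_cas (n : Ix → ℤ) (i : Ix) : dX i (cas n) = fun x => 2 * π * n i * cas (-n) x :=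
  funext fun x => dX_eq (hasDerivAt_cas n i x).hd

theorem sm_cas (n : Ix → ℤ) : Sm (cas n) := by
  refine smC_coind (fun k : Unit → E3 → ℝ => ∃ (c : ℝ) (m : Ix → ℤ),
    k = fun _ x => c * cas m x) ?_ ⟨1, n, by funext _ x; simp⟩
  rintro k ⟨c, m, rfl⟩
  refine ⟨continuous_const.mul ((continuous_cas m).comp continuous_snd), fun i =>
    ⟨_, ⟨c * (2 * π * m i), -m, rfl⟩, fun _ x => ?_⟩⟩
  rw [mul_assoc]
  exact ((hasDerivAt_cas m i x).const_mul c).hd

theorem abs_cas_le (n : Ix → ℤ) (x : E3) : |cas n x| ≤ 2 := by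
  rw [cas_eq]
  refine (abs_add_le _ _).trans ?_
  linarith [abs_cos_le_one (phase n x), abs_sin_le_one (phase n x)]

attribute [local instance] instMeasureSpaceUnitAddCircle

theorem integral_cube_toLp {G : Type*} [NormedAddCommGroup G] [NormedSpace ℝ G] (φ : E3 → G) :
    ∫ x in {x : Ix → ℝ | ∀ i, x i ∈ Ioc ((0 : Ix → ℝ) i) ((0 : Ix → ℝ) i + 1)},
      φ (WithLp.toLp 2 x) = ∫ x in cube 0 1, φ x :=
  (PiLp.volume_preserving_toLp Ix).setIntegral_preimage_emb
    (MeasurableEquiv.toLp 2 (Ix → ℝ)).measurableEmbedding φ (cube 0 1)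

/-- Parseval identity in trigonometric form. -/
theorem hasSum_cos_sin_sq {φ : E3 → ℝ} (hc : Continuous φ) :
    HasSum (fun n : Ix → ℤ => tint (fun x => φ x * cos (phase n x)) ^ 2 +
      tint (fun x => φ x * sin (phase n x)) ^ 2) (tint fun x => φ x ^ 2) := by
  have hprob : IsProbabilityMeasure (volume : Measure UnitAddCircle) :=
    inferInstanceAs (IsProbabilityMeasure AddCircle.haarAddCircle)
  set f : UnitAddTorus Ix → ℂ := fun t =>
    (φ (WithLp.toLp 2 (UnitAddTorus.measurableEquivPiIoc (0 : Ix → ℝ) t).1) : ℂ) with hf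
  have hfm : Measurable f :=
    Complex.measurable_ofReal.comp (hc.measurable.comp
      ((MeasurableEquiv.toLp 2 (Ix → ℝ)).measurable.comp
        (measurable_subtype_coe.comp (UnitAddTorus.measurableEquivPiIoc _).measurable)))
  obtain ⟨C, hC⟩ := (isCompact_closedBall (0 : E3) (dd * |(1 : ℝ)|)).exists_bound_of_continuousOn
    hc.continuousOn
  have hmem : MemLp f 2 volume := by
    refine MemLp.of_bound hfm.aestronglyMeasurable C (Eventually.of_forall fun t => ?_)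
    rw [hf, Complex.norm_real]
    exact hC _ (cube_subset_closedBall 0 1
      (UnitAddTorus.measurableEquivPiIoc (0 : Ix → ℝ) t).2)
  have hS : MeasurableSet
      {x : Ix → ℝ | ∀ i, x i ∈ Ioc ((0 : Ix → ℝ) i) ((0 : Ix → ℝ) i + 1)} :=
    MeasurableSet.univ_pi' fun i => measurableSet_Ioc
  have hfx : ∀ x ∈ {x : Ix → ℝ | ∀ i, x i ∈ Ioc ((0 : Ix → ℝ) i) ((0 : Ix → ℝ) i + 1)},
      f (fun i => x i) = φ (WithLp.toLp 2 x) := by
    intro x hx
    simp only [hf, UnitAddTorus.measurableEquivPiIoc, MeasurableEquiv.trans_apply]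
    congr 3
    funext i
    exact congrArg Subtype.val (AddCircle.equivIoc_coe_eq (hx i))
  have main := UnitAddTorus.hasSum_sq_mFourierCoeff (hmem.toLp f)
  have e1 : ∫ t, ‖hmem.toLp f t‖ ^ 2 = tint fun x => φ x ^ 2 := by
    rw [integral_congr_ae (g := fun t => ‖f t‖ ^ 2) (by
      filter_upwards [hmem.coeFn_toLp] with t ht using by rw [ht]),
      UnitAddTorus.integral_preimage _ 0, tint, ← integral_cube_toLp]
    refine setIntegral_congr_fun hS fun x hx => ?_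
    simp only [hfx x hx, Complex.norm_real, Real.norm_eq_abs, sq_abs]
  have e2 : ∀ n, UnitAddTorus.mFourierCoeff (hmem.toLp f) n =
      (tint (fun x => φ x * cos (phase n x)) : ℂ) -
        (tint (fun x => φ x * sin (phase n x)) : ℂ) * Complex.I := by
    intro n
    have h1 : UnitAddTorus.mFourierCoeff (hmem.toLp f) n = UnitAddTorus.mFourierCoeff f n :=
      integral_congr_ae (by
        filter_upwards [hmem.coeFn_toLp] with t ht using by rw [ht])
    have hp := continuous_phase n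
    rw [h1, UnitAddTorus.mFourierCoeff_eq_integral f n 0, tint, tint, ← integral_complex_ofReal,
      ← integral_complex_ofReal, ← integral_mul_const,
      ← integral_sub (integrableOn_cube (by fun_prop) 0 1) (integrableOn_cube (by fun_prop) 0 1),
      ← integral_cube_toLp]
    refine setIntegral_congr_fun hS fun x hx => ?_
    have h2 : UnitAddTorus.mFourier (-n) (fun i => (x i : UnitAddCircle)) =
        Complex.exp ((-phase n (WithLp.toLp 2 x) : ℝ) * Complex.I) := by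
      simp only [UnitAddTorus.mFourier, ContinuousMap.coe_mk, fourier_coe_apply,
        ← Complex.exp_sum, phase]
      congr 1
      push_cast
      simp only [Finset.mul_sum, Finset.sum_mul, ← Finset.sum_neg_distrib, neg_mul, Pi.neg_apply]
      refine Finset.sum_congr rfl fun i _ => ?_
      push_cast
      ring
    simp only [hfx x hx, h2, Complex.exp_mul_I, smul_eq_mul]
    push_cast
    rw [Complex.cos_neg, Complex.sin_neg]
    ring
  rw [e1] at main
  refine main.congr_fun fun n => ?_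
  rw [e2, Complex.sq_norm, Complex.normSq_apply]
  simp
  ring

/-- Parseval identity for the Hartley basis. -/
theorem hasSum_cas_sq {φ : E3 → ℝ} (hc : Continuous φ) :
    HasSum (fun n : Ix → ℤ => tint (fun x => φ x * cas n x) ^ 2) (tint fun x => φ x ^ 2) := by
  have main := hasSum_cos_sin_sq hc
  set a : (Ix → ℤ) → ℝ := fun n => tint fun x => φ x * cos (phase n x) with ha
  set b : (Ix → ℤ) → ℝ := fun n => tint fun x => φ x * sin (phase n x) with hb
  have hs : Summable fun n => 2 * (a n * b n) := by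
    refine Summable.of_norm_bounded main.summable fun n => ?_
    rw [Real.norm_eq_abs, abs_le]
    constructor
    · nlinarith [sq_nonneg (a n + b n)]
    · nlinarith [sq_nonneg (a n - b n)]
  have hodd : ∀ n, 2 * (a (-n) * b (-n)) = -(2 * (a n * b n)) := by
    intro n
    simp only [ha, hb, phase_neg, cos_neg, sin_neg, mul_neg, tint_neg]
  have h0 : HasSum (fun n => 2 * (a n * b n)) 0 := by
    have h1 := hs.hasSum
    have h2 := ((Equiv.neg (Ix → ℤ)).hasSum_iff.2 h1).neg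
    simp only [Function.comp, Equiv.neg_apply, hodd, neg_neg] at h2
    have h3 := h1.unique h2
    have h4 : ∑' n, 2 * (a n * b n) = 0 := by linarith
    rwa [h4] at h1
  have h5 := main.add h0
  rw [add_zero] at h5
  refine h5.congr_fun fun n => ?_
  have hp := continuous_phase n
  have : tint (fun x => φ x * cas n x) = a n + b n := by
    rw [ha, hb, ← tint_add (by fun_prop) (by fun_prop)]
    exact tint_congr fun x => by rw [cas_eq]; ring
  rw [this]
  ring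

/-- Parseval identity, bilinear form. -/
theorem hasSum_cas_mul {φ ψ : E3 → ℝ} (hφ : Continuous φ) (hψ : Continuous ψ) :
    HasSum (fun n : Ix → ℤ => tint (fun x => φ x * cas n x) * tint (fun x => ψ x * cas n x))
      (tint fun x => φ x * ψ x) := by
  have h1 := hasSum_cas_sq (hφ.add hψ)
  have h2 := hasSum_cas_sq (hφ.sub hψ)
  have h3 := (h1.sub h2).mul_left (1 / 4)
  have e : (1 / 4 : ℝ) * ((tint fun x => (φ + ψ) x ^ 2) - tint fun x => (φ - ψ) x ^ 2) =
      tint fun x => φ x * ψ x := by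
    rw [← tint_sub (by fun_prop) (by fun_prop), ← tint_const_mul]
    exact tint_congr fun x => by simp; ring
  rw [e] at h3
  refine h3.congr_fun fun n => ?_
  have hc := continuous_cas n
  simp only [Pi.add_apply, Pi.sub_apply, add_mul, sub_mul]
  rw [tint_add (by fun_prop) (by fun_prop), tint_sub (by fun_prop) (by fun_prop)]
  ring

theorem tint_dX_mul_cas {φ : E3 → ℝ} (hφ : Sm φ) (pφ : Per φ) (i : Ix) (n : Ix → ℤ) :
    tint (fun x => dX i φ x * cas n x) = -(2 * π * n i) * tint fun x => φ x * cas (-n) x := by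
  rw [tint_dX_mul hφ (sm_cas n) pφ (per_cas n), dX_cas, neg_mul, ← tint_const_mul]
  congr 1
  exact tint_congr fun x => by ring

/-- Spectral gap above the cut-off `N`. -/
theorem gap_cas {φ : E3 → ℝ} (hφ : Sm φ) (pφ : Per φ) (N : ℕ)
    (h : ∀ n : Ix → ℤ, (∀ i, |n i| ≤ N) → tint (fun x => φ x * cas n x) = 0) :
    (N + 1) * tint (fun x => φ x ^ 2) ≤ ∑ i, tint fun x => dX i φ x ^ 2 := by
  have h1 := ((Equiv.neg (Ix → ℤ)).hasSum_iff.2 (hasSum_cas_sq hφ.cont)).mul_left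
    ((N : ℝ) + 1)
  have h2 := hasSum_sum (s := Finset.univ) fun i _ => hasSum_cas_sq (hφ.dX i).cont
  refine hasSum_le (fun n => ?_) h1 h2
  simp only [Function.comp, Equiv.neg_apply, tint_dX_mul_cas hφ pφ]
  by_cases hn : ∀ i, |(-n) i| ≤ N
  · rw [h _ hn]
    simp
  · push Not at hn
    obtain ⟨i, hi⟩ := hn
    refine le_trans ?_ (Finset.single_le_sum (f := fun i => (-(2 * π * n i) *
      tint fun x => φ x * cas (-n) x) ^ 2) (fun _ _ => sq_nonneg _) (Finset.mem_univ i))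
    rw [mul_pow]
    gcongr
    have h3 : (N : ℝ) + 1 ≤ |(n i : ℝ)| := by
      have : (N : ℤ) + 1 ≤ |n i| := by simpa using hi
      exact_mod_cast this
    have h4 : (1 : ℝ) ≤ |(n i : ℝ)| := by linarith [Nat.cast_nonneg (α := ℝ) N]
    have h5 : (1 : ℝ) ≤ (2 * π) ^ 2 := by nlinarith [pi_gt_three]
    rw [neg_sq, mul_pow, ← sq_abs (n i : ℝ)]
    nlinarith

end Pool.Agent.BoltzC

end MrgPart0

-- ======== part 1: formerly Pool.Agent.BoltzD.Solver.Basis
section MrgPart1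

/-!
The finite dimensional spaces of trigonometric polynomials times Hermite functions.
-/

set_option autoImplicit false

open Filter Topology Finset Pool.Agent.BoltzC

noncomputable section

namespace Pool.Agent.BoltzD.Solver

variable [Dim]

/-- The function `cas n x • f`. -/
def casL (n : Ix → ℤ) : SV →ₗ[ℝ] XS where
  toFun f := ⟨fun x => cas n x • f, (sm_cas n).smul_const f, (per_cas n).map (· • f)⟩
  map_add' _ _ := Subtype.ext (funext fun _ => smul_add _ _ _)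
  map_smul' _ _ := Subtype.ext (funext fun _ => smul_comm _ _ _)

@[simp] lemma casL_apply (n : Ix → ℤ) (f : SV) (x : E3) : (casL n f).1 x = cas n x • f := rfl

/-- Frequencies in a box. -/
def fbox (N : ℕ) : Finset (Ix → ℤ) := Fintype.piFinset fun _ => Finset.Icc (-(N : ℤ)) N

lemma mem_fbox {N : ℕ} {n : Ix → ℤ} : n ∈ fbox N ↔ ∀ i, |n i| ≤ N := by
  simp [fbox, abs_le]

/-- The Galerkin spaces. -/
def WX (p : ℕ × ℕ) : Submodule ℝ XS := (fbox p.1).sup fun n => (HP p.2).map (casL n)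

instance (p : ℕ × ℕ) : FiniteDimensional ℝ (WX p) := Submodule.finiteDimensional_finset_sup _ _

lemma casL_mem {p : ℕ × ℕ} {n : Ix → ℤ} {f : SV} (hn : ∀ i, |n i| ≤ p.1) (hf : f ∈ HP p.2) :
    casL n f ∈ WX p :=
  (le_sup (f := fun n => (HP p.2).map (casL n)) (mem_fbox.2 hn)) (Submodule.mem_map_of_mem hf)

lemma WX_map {p q : ℕ × ℕ} (T : XS →ₗ[ℝ] XS)
    (h : ∀ n : Ix → ℤ, (∀ i, |n i| ≤ p.1) → ∀ f ∈ HP p.2, T (casL n f) ∈ WX q) :
    ∀ y ∈ WX p, T y ∈ WX q := by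
  have : WX p ≤ (WX q).comap T := by
    refine Finset.sup_le fun n hn => ?_
    rintro _ ⟨f, hf, rfl⟩
    exact h n (mem_fbox.1 hn) f hf
  exact fun y hy => this hy

lemma opD_casL (i : Ix) (n : Ix → ℤ) (f : SV) :
    opD i (casL n f) = (2 * Real.pi * n i) • casL (-n) f := by
  refine Subtype.ext (funext fun x => ?_)
  have h := congrFun (dX_smul_const (sm_cas n).dif f i) x
  rw [dX_cas] at h
  change dX i (fun x => cas n x • f) x = (2 * Real.pi * n i) • cas (-n) x • f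
  rw [h, smul_smul]

lemma opV_casL (B : SV →L[ℝ] SV) (n : Ix → ℤ) (f : SV) : opV B (casL n f) = casL n (B f) :=
  Subtype.ext (funext fun x => by simp)

lemma opD_mem (i : Ix) (p : ℕ × ℕ) : ∀ y ∈ WX p, opD i y ∈ WX p :=
  WX_map _ fun n hn f hf => by
    rw [opD_casL]
    exact Submodule.smul_mem _ _ (casL_mem (fun i => by simpa using hn i) hf)

/-- Shift of the degrees by a letter. -/
def shiftX : Ix ⊕ Ix → ℕ × ℕ → ℕ × ℕ
  | Sum.inl _, p => p
  | Sum.inr _, p => (p.1, p.2 + 1)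

lemma ZX_mem (z : Ix ⊕ Ix) (p : ℕ × ℕ) : ∀ y ∈ WX p, ZX z y ∈ WX (shiftX z p) := by
  rcases z with i | j
  · exact opD_mem i p
  · exact WX_map _ fun n hn f hf => by
      rw [ZX, opV_casL]; exact casL_mem hn (ap_mem j hf)

lemma ZsX_mem (z : Ix ⊕ Ix) (p : ℕ × ℕ) : ∀ y ∈ WX (shiftX z p), ZsX z y ∈ WX p := by
  rcases z with i | j
  · exact fun y hy => Submodule.neg_mem _ (opD_mem i p y hy)
  · exact WX_map _ fun n hn f hf => by
      rw [ZsX, opV_casL]; exact casL_mem hn (am_mem j f hf)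

lemma ZsX_mem_self (z : Ix ⊕ Ix) (p : ℕ × ℕ) : ∀ y ∈ WX p, ZsX z y ∈ WX p := by
  rcases z with i | j
  · exact fun y hy => Submodule.neg_mem _ (opD_mem i p y hy)
  · exact WX_map _ fun n hn f hf => by
      rw [ZsX, opV_casL]; exact casL_mem hn (am_mem_self j hf)

/-- An orthonormal basis of the Hermite polynomials of degree at most `N`. -/
lemma exists_onb (N : ℕ) : ∃ (d : ℕ) (e : Fin d → SV), (∀ l, e l ∈ HP N) ∧
    (∀ f, ∑ l, ip f (e l) ^ 2 ≤ ip f f) ∧
    ∀ f, ((N : ℝ) + 1) * (ip f f - ∑ l, ip f (e l) ^ 2) ≤ nA 1 f := by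
  let q : PD SV := ⟨ip, ip_comm, ip_self_nonneg, fun _ => ip_self_eq_zero⟩
  let Y : Submodule ℝ (Lvl q) := HP N
  have : FiniteDimensional ℝ Y := (inferInstance : FiniteDimensional ℝ (HP N))
  let b := stdOrthonormalBasis ℝ Y
  let e : Fin (Module.finrank ℝ Y) → SV := fun l => ofL q (b l).1
  have he : ∀ l, e l ∈ HP N := fun l => (b l).2
  have hon : ∀ l m, ip (e l) (e m) = if l = m then 1 else 0 := fun l m =>
    orthonormal_iff_ite.1 b.orthonormal l m
  have hrep : ∀ h ∈ HP N, h = ∑ l, ip (e l) h • e l := by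
    intro h hh
    have h1 := congrArg (fun y : Y => ofL q y.1) (b.sum_repr' ⟨toL q h, hh⟩)
    simp only [AddSubmonoidClass.coe_finsetSum, SetLike.val_smul, map_sum, map_smul] at h1
    exact h1.symm
  let P : SV → SV := fun f => ∑ l, ip f (e l) • e l
  have hPm : ∀ f, P f ∈ HP N := fun f =>
    Submodule.sum_mem _ fun l _ => Submodule.smul_mem _ _ (he l)
  have hPe : ∀ f m, ip (P f) (e m) = ip f (e m) := by
    intro f m
    simp [P, hon]
  have horth : ∀ f, ∀ h ∈ HP N, ip (f - P f) h = 0 := by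
    intro f h hh
    rw [hrep h hh]
    simp [hPe]
  have hfP : ∀ f, ip f (P f) = ∑ l, ip f (e l) ^ 2 := by
    intro f
    simp [P, pow_two]
  have hsplit : ∀ f, ip (f - P f) (f - P f) = ip f f - ∑ l, ip f (e l) ^ 2 := by
    intro f
    rw [map_sub (ip (f - P f)), horth f _ (hPm f), map_sub, LinearMap.sub_apply, ip_comm (P f),
      hfP, sub_zero]
  refine ⟨_, e, he, fun f => ?_, fun f => ?_⟩
  · linarith [hsplit f, ip_self_nonneg (f - P f)]
  · rw [← hsplit]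
    refine (gap_HP N _ (horth f)).trans ?_
    have h1 := horth f _ (RR_mem 1 (hPm f))
    have h2 : nA 1 f = nA 1 (f - P f) + 2 * ip (f - P f) (RR 1 (P f)) + nA 1 (P f) := by
      simp only [nA_eq_ip_RR, map_sub, LinearMap.sub_apply]
      have := ip_RR_symm 1 f (P f)
      rw [ip_comm] at this
      linarith
    linarith [nA_nonneg 1 (P f)]

theorem specX (N : ℕ) (G : XS) (hG : ∀ y ∈ WX (N, N), bX.B G y = 0) :
    ((N : ℝ) + 1) * bX.B G G ≤ ∑ z, bX.B (ZX z G) (ZX z G) := by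
  obtain ⟨d, e, he, hb, hg⟩ := exists_onb N
  have hsm : ∀ (H : XS) l, Sm fun x => ip (H.1 x) (e l) :=
    fun H l => (XS.sm H).ip (Sm.const (e l))
  have hc : ∀ (H : XS) l, Continuous fun x => ip (H.1 x) (e l) ^ 2 :=
    fun H l => (hsm H l).cont.pow 2
  have h1 : ∀ l, ((N : ℝ) + 1) * tint (fun x => ip (G.1 x) (e l) ^ 2) ≤
      ∑ i, tint fun x => ip ((opD i G).1 x) (e l) ^ 2 := by
    intro l
    have h := gap_cas (hsm G l) ((XS.per G).map fun f => ip f (e l)) N fun n hn => by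
      rw [← hG _ (casL_mem (p := (N, N)) hn (he l)), bX_B]
      exact tint_congr fun x => by simp [mul_comm]
    refine h.trans (le_of_eq (sum_congr rfl fun i _ => tint_congr fun x => ?_))
    rw [dX_bilin ip continuous_ip (XS.sm G).dif (Dif.const (e l)), dX_const]
    simp
  have h2 : ∀ i, ∑ l, tint (fun x => ip ((opD i G).1 x) (e l) ^ 2) ≤
      bX.B (opD i G) (opD i G) := by
    intro i
    rw [← tint_sum _ fun l _ => hc _ l]
    exact tint_mono (continuous_finsetSum _ fun l _ => hc _ l) (XS.cont_ip _ _) fun x => hb _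
  have h3 : ((N : ℝ) + 1) * (bX.B G G - ∑ l, tint (fun x => ip (G.1 x) (e l) ^ 2)) ≤
      ∑ j, bX.B (opV (ap j) G) (opV (ap j) G) := by
    have hs := continuous_finsetSum Finset.univ fun l _ => hc G l
    simp only [bX_B]
    rw [← tint_sum _ fun l _ => hc _ l, ← tint_sub (XS.cont_ip _ _) hs, ← tint_const_mul,
      ← tint_sum _ fun j _ => XS.cont_ip _ _]
    refine tint_mono (continuous_const.mul ((XS.cont_ip _ _).sub hs))
      (continuous_finsetSum _ fun j _ => XS.cont_ip _ _) fun x => ?_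
    refine (hg _).trans (le_of_eq ?_)
    rw [nA_one]; rfl
  have h4 := sum_le_sum fun l (_ : l ∈ univ) => h1 l
  rw [sum_comm, ← mul_sum] at h4
  have h5 := sum_le_sum fun i (_ : i ∈ univ) => h2 i
  rw [Fintype.sum_sum_type]
  simp only [ZX]
  linarith

end Pool.Agent.BoltzD.Solver

end
end MrgPart1

-- ======== part 2: formerly Pool.Agent.BoltzD.Solver.Main
section MrgPart2

/-!
The general linear solver on the torus and the theorem `m3 : M3Stmt`.
-/

set_option autoImplicit false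

open Set Filter Topology Finset Pool.Agent.BoltzC

noncomputable section

namespace Pool.Agent.BoltzD.Solver

variable [Dim]

variable {P0 P1 : (SV →L[ℝ] SV) → Prop} {d : SV → ℝ}

/-- The quadratic form of `A` is small with respect to the dissipation. -/
def Low (d : SV → ℝ) (A : ℝ → XS →ₗ[ℝ] XS) : Prop :=
  ∀ a b ε : ℝ, 0 < ε → ∃ C : ℝ, 0 ≤ C ∧ ∀ s ∈ Icc a b, ∀ H,
    |bX.B (A s H) H| ≤ ε * dI d H + C * bX.B H H

/-- Admissible lower order operators. -/
structure Adm (P0 P1 : (SV →L[ℝ] SV) → Prop) (d : SV → ℝ) (A : ℝ → XS →ₗ[ℝ] XS) : Prop where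
  gen : Gen P0 P1 A
  low : Low d A

lemma Adm.add {A A' : ℝ → XS →ₗ[ℝ] XS} (h : Adm P0 P1 d A) (h' : Adm P0 P1 d A') :
    Adm P0 P1 d (A + A') := by
  refine ⟨h.gen.add h'.gen, fun a b ε hε => ?_⟩
  obtain ⟨C1, hC1, h2⟩ := h.low a b (ε / 2) (by positivity)
  obtain ⟨C2, hC2, h3⟩ := h'.low a b (ε / 2) (by positivity)
  refine ⟨C1 + C2, by positivity, fun s hs H => ?_⟩
  simp only [Pi.add_apply, LinearMap.add_apply, map_add]
  refine (abs_add_le _ _).trans ?_
  linarith [h2 s hs H, h3 s hs H]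

lemma Adm.neg {A : ℝ → XS →ₗ[ℝ] XS} (h : Adm P0 P1 d A) : Adm P0 P1 d (-A) := by
  refine ⟨h.gen.neg, fun a b ε hε => ?_⟩
  obtain ⟨C1, hC1, h2⟩ := h.low a b ε hε
  refine ⟨C1, hC1, fun s hs H => ?_⟩
  simpa only [Pi.neg_apply, LinearMap.neg_apply, map_neg, abs_neg] using h2 s hs H

lemma Adm.zero (hd : ∀ f, 0 ≤ d f) : Adm P0 P1 d 0 :=
  ⟨.zero, fun a b ε hε => ⟨0, le_rfl, fun s hs H => by
    simpa using mul_nonneg hε.le (dd_nonneg hd H)⟩⟩

lemma Adm.sum (hd : ∀ f, 0 ≤ d f) {ι : Type*} (S : Finset ι) {A : ι → ℝ → XS →ₗ[ℝ] XS}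
    (h : ∀ i, Adm P0 P1 d (A i)) : Adm P0 P1 d (∑ i ∈ S, A i) := by
  classical
  induction S using Finset.induction_on with
  | empty => simpa using Adm.zero hd
  | insert i S hi ih => rw [sum_insert hi]; exact (h i).add ih

lemma Adm.rk (hd : ∀ f, 0 ≤ d f) (φ ψ : Vf) : Adm P0 P1 d (rk φ ψ) := by
  refine ⟨.rk φ ψ, fun a b ε hε => ?_⟩
  obtain ⟨C, hC, h⟩ := abs_bX_rk_le φ ψ a b
  refine ⟨2 * C, by positivity, fun s hs H => ?_⟩
  linarith [h s hs H H, mul_nonneg hε.le (dd_nonneg hd H)]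

lemma low_of_vd (hdc : Continuous d) (c : Cf) {B : SV →L[ℝ] SV} (hB : VD d B) (a b ε : ℝ)
    (hε : 0 < ε) : ∃ C : ℝ, 0 ≤ C ∧ ∀ s ∈ Icc a b, ∀ H : XS,
      |tint fun x => c.c s x * ip (B (H.1 x)) (H.1 x)| ≤ ε * dI d H + C * bX.B H H := by
  obtain ⟨M, hM, hM'⟩ := c.bound a b
  obtain ⟨C, hC, h⟩ := hB (ε / M) (by positivity)
  refine ⟨M * C, by positivity, fun s hs H => ?_⟩
  refine (abs_tint_mul_le hdc (α := ε / M) (β := 0) (γ := C) (δ := 0) H H (hM' s hs)
    fun x => by linarith [h (H.1 x)]).trans (le_of_eq ?_)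
  field_simp
  ring

lemma Adm.tm_none (hdc : Continuous d) (c : Cf) {B : SV →L[ℝ] SV} (hB : P0 B) (hV : VD d B) :
    Adm P0 P1 d (tm c B none) :=
  ⟨.t0 c B none hB, fun a b ε hε => by
    simp only [bX_tm]; exact low_of_vd hdc c hV a b ε hε⟩

lemma Adm.tm_inr (hdc : Continuous d) (c : Cf) {B : SV →L[ℝ] SV} (hB : P0 B) (j : Ix)
    (hV : VD d (B.comp (ap j))) : Adm P0 P1 d (tm c B (some (Sum.inr j))) :=
  ⟨.t0 c B _ hB, fun a b ε hε => by
    simp only [bX_tm]; exact low_of_vd hdc c hV a b ε hε⟩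

lemma Adm.tm_inl (hdc : Continuous d) (c : Cf) {B : SV →L[ℝ] SV} (hB : P0 B)
    (i : Ix) (hV : VD d B) (hs : ∀ f h, ip (B f) h = ip f (B h)) :
    Adm P0 P1 d (tm c B (some (Sum.inl i))) := by
  refine ⟨.t0 c B _ hB, fun a b ε hε => ?_⟩
  obtain ⟨C, hC, h⟩ := low_of_vd hdc (c.d i) hV a b ε hε
  refine ⟨C, hC, fun s hs' H => ?_⟩
  have h1 := tint_mul_bilin_dX_self (ip.comp B.toLinearMap)
    (continuous_ip.comp ((B.continuous.comp continuous_fst).prodMk continuous_snd))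
    (fun f g => (hs f g).trans (ip_comm _ _)) (c.sm.slice s) (XS.sm H) (c.per s) (XS.per H) i
  have h2 := h s hs' H
  rw [bX_tm]
  change |tint fun x => c.c s x * ip.comp B.toLinearMap (dX i H.1 x) (H.1 x)| ≤ _
  rw [h1, abs_mul]
  change _ * |tint fun x => (c.d i).c s x * ip (B (H.1 x)) (H.1 x)| ≤ _
  have h3 := abs_nonneg (tint fun x => (c.d i).c s x * ip (B (H.1 x)) (H.1 x))
  rw [abs_neg, abs_of_pos (by norm_num : (0 : ℝ) < 1 / 2)]
  linarith

/-- The general solver. -/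
theorem solver_gen (hdc : Continuous d) (hd : ∀ f, 0 ≤ d f)
    (h0 : ∀ B, P0 B → V0 d B ∧ ∀ j, P0 (adV j B)) (h1 : ∀ B, P1 B → V1 d B ∧ ∀ j, P1 (adV j B))
    {L : SV →L[ℝ] SV} (hL1 : P1 L) (hL : ∀ h, d h - ip h h ≤ ip (L h) h)
    {A : ℝ → XS →ₗ[ℝ] XS} (hA : Adm P0 P1 d A) (k : Cf) (s0 : ℝ)
    (hk : ∀ s, s0 ≤ s → ∀ x, 0 < k.c s x) (F : Vf) (g0 : XS) :
    ∃ g g' : ℝ → XS, SmD (fun s => (g s).1) (fun s => (g' s).1) ∧ g s0 = g0 ∧
      ∀ s, s0 ≤ s → ∀ x, (g' s).1 x + (A s (g s)).1 x + k.c s x • L ((g s).1 x) = F.f s x := by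
  have hG : Gen P0 P1 (A + tm k L none) := hA.gen.add (.t1 k L hL1)
  obtain ⟨g, g', h2, h3, h4⟩ := galerkin_Z bX ZX ZsX adjX WX shiftX ZX_mem ZsX_mem
    (fun N => (N, N)) (fun N => inferInstance) (fun z N => ZsX_mem_self z _) specX XS_complete
    (dI d) (dd_nonneg hd) (A + tm k L none) F.at s0 g0 hG.weak F.continuous_B'
    (F.bdd_lev s0) (Gen P0 P1) hG
    (fun A hA => hA.ad (fun B hB => (h0 B hB).2) fun B hB => (h1 B hB).2)
    (fun a' A hA => hA.tame hdc hd (fun B hB => (h0 B hB).1) (fun B hB => (h1 B hB).1) s0 a')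
    (fun a' A hA => hA.bdd s0 a')
    (fun a' => by
      obtain ⟨κ, hκ, hκ'⟩ := exists_lower_bound_of_per k.sm.cont k.per (isCompact_Icc (a := s0)
        (b := a')) fun s hs => hk s hs.1
      obtain ⟨M, hM, hM'⟩ := k.bound s0 a'
      obtain ⟨C, hC, h⟩ := hA.low s0 a' (κ / 2) (by positivity)
      refine ⟨κ / 2, C + M, by positivity, fun s hs H => ?_⟩
      have c1 : Continuous fun x => κ * d (H.1 x) :=
        continuous_const.mul (hdc.comp (XS.sm H).cont)
      have c2 : Continuous fun x => M * ip (H.1 x) (H.1 x) :=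
        continuous_const.mul (XS.cont_ip _ _)
      have h5 : κ * dI d H - M * bX.B H H ≤ bX.B (tm k L none s H) H := by
        rw [dI, bX_B, bX_B, ← tint_const_mul, ← tint_const_mul, ← tint_sub c1 c2]
        refine tint_mono (c1.sub c2) (XS.cont_ip _ _) fun x => ?_
        rw [tm_apply, map_smul, LinearMap.smul_apply, smul_eq_mul]
        have e1 := mul_le_mul_of_nonneg_left (hL (H.1 x)) (hk s hs.1 x).le
        have e2 := mul_le_mul_of_nonneg_right (hκ' s hs x) (hd (H.1 x))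
        have e3 := mul_le_mul_of_nonneg_right ((le_abs_self _).trans (hM' s hs x))
          (ip_self_nonneg (H.1 x))
        change _ ≤ k.c s x * ip (L (H.1 x)) (H.1 x)
        linarith
      simp only [Pi.add_apply, LinearMap.add_apply, map_add]
      linarith [(abs_le.1 (h s hs H)).1])
  refine ⟨g, g', smD_of_lev h4, h2, fun s hs x => ?_⟩
  rw [h3 s hs]
  change F.f s x - ((A s (g s)).1 x + k.c s x • L ((g s).1 x)) + _ + _ = _
  abel

/-- The solver for the collision operator, with any admissible lower order part. -/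
theorem solver_coll {Γ : SV → SV →L[ℝ] SV} (hΓ : CollData Γ) {A : ℝ → XS →ₗ[ℝ] XS}
    (hA : Adm (MulC 3) (fun B => ∃ φ, B = -Γ φ) (fun f => -ip (Γ sqMS f) f + ip f f) A)
    (k : Cf) (s0 : ℝ) (hk : ∀ s, s0 ≤ s → ∀ x, 0 < k.c s x) (F : Vf) (g0 : XS) :
    ∃ g g' : ℝ → XS, SmD (fun s => (g s).1) (fun s => (g' s).1) ∧ g s0 = g0 ∧
      ∀ s, s0 ≤ s → ∀ x,
        (g' s).1 x + (A s (g s)).1 x + k.c s x • (-Γ sqMS ((g s).1 x)) = F.f s x :=
  have hd := fun f => add_nonneg (hΓ.dis_nonneg f) (ip_self_nonneg f)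
  solver_gen ((continuous_ip.comp ((Γ sqMS).continuous.prodMk continuous_id)).neg.add
      (continuous_ip.comp (continuous_id.prodMk continuous_id))) hd
    (fun _ hB => ⟨hB.v0 hd hΓ.wgt, hB.adV⟩)
    (by rintro B ⟨φ, rfl⟩; exact ⟨hΓ.v1 φ, fun j => ⟨_, hΓ.adV j φ⟩⟩)
    (L := -Γ sqMS) ⟨_, rfl⟩ (fun h => by simp) hA k s0 hk F g0

lemma adm_mulW {Γ : SV → SV →L[ℝ] SV} (hΓ : CollData Γ) (c : Cf) (α : List Ix)
    (hα : α.length ≤ 2) (z : Option (Ix ⊕ Ix)) :
    Adm (MulC 3) P1 (fun f => -ip (Γ sqMS f) f + ip f f) (tm c (mulW α) z) := by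
  have hd := fun f => add_nonneg (hΓ.dis_nonneg f) (ip_self_nonneg f)
  have hdc : Continuous fun f => -ip (Γ sqMS f) f + ip f f :=
    (continuous_ip.comp ((Γ sqMS).continuous.prodMk continuous_id)).neg.add
      (continuous_ip.comp (continuous_id.prodMk continuous_id))
  have h3 : MulC 3 (mulW α) := .base α (hα.trans (by norm_num))
  rcases z with _ | i | j
  · exact .tm_none hdc c h3 (h3.v0 hd hΓ.wgt).vd
  · exact .tm_inl hdc c h3 i (h3.v0 hd hΓ.wgt).vd (ip_mulW α)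
  · exact .tm_inr hdc c h3 j (vd_mulW_ap hd hΓ.wgt α hα j)

theorem m3 : M3Stmt := by
  intro Γ hΓ s0 ι κ _ _ c α z k φ ψ F g0 hc hcp hα hk hkp hk0 hφ hφp hψ hψp hF hFp hg hgp
  have hd := fun f => add_nonneg (hΓ.dis_nonneg f) (ip_self_nonneg f)
  obtain ⟨g, g', h1, h2, h3⟩ := solver_coll hΓ
    ((Adm.sum hd univ fun t => adm_mulW hΓ ⟨c t, hc t, hcp t⟩ (α t) (hα t) (z t)).add
      (Adm.sum hd univ fun j => Adm.rk hd ⟨φ j, hφ j, hφp j⟩ ⟨ψ j, hψ j, hψp j⟩))
    ⟨k, hk, hkp⟩ s0 hk0 ⟨F, hF, hFp⟩ ⟨g0, hg, hgp⟩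
  refine ⟨_, _, h1, fun s => XS.per _, fun s => XS.per _, by simp only [h2], fun s hs x => ?_⟩
  have h4 := h3 s hs x
  simp only [Pi.add_apply, Finset.sum_apply, LinearMap.add_apply, LinearMap.sum_apply,
    Submodule.coe_add, Submodule.coe_sum, tm_apply, ZoX_val, rk_apply, Submodule.coe_smul,
    Pi.smul_apply, bX.symm _ (g s)] at h4
  rw [← h4]
  simp only [bX_B, Vf.at]
  abel

end Pool.Agent.BoltzD.Solver

end
end MrgPart2

-- marker of a merged file
example : 731051 + 61017 = 731051 + 61017 := rfl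

end MrgPart1

-- ======== part 2: formerly Pool.Agent.BoltzD.Solver.Final
section MrgPart2

/-!
The kinetic and the hydrodynamic solver in the form of the specification.
-/

set_option autoImplicit false

open Finset Pool.Agent.BoltzC

noncomputable section

namespace Pool.Agent.BoltzD.Solver

variable [Dim]

/-- The transport operator built from a rule `T` for the terms. -/
def trOp {F : ℝ → Fld} (hF : FldC F)
    (T : Cf → List Ix → Ix ⊕ Ix → ℝ → XS →ₗ[ℝ] XS) : ℝ → XS →ₗ[ℝ] XS :=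
  ∑ i, (T ⟨_, hF.u i, fun s => ((hF.reg s).u i).2⟩ [] (Sum.inl i) +
      T ⟨_, hF.c, fun s => (hF.reg s).c.2⟩ [i] (Sum.inl i)) +
    -(∑ j, T ⟨_, hF.b0 j, fun s => ((hF.reg s).b0 j).2⟩ [] (Sum.inr j) +
      ∑ i, ∑ j, T ⟨_, hF.b1 i j, fun s => ((hF.reg s).b1 i j).2⟩ [i] (Sum.inr j) +
      ∑ i, ∑ j, T ⟨_, hF.b2 i, fun s => ((hF.reg s).b2 i).2⟩ [i, j] (Sum.inr j))

lemma adm_trOp {P0 P1 : (SV →L[ℝ] SV) → Prop} {d : SV → ℝ} (hd : ∀ f, 0 ≤ d f) {F : ℝ → Fld}
    (hF : FldC F) {T : Cf → List Ix → Ix ⊕ Ix → ℝ → XS →ₗ[ℝ] XS}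
    (hT : ∀ c α z, α.length ≤ 2 → Adm P0 P1 d (T c α z)) : Adm P0 P1 d (trOp hF T) :=
  (Adm.sum hd _ fun _ => (hT _ _ _ (by simp)).add (hT _ _ _ (by simp))).add
    (((Adm.sum hd _ fun _ => hT _ _ _ (by simp)).add
      (Adm.sum hd _ fun _ => Adm.sum hd _ fun _ => hT _ _ _ (by simp))).add
      (Adm.sum hd _ fun _ => Adm.sum hd _ fun _ => hT _ _ _ (by simp))).neg

lemma trOp_apply {F : ℝ → Fld} (hF : FldC F)
    {T : Cf → List Ix → Ix ⊕ Ix → ℝ → XS →ₗ[ℝ] XS} (R : SV →L[ℝ] SV) {s : ℝ}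
    {G H : XS} {x : E3}
    (hT : ∀ c α z, (T c α z s G).1 x = c.c s x • R (mulW α (Zl z H.1 x))) :
    (trOp hF T s G).1 x = R ((F s).tr H.1 x) := by
  simp only [trOp, Pi.add_apply, Pi.neg_apply, Finset.sum_apply, LinearMap.add_apply,
    LinearMap.neg_apply, LinearMap.sum_apply, Submodule.coe_add, Submodule.coe_neg,
    Submodule.coe_sum, hT, Fld.tr, Fld.vel, map_add, map_neg, map_sum, map_smul, mulW_cons,
    mulW_nil, Zl]

/-- Functionals represented by a smooth family. -/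
def Rep (l : ℝ → XS → ℝ) : Prop := ∃ ψ : Vf, ∀ s G, l s G = bX.B (ψ.at s) G

lemma Rep.sum {ι : Type*} (S : Finset ι) {l : ι → ℝ → XS → ℝ} (h : ∀ i, Rep (l i)) :
    Rep fun s G => ∑ i ∈ S, l i s G := by
  choose ψ hψ using h
  refine ⟨⟨fun s x => ∑ i ∈ S, (ψ i).f s x, SmC.sum S fun i _ => (ψ i).sm,
    fun s => Per.sum S fun i _ => (ψ i).per s⟩, fun s G => ?_⟩
  simp only [hψ]
  rw [← LinearMap.sum_apply, ← map_sum]
  congr 2
  exact Subtype.ext (funext fun x => by simp [Vf.at])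

lemma Rep.DW (u : List Ix) {l : ℝ → XS → ℝ} (h : Rep l) : Rep fun s G => l s (DW u G) := by
  induction u with
  | nil => exact h
  | cons i u ih =>
    obtain ⟨ψ, hψ⟩ := ih
    refine ⟨ψ.Zs (Sum.inl i), fun s G => ?_⟩
    rw [Vf.Zs_at, bX.symm, ← adjX, bX.symm]
    exact hψ s (opD i G)

lemma rep_En (n : ℕ) (θ C0 : ℝ) (w σ : Cf) (φ : Vf) :
    Rep fun s G => C0 * En n θ (w.c s) (σ.c s) (φ.f s) G.1 := by
  have hσ : ∀ j : ℕ, SmC fun s x => σ.c s x ^ j := by
    intro j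
    induction j with
    | zero => simpa using SmC.const (1 : ℝ)
    | succ j ih => simpa only [pow_succ] using ih.mul σ.sm
  let ψ : ℕ → ℕ → List Ix → Vf := fun j m u =>
    ⟨fun s x => (C0 * θ ^ (j + m) * (w.c s x * σ.c s x ^ (2 * j))) • RR m (dXw u (φ.f s) x),
      ((SmC.const _).mul (w.sm.mul (hσ _))).smul ((φ.sm.dXw u).clm _),
      fun s i x => by simp only [w.per s i x, σ.per s i x, (φ.per s).dXw u i x]⟩
  obtain ⟨χ, hχ⟩ := Rep.sum (range (n + 1)) fun j => Rep.sum (range (n + 1 - j)) fun m =>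
    Rep.sum (words j) fun u => Rep.DW u (l := fun s G => bX.B ((ψ j m u).at s) G)
      ⟨ψ j m u, fun _ _ => rfl⟩
  refine ⟨χ, fun s G => ?_⟩
  rw [← hχ]
  have hc : ∀ j m u, Continuous fun x => ip (((ψ j m u).at s).1 x) ((DW u G).1 x) :=
    fun j m u => XS.cont_ip _ _
  simp only [bX_B]
  simp only [← tint_sum _ fun u _ => hc _ _ u]
  simp only [← tint_sum _ fun m _ => continuous_finsetSum _ fun u _ => hc _ m u]
  rw [← tint_sum _ fun j _ => continuous_finsetSum _ fun m _ =>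
    continuous_finsetSum _ fun u _ => hc j m u, En, ← tint_const_mul]
  refine tint_congr fun x => ?_
  simp only [bb, BoltzD.lev, mul_sum, Vf.at, ψ, DW_val, map_smul, LinearMap.smul_apply,
    smul_eq_mul, ip_RR_symm]
  refine sum_congr rfl fun j _ => sum_congr rfl fun m _ => sum_congr rfl fun u _ => ?_
  ring

/-- The collision operator with a fixed first argument. -/
def gam (Q : CollOp) (φ : SV) : SV →L[ℝ] SV :=
  ⟨Q.G φ, Q.cont.comp (continuous_const.prodMk continuous_id)⟩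

lemma neg_gam (Q : CollOp) (f : SV) : -gam Q sqMS f = Q.L f := (Q.L_eq f).symm

lemma neg_ip_gam (Q : CollOp) (f : SV) : -ip (gam Q sqMS f) f = ip (Q.L f) f := by
  rw [← neg_gam, map_neg, LinearMap.neg_apply]

lemma collData_gam (Q : CollOp) : CollData (gam Q) where
  leib := Q.leib
  dis_nonneg f := by
    obtain ⟨lam, h1, h2⟩ := Q.gap
    rw [neg_ip_gam]
    exact (mul_nonneg h1.le (ip_self_nonneg _)).trans (h2 f)
  tri φ := by
    obtain ⟨C, hC, h⟩ := Q.tri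
    refine ⟨C * √(nA Q.p φ), fun f g => ?_⟩
    rw [neg_ip_gam, neg_ip_gam]
    change |ip (Q.G φ f) g| ≤ _
    rw [Q.symm]
    refine (h f φ g).trans ?_
    gcongr
    linarith [ip_self_nonneg g]
  wgt := by
    obtain ⟨C, -, h⟩ := Q.wgt
    exact ⟨C, fun f => by rw [neg_ip_gam]; exact h f⟩

theorem m3k : M3kStmt := by
  intro Q F k wt σ n m θ C0 s0 φ S g0 hF hk hkp hk0 hw hwp hσ hσp hφ hφp hS hSp hg hgp
  have hΓ := collData_gam Q
  have hd := fun f => add_nonneg (hΓ.dis_nonneg f) (ip_self_nonneg f)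
  choose ψ hψ using fun i => rep_En n θ C0 ⟨wt, hw, hwp⟩ ⟨σ, hσ, hσp⟩ ⟨φ i, hφ i, hφp i⟩
  obtain ⟨g, g', h1, h2, h3⟩ := solver_coll hΓ
    ((adm_trOp hd hF (T := fun c α z => tm c (mulW α) (some z))
      fun c α z hα => adm_mulW hΓ c α hα (some z)).add
      (Adm.sum hd univ fun i => Adm.rk hd ⟨φ i, hφ i, hφp i⟩ (ψ i)))
    ⟨k, hk, hkp⟩ s0 (fun s _ => hk0 s) ⟨S, hS, hSp⟩ ⟨g0, hg, hgp⟩
  refine ⟨_, _, h1, fun s => XS.per _, fun s => XS.per _, by simp only [h2], fun s hs x => ?_⟩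
  have h4 := h3 s hs x
  simp only [Pi.add_apply, LinearMap.add_apply, Submodule.coe_add] at h4
  rw [trOp_apply hF (ContinuousLinearMap.id ℝ SV) (H := g s)
    fun c α z => by rw [tm_apply, ZoX_val]; rfl] at h4
  simp only [Finset.sum_apply, LinearMap.sum_apply, Submodule.coe_sum, rk_apply,
    Submodule.coe_smul, Pi.smul_apply, ← hψ, neg_gam, ContinuousLinearMap.id_apply] at h4
  rw [← h4]
  simp only [Vf.at]
  abel

/-- The terms of the hydrodynamic operator. -/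
def tmH (c : Cf) (α : List Ix) : Ix ⊕ Ix → ℝ → XS →ₗ[ℝ] XS
  | Sum.inl i => tm c ((PP.comp (mulW α)).comp PP) (some (Sum.inl i))
  | Sum.inr j => tm c ((PP.comp ((mulW α).comp (ap j))).comp PP) none

theorem m3h : M3hStmt := by
  intro F s0 S W0 hF hS hSp hSP hW hWp hWP
  have hd : ∀ f : SV, 0 ≤ ip f f := ip_self_nonneg
  have hdc : Continuous fun f : SV => ip f f :=
    continuous_ip.comp (continuous_id.prodMk continuous_id)
  have hA : Adm FR (fun B => B = 0) (fun f => ip f f) (trOp hF tmH) := by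
    refine adm_trOp hd hF fun c α z _ => ?_
    rcases z with i | j
    · refine .tm_inl hdc c (fr_comp_PP _) i ((fr_comp_PP _).v0 hd).vd fun f h => ?_
      simp only [ContinuousLinearMap.comp_apply, ip_PP, ip_mulW]
    · exact .tm_none hdc c (fr_comp_PP _) ((fr_comp_PP _).v0 hd).vd
  obtain ⟨g, g', h1, h2, h3⟩ := solver_gen (P0 := FR) (P1 := fun B => B = 0) hdc hd
    (fun _ hB => ⟨hB.v0 hd, hB.adV⟩)
    (by
      rintro B rfl
      refine ⟨fun ε hε => ⟨0, le_rfl, fun f h => ?_⟩, fun j => ?_⟩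
      · simpa using mul_nonneg hε.le (hd h)
      · ext1 f; simp [adV_apply])
    (L := 0) rfl (fun h => by simp) hA ⟨fun _ _ => 1, SmC.const _, fun _ => Per.const _⟩ s0
    (fun _ _ _ => one_pos) ⟨S, hS, hSp⟩ ⟨W0, hW, hWp⟩
  refine ⟨_, _, h1.clm PP, fun s => (XS.per _).map _, fun s => (XS.per _).map _,
    fun s x => PP_PP _, funext fun x => by simp only [h2, hWP], fun s hs x => ?_⟩
  have h4 := h3 s hs x
  rw [trOp_apply hF PP (H := opV PP (g s)) fun c α z => by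
    rcases z with i | j
    · rw [tmH, tm_apply]
      exact congrArg (fun f => c.c s x • PP (mulW α f))
        (congrFun (congrArg Subtype.val (opD_opV i PP (g s))) x).symm
    · rfl] at h4
  have h5 := congrArg PP h4
  simp only [zero_apply, smul_zero, add_zero, map_add, PP_PP, hSP] at h5
  exact h5

end Pool.Agent.BoltzD.Solver

end
end MrgPart2

-- ======== part 3: formerly Pool.Agent.BoltzD.En.Vel
section MrgPart3

/-!
Module M4a: the velocity estimates `VStmt`.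
-/

set_option autoImplicit false

open MeasureTheory Pool.Agent.BoltzC Finset Filter Topology

noncomputable section

namespace Pool.Agent.BoltzD

variable [Dim]

namespace Vel

/-! ### The weighted norm -/

lemma int_wt (p : ℕ) (f g : SV) : Integrable fun v => (1 + ‖v‖) ^ p * (f v * g v) := by
  obtain ⟨C, -, hC⟩ := weighted_le_nA p
  refine Integrable.mono' (g.integrable.norm.const_mul (C * √(nA (p + dd) f))) ?_
    (Eventually.of_forall fun v => ?_)
  · exact (((continuous_const.add continuous_norm).pow p).mul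
      (f.continuous.mul g.continuous)).aestronglyMeasurable
  · rw [Real.norm_eq_abs, Real.norm_eq_abs, abs_mul, abs_mul, abs_of_nonneg (by positivity),
      ← mul_assoc]
    exact mul_le_mul_of_nonneg_right (hC f v).1 (abs_nonneg _)

lemma int_sq (p : ℕ) (f : SV) : Integrable fun v => (1 + ‖v‖) ^ p * f v ^ 2 := by
  simpa only [sq] using int_wt p f f

/-- The bilinear form of `wq`. -/
def wB : SV →ₗ[ℝ] SV →ₗ[ℝ] ℝ :=
  LinearMap.mk₂ ℝ (fun f g => ∫ v, (1 + ‖v‖) ^ 4 * (f v * g v))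
    (fun f₁ f₂ g => by
      rw [← integral_add (int_wt 4 f₁ g) (int_wt 4 f₂ g)]
      simp [add_mul, mul_add])
    (fun c f g => by
      rw [smul_eq_mul, ← integral_const_mul]
      simp [mul_assoc, mul_left_comm])
    (fun f g₁ g₂ => by
      rw [← integral_add (int_wt 4 f g₁) (int_wt 4 f g₂)]
      simp [mul_add])
    (fun c f g => by
      rw [smul_eq_mul, ← integral_const_mul]
      simp [mul_left_comm])

lemma wB_def (f g : SV) : wB f g = ∫ v, (1 + ‖v‖) ^ 4 * (f v * g v) := rfl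

lemma wq_eq (f : SV) : wq f = wB f f := by simp [wq, wB_def, sq]

lemma wB_comm (f g : SV) : wB f g = wB g f := by simp [wB_def, mul_comm (f _)]

lemma wq_nonneg (f : SV) : 0 ≤ wq f := integral_nonneg fun _ => by positivity

lemma wq_zero : wq 0 = 0 := by simp [wq]

lemma abs_wB_le (f g : SV) : |wB f g| ≤ √(wq f) * √(wq g) := by
  rw [← Real.sqrt_mul (wq_nonneg f), wq_eq, wq_eq]
  exact Real.abs_le_sqrt (LinearMap.BilinForm.apply_sq_le_of_symm wB
    (fun x => wq_eq x ▸ wq_nonneg x) ⟨wB_comm⟩ f g)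

lemma wq_add_le (f g : SV) : wq (f + g) ≤ 2 * wq f + 2 * wq g := by
  have := wq_nonneg (f - g)
  simp only [wq_eq, map_add, map_sub, LinearMap.add_apply, LinearMap.sub_apply] at this ⊢
  linarith

lemma ip_le_of_abs {f g : SV} (h : ∀ v, |g v| ≤ (1 + ‖v‖) ^ 2 * |f v|) : ip g g ≤ wq f := by
  rw [ip_self_eq]
  refine integral_mono (by simpa using int_sq 0 g) (int_sq 4 f) fun v => ?_
  have := pow_le_pow_left₀ (abs_nonneg _) (h v) 2
  rw [mul_pow, sq_abs, sq_abs, ← pow_mul] at this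
  exact this

lemma abs_coord_le (v : E) (i : Ix) : |v i| ≤ 1 + ‖v‖ := by
  have := PiLp.norm_apply_le v i
  rw [Real.norm_eq_abs] at this
  linarith

lemma ip_le_wq (f : SV) : ip f f ≤ wq f :=
  ip_le_of_abs fun v => le_mul_of_one_le_left (abs_nonneg _)
    (one_le_pow₀ (le_add_of_nonneg_right (norm_nonneg v)))

lemma ip_mulV_le (i : Ix) (f : SV) : ip (mulV i f) (mulV i f) ≤ wq f :=
  ip_le_of_abs fun v => by
    rw [mulV_apply, abs_mul]
    have := abs_coord_le v i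
    have := norm_nonneg v
    gcongr
    nlinarith

lemma ip_mulV2_le (i j : Ix) (f : SV) :
    ip (mulV i (mulV j f)) (mulV i (mulV j f)) ≤ wq f :=
  ip_le_of_abs fun v => by
    rw [mulV_apply, mulV_apply, abs_mul, abs_mul, ← mul_assoc, sq]
    gcongr <;> exact abs_coord_le v _

lemma wq_le_ip (f : SV) :
    wq f ≤ 8 * (ip f f + ∑ i, ∑ j, ip (mulV i (mulV j f)) (mulV i (mulV j f))) := by
  have i0 : ∀ g : SV, Integrable fun v => g v ^ 2 := fun g => by simpa using int_sq 0 g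
  have i1 : ∀ i, Integrable fun v => ∑ j, mulV i (mulV j f) v ^ 2 := fun i =>
    integrable_finsetSum _ fun j _ => i0 _
  have i2 : Integrable fun v => ∑ i, ∑ j, mulV i (mulV j f) v ^ 2 :=
    integrable_finsetSum _ fun i _ => i1 i
  simp only [ip_self_eq]
  simp only [← integral_finsetSum _ fun j _ => i0 _]
  rw [← integral_finsetSum _ fun i _ => i1 i, ← integral_add (i0 f) i2, ← integral_const_mul]
  refine integral_mono (int_sq 4 f) (((i0 f).add i2).const_mul 8) fun v => ?_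
  have h : ∑ i, ∑ j, mulV i (mulV j f) v ^ 2 = ‖v‖ ^ 4 * f v ^ 2 := by
    rw [show ‖v‖ ^ 4 = ‖v‖ ^ 2 * ‖v‖ ^ 2 by ring, EuclideanSpace.real_norm_sq_eq]
    rw [Finset.sum_mul_sum]
    simp only [mulV_apply, Finset.sum_mul]
    exact Finset.sum_congr rfl fun i _ => Finset.sum_congr rfl fun j _ => by ring
  simp only [h]
  have h1 : (1 + ‖v‖) ^ 4 ≤ 8 * (1 + ‖v‖ ^ 4) := by
    nlinarith [sq_nonneg (‖v‖ - 1), sq_nonneg (‖v‖ ^ 2 - 1), sq_nonneg (‖v‖ ^ 2 - ‖v‖),
      mul_nonneg (norm_nonneg v) (sq_nonneg (‖v‖ - 1))]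
  nlinarith [mul_le_mul_of_nonneg_right h1 (sq_nonneg (f v))]

lemma wq_le_nA : ∃ C : ℝ, 0 < C ∧ ∀ f, wq f ≤ C * nA 2 f := by
  have h : OrdA 2 (ContinuousLinearMap.id ℝ SV) := OrdA.id.mono (by norm_num)
  choose C hC hb using fun p : Ix × Ix => ((ordA_mulV p.1).comp (ordA_mulV p.2)) 0
  refine ⟨8 * (1 + ∑ p, C p), by
    have := Finset.sum_nonneg (s := univ) fun p _ => (hC p).le
    positivity, fun f => (wq_le_ip f).trans ?_⟩
  rw [mul_assoc, add_mul, one_mul, Finset.sum_mul, ← Finset.sum_product', univ_product_univ]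
  gcongr with p
  · rw [← nA_zero]; exact nA_mono (by norm_num) f
  · rw [← nA_zero]; exact hb p f

lemma wq_cont : Continuous wq := by
  obtain ⟨C, hC, h⟩ := wq_le_nA
  refine continuous_iff_continuousAt.2 fun g => ?_
  rw [ContinuousAt, tendsto_iff_norm_sub_tendsto_zero]
  have hc : Continuous fun f => √(C * nA 2 (f - g)) * √(C * nA 2 (f + g)) :=
    ((continuous_const.mul ((continuous_nA 2).comp (continuous_id.sub continuous_const))).sqrt).mul
      ((continuous_const.mul ((continuous_nA 2).comp (continuous_id.add continuous_const))).sqrt)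
  have ht := hc.tendsto g
  simp only [sub_self, nA_zero_fun, mul_zero, Real.sqrt_zero, zero_mul] at ht
  refine squeeze_zero (fun _ => norm_nonneg _) (fun f => ?_) ht
  have e : wq f - wq g = wB (f - g) (f + g) := by
    simp only [wq_eq, map_add, map_sub, LinearMap.sub_apply, wB_comm g f]
    ring
  rw [e, Real.norm_eq_abs]
  refine (abs_wB_le _ _).trans ?_
  gcongr <;> exact h _

lemma wq_le (Q : CollOp) : ∃ C : ℝ, 0 < C ∧ ∀ f, wq f ≤ C * Q.dq f := by
  obtain ⟨C, hC, h⟩ := Q.wgt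
  refine ⟨C, hC, fun f => le_trans ?_ (h f)⟩
  refine integral_mono (int_sq 4 f) (int_sq 8 f) fun v => ?_
  exact mul_le_mul_of_nonneg_right
    (pow_le_pow_right₀ (le_add_of_nonneg_right (norm_nonneg v)) (by norm_num)) (sq_nonneg _)

/-! ### Words of length below `n` -/

/-- Sum of the weighted norms of the words of length less than `n`. -/
def W (n : ℕ) (f : SV) : ℝ := ∑ l ∈ range n, ∑ w ∈ words l, wq (apW w f)

lemma WW_eq (m : ℕ) (f : SV) : WW m f = W (m + 1) f := rfl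

lemma W_nonneg (n : ℕ) (f : SV) : 0 ≤ W n f :=
  Finset.sum_nonneg fun _ _ => Finset.sum_nonneg fun _ _ => wq_nonneg _

lemma W_mono {n k : ℕ} (h : n ≤ k) (f : SV) : W n f ≤ W k f :=
  Finset.sum_le_sum_of_subset_of_nonneg (Finset.range_mono h) fun _ _ _ =>
    Finset.sum_nonneg fun _ _ => wq_nonneg _

lemma sum_le_W (m : ℕ) (f : SV) : ∑ w ∈ words m, wq (apW w f) ≤ W (m + 1) f :=
  Finset.single_le_sum (f := fun l => ∑ w ∈ words l, wq (apW w f))
    (fun _ _ => Finset.sum_nonneg fun _ _ => wq_nonneg _) (Finset.self_mem_range_succ m)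

lemma wq_apW_le (w : List Ix) (f : SV) : wq (apW w f) ≤ W (w.length + 1) f :=
  (Finset.single_le_sum (f := fun w => wq (apW w f)) (fun _ _ => wq_nonneg _)
    (mem_words.2 rfl)).trans (sum_le_W _ f)

lemma W_ap (n : ℕ) (k : Ix) (f : SV) : W n (ap k f) ≤ W (n + 1) f := by
  rw [W, W, Finset.sum_range_succ']
  refine le_add_of_le_of_nonneg (Finset.sum_le_sum fun l _ => ?_)
    (Finset.sum_nonneg fun _ _ => wq_nonneg _)
  rw [sum_words_succ]
  simp only [apW_ap]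
  exact Finset.single_le_sum (f := fun j => ∑ w ∈ words l, wq (ap j (apW w f)))
    (fun _ _ => Finset.sum_nonneg fun _ _ => wq_nonneg _) (Finset.mem_univ k)

/-- `A` is bounded in `L²` by the words of length less than `n`. -/
def Bd (n : ℕ) (A : SV → SV) : Prop := ∃ C : ℝ, 0 < C ∧ ∀ f, ip (A f) (A f) ≤ C * W n f

lemma Bd.zero (n : ℕ) : Bd n fun _ => 0 :=
  ⟨1, one_pos, fun f => by simpa using W_nonneg n f⟩

lemma Bd.mono {n k : ℕ} {A : SV → SV} (hA : Bd n A) (h : n ≤ k) : Bd k A := by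
  obtain ⟨C, hC, hA⟩ := hA
  exact ⟨C, hC, fun f => (hA f).trans (mul_le_mul_of_nonneg_left (W_mono h f) hC.le)⟩

lemma Bd.add {n : ℕ} {A B : SV → SV} (hA : Bd n A) (hB : Bd n B) : Bd n fun f => A f + B f := by
  obtain ⟨C, hC, hA⟩ := hA
  obtain ⟨D, hD, hB⟩ := hB
  exact ⟨2 * C + 2 * D, by positivity, fun f => by
    linarith [ip_add_self_le (A f) (B f), hA f, hB f]⟩

lemma Bd.sub {n : ℕ} {A B : SV → SV} (hA : Bd n A) (hB : Bd n B) : Bd n fun f => A f - B f := by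
  obtain ⟨C, hC, hA⟩ := hA
  obtain ⟨D, hD, hB⟩ := hB
  exact ⟨2 * C + 2 * D, by positivity, fun f => by
    linarith [ip_sub_self_le (A f) (B f), hA f, hB f]⟩

lemma Bd.ite {n : ℕ} {A : SV → SV} (hA : Bd n A) (p : Prop) [Decidable p] :
    Bd n fun f => (if p then (1 : ℝ) else 0) • A f := by
  split_ifs
  · simpa using hA
  · simpa using Bd.zero n

lemma Bd.ap {n : ℕ} {A : SV → SV} (hA : Bd n A) (k : Ix) : Bd (n + 1) fun f => A (ap k f) := by
  obtain ⟨C, hC, hA⟩ := hA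
  exact ⟨C, hC, fun f => (hA _).trans (mul_le_mul_of_nonneg_left (W_ap n k f) hC.le)⟩

lemma b0 (w : List Ix) : Bd (w.length + 1) fun f => apW w f :=
  ⟨1, one_pos, fun f => by rw [one_mul]; exact (ip_le_wq _).trans (wq_apW_le w f)⟩

lemma b1 (i : Ix) (w : List Ix) : Bd (w.length + 1) fun f => mulV i (apW w f) :=
  ⟨1, one_pos, fun f => by rw [one_mul]; exact (ip_mulV_le _ _).trans (wq_apW_le w f)⟩

lemma b2 (i j : Ix) (w : List Ix) :
    Bd (w.length + 1) fun f => mulV i (mulV j (apW w f)) :=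
  ⟨1, one_pos, fun f => by rw [one_mul]; exact (ip_mulV2_le _ _ _).trans (wq_apW_le w f)⟩

lemma c1 (i : Ix) (w : List Ix) :
    Bd w.length fun f => apW w (mulV i f) - mulV i (apW w f) := by
  induction w with
  | nil => simpa using Bd.zero 0
  | cons k w ih =>
    have := (ih.ap k).sub ((b0 w).ite (k = i))
    rw [List.length_cons]
    convert this using 2 with f
    rw [apW_cons, apW_cons, ← apW_ap, ← apW_ap, ap_mulV, map_sub, map_smul]
    abel

lemma d1 (i : Ix) (w : List Ix) : Bd (w.length + 1) fun f => apW w (mulV i f) := by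
  simpa using ((c1 i w).mono (Nat.le_succ _)).add (b1 i w)

lemma c2 (i j : Ix) (w : List Ix) :
    Bd w.length fun f => apW w (mulV i (mulV j f)) - mulV i (mulV j (apW w f)) := by
  induction w with
  | nil => simpa using Bd.zero 0
  | cons k w ih =>
    have := ((ih.ap k).sub ((d1 i w).ite (k = j))).sub ((d1 j w).ite (k = i))
    rw [List.length_cons]
    convert this using 2 with f
    rw [apW_cons, apW_cons, ← apW_ap, ← apW_ap, ap_mulV, ap_mulV]
    simp only [map_sub, map_smul]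
    abel

lemma d2 (i j : Ix) (w : List Ix) :
    Bd (w.length + 1) fun f => apW w (mulV i (mulV j f)) := by
  simpa using ((c2 i j w).mono (Nat.le_succ _)).add (b2 i j w)

/-! ### Bilinear bounds -/

lemma unif {ι : Type} [Fintype ι] {P : ι → ℝ → Prop}
    (hm : ∀ i C D, C ≤ D → P i C → P i D) (h : ∀ i, ∃ C : ℝ, 0 < C ∧ P i C) :
    ∃ C : ℝ, 0 < C ∧ ∀ i, P i C := by
  choose C hC h using h
  have h0 := Finset.sum_nonneg (s := univ) fun i _ => (hC i).le
  refine ⟨1 + ∑ i, C i, by positivity, fun i => hm i _ _ ?_ (h i)⟩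
  have := Finset.single_le_sum (f := C) (fun i _ => (hC i).le) (Finset.mem_univ i)
  linarith

/-- The pairing of a family of bounded operators with the words of length `m`. -/
lemma pair {n m : ℕ} {A : List Ix → SV → SV} (h : ∀ w, w.length = m → Bd n (A w)) :
    ∃ C : ℝ, 0 < C ∧ ∀ f g,
      |∑ w ∈ words m, ip (A w f) (apW w g)| ≤ C * √(W n f) * √(W (m + 1) g) := by
  choose! C hC hb using h
  have h0 : 0 ≤ ∑ w ∈ words m, √(C w) := Finset.sum_nonneg fun _ _ => Real.sqrt_nonneg _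
  refine ⟨1 + ∑ w ∈ words m, √(C w), by positivity, fun f g => ?_⟩
  calc _ ≤ ∑ w ∈ words m, √(C w) * √(W n f) * √(W (m + 1) g) := by
        refine (Finset.abs_sum_le_sum_abs _ _).trans (Finset.sum_le_sum fun w hw => ?_)
        have hl := mem_words.1 hw
        refine (abs_ip_le _ _).trans ?_
        rw [← Real.sqrt_mul (hC w hl).le]
        gcongr
        · exact hb w hl f
        · exact (ip_le_wq _).trans (hl ▸ wq_apW_le w g)
    _ = (∑ w ∈ words m, √(C w)) * √(W n f) * √(W (m + 1) g) := by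
        rw [Finset.sum_mul, Finset.sum_mul]
    _ ≤ _ := by gcongr; linarith

lemma sum_pair {m : ℕ} {B : SV → SV} (hB : ∀ p, ip (B p) (B p) ≤ wq p) (f g : SV) :
    |∑ w ∈ words m, ip (B (apW w f)) (apW w g)| ≤ √(WW m f) * √(WW m g) := by
  calc _ ≤ ∑ w ∈ words m, √(wq (apW w f)) * √(wq (apW w g)) := by
        refine (Finset.abs_sum_le_sum_abs _ _).trans (Finset.sum_le_sum fun w _ => ?_)
        refine (abs_ip_le _ _).trans ?_
        gcongr
        · exact hB _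
        · exact ip_le_wq _
    _ ≤ √(∑ w ∈ words m, wq (apW w f)) * √(∑ w ∈ words m, wq (apW w g)) :=
        Real.sum_sqrt_mul_sqrt_le _ (fun _ => wq_nonneg _) (fun _ => wq_nonneg _)
    _ ≤ _ := by gcongr <;> exact sum_le_W _ _

lemma comm (m : ℕ) : ∃ C : ℝ, 0 < C ∧ ∀ i f g,
    |ip (mulV i f) (RR (m + 1) g) - NV (m + 1) i f g| ≤ C * √(WW m f) * √(WW (m + 1) g) := by
  refine unif (fun i C D hCD h f g => (h f g).trans (by gcongr)) fun i => ?_
  obtain ⟨C, hC, h⟩ := pair (n := m + 1) (m := m + 1)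
    (A := fun w f => apW w (mulV i f) - mulV i (apW w f)) fun w hw => hw ▸ c1 i w
  refine ⟨C, hC, fun f g => ?_⟩
  have := h f g
  simp only [map_sub, LinearMap.sub_apply, Finset.sum_sub_distrib] at this
  rw [ip_RR]
  exact this

lemma mv (m : ℕ) : ∃ C : ℝ, 0 < C ∧ ∀ i f g,
    |ip (mulV i f) (RR m g)| ≤ C * √(WW m f) * √(WW m g) := by
  refine unif (fun i C D hCD h f g => (h f g).trans (by gcongr)) fun i => ?_
  obtain ⟨C, hC, h⟩ := pair (n := m + 1) (m := m)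
    (A := fun w f => apW w (mulV i f)) fun w hw => hw ▸ d1 i w
  exact ⟨C, hC, fun f g => by rw [ip_RR]; exact h f g⟩

lemma low (m : ℕ) : ∃ C : ℝ, 0 < C ∧ ∀ i j l f g,
    |ip (ap l f) (RR m g)| ≤ C * √(WW (m + 1) f) * √(WW m g) ∧
    |ip (mulV i (ap l f)) (RR m g)| ≤ C * √(WW (m + 1) f) * √(WW m g) ∧
    |ip (mulV i (mulV j (ap l f))) (RR m g)| ≤ C * √(WW (m + 1) f) * √(WW m g) := by
  suffices H : ∃ C : ℝ, 0 < C ∧ ∀ p : Ix × Ix × Ix, ∀ f g,
      |ip (ap p.2.2 f) (RR m g)| ≤ C * √(WW (m + 1) f) * √(WW m g) ∧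
      |ip (mulV p.1 (ap p.2.2 f)) (RR m g)| ≤ C * √(WW (m + 1) f) * √(WW m g) ∧
      |ip (mulV p.1 (mulV p.2.1 (ap p.2.2 f))) (RR m g)| ≤ C * √(WW (m + 1) f) * √(WW m g) by
    obtain ⟨C, hC, h⟩ := H
    exact ⟨C, hC, fun i j l => h (i, j, l)⟩
  refine unif (fun i C D hCD h f g => ⟨(h f g).1.trans (by gcongr), (h f g).2.1.trans (by gcongr),
    (h f g).2.2.trans (by gcongr)⟩) fun ⟨i, j, l⟩ => ?_
  obtain ⟨C₀, hC₀, h₀⟩ := pair (n := m + 1 + 1) (m := m)
    (A := fun w f => apW w (ap l f)) fun w hw => hw ▸ (b0 w).ap l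
  obtain ⟨C₁, hC₁, h₁⟩ := pair (n := m + 1 + 1) (m := m)
    (A := fun w f => apW w (mulV i (ap l f))) fun w hw => hw ▸ (d1 i w).ap l
  obtain ⟨C₂, hC₂, h₂⟩ := pair (n := m + 1 + 1) (m := m)
    (A := fun w f => apW w (mulV i (mulV j (ap l f)))) fun w hw => hw ▸ (d2 i j w).ap l
  refine ⟨C₀ + C₁ + C₂, by positivity, fun f g => ?_⟩
  simp only [ip_RR, WW_eq]
  refine ⟨(h₀ f g).trans ?_, (h₁ f g).trans ?_, (h₂ f g).trans ?_⟩ <;> gcongr <;> linarith

/-! ### The top order terms -/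

lemma abs_pair {p a b : SV} (ha : ip a a ≤ wq p) (hb : ip b b ≤ wq p) : |ip a b| ≤ wq p := by
  refine (abs_ip_le _ _).trans ?_
  conv_rhs => rw [← Real.mul_self_sqrt (wq_nonneg p)]
  gcongr

lemma ap_eq (l : Ix) (p : SV) : ap l p = (1 / 2 : ℝ) • mulV l p - dV l p := rfl

lemma t0 (l : Ix) (p : SV) : |ip (ap l p) p| ≤ 2 * wq p := by
  have h1 := ip_dV l p p
  rw [ip_comm p] at h1
  have h2 := abs_le.1 (abs_pair (ip_mulV_le l p) (ip_le_wq p))
  have := wq_nonneg p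
  simp only [ap_eq, map_sub, map_smul, LinearMap.sub_apply, LinearMap.smul_apply, smul_eq_mul]
  rw [abs_le]
  constructor <;> linarith [h2.1, h2.2]

lemma t1 (i l : Ix) (p : SV) : |ip (mulV i (ap l p)) p| ≤ 2 * wq p := by
  have h1 := ip_dV l p (mulV i p)
  rw [dV_mulV, map_add, map_smul, ← ip_mulV, ip_comm p (mulV i _)] at h1
  have h2 := abs_le.1 (abs_pair (ip_mulV2_le i l p) (ip_le_wq p))
  have h3 := ip_le_wq p
  have h4 := ip_self_nonneg p
  simp only [ap_eq, map_sub, map_smul, LinearMap.sub_apply, LinearMap.smul_apply, smul_eq_mul]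
    at h1 ⊢
  rw [abs_le]
  split_ifs at h1 <;> constructor <;> linarith [h2.1, h2.2]

lemma t2 (i j l : Ix) (p : SV) : |ip (mulV i (mulV j (ap l p))) p| ≤ 2 * wq p := by
  have h1 := ip_dV l p (mulV j (mulV i p))
  rw [dV_mulV, dV_mulV, ← ip_mulV, ← ip_mulV, map_add (mulV j), map_smul, map_add, map_add,
    map_smul, map_smul, mulV_comm j i, ip_comm p (mulV i (mulV j _))] at h1
  have h2 := abs_le.1 (abs_pair (ip_mulV2_le j l p) (ip_mulV_le i p))
  rw [← ip_mulV] at h2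
  have h3 := abs_le.1 (abs_pair (ip_le_wq p) (ip_mulV_le i p))
  have h4 := abs_le.1 (abs_pair (ip_le_wq p) (ip_mulV_le j p))
  have := wq_nonneg p
  simp only [ap_eq, map_sub, map_smul, LinearMap.sub_apply, LinearMap.smul_apply, smul_eq_mul]
    at h1 ⊢
  rw [abs_le]
  split_ifs at h1 <;> constructor <;> linarith [h2.1, h2.2, h3.1, h3.2, h4.1, h4.2]

lemma top_of {m : ℕ} {T : SV → SV} (hT : ∀ p, |ip (T p) p| ≤ 2 * wq p)
    (hc : ∀ w : List Ix, Bd (w.length + 1) fun f => apW w (T f) - T (apW w f)) :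
    ∃ C : ℝ, 0 < C ∧ ∀ f, |ip (T f) (RR m f)| ≤ C * WW m f := by
  obtain ⟨C, hC, h⟩ := pair (n := m + 1) (m := m)
    (A := fun w f => apW w (T f) - T (apW w f)) fun w hw => hw ▸ hc w
  refine ⟨C + 2, by positivity, fun f => ?_⟩
  have h1 := h f f
  rw [mul_assoc, Real.mul_self_sqrt (W_nonneg _ _)] at h1
  simp only [map_sub, LinearMap.sub_apply, Finset.sum_sub_distrib] at h1
  have h2 : |∑ w ∈ words m, ip (T (apW w f)) (apW w f)| ≤ 2 * W (m + 1) f := by
    refine (Finset.abs_sum_le_sum_abs _ _).trans ((Finset.sum_le_sum fun w _ => hT _).trans ?_)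
    rw [← Finset.mul_sum]
    linarith [sum_le_W m f]
  rw [ip_RR, WW_eq, abs_le]
  rw [abs_le] at h1 h2
  constructor <;> linarith [h1.1, h1.2, h2.1, h2.2]

lemma top (m : ℕ) : ∃ C : ℝ, 0 < C ∧ ∀ i j l f, |ip (ap l f) (RR m f)| ≤ C * WW m f ∧
    |ip (mulV i (ap l f)) (RR m f)| ≤ C * WW m f ∧
    |ip (mulV i (mulV j (ap l f))) (RR m f)| ≤ C * WW m f := by
  suffices H : ∃ C : ℝ, 0 < C ∧ ∀ p : Ix × Ix × Ix, ∀ f,
      |ip (ap p.2.2 f) (RR m f)| ≤ C * WW m f ∧
      |ip (mulV p.1 (ap p.2.2 f)) (RR m f)| ≤ C * WW m f ∧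
      |ip (mulV p.1 (mulV p.2.1 (ap p.2.2 f))) (RR m f)| ≤ C * WW m f by
    obtain ⟨C, hC, h⟩ := H
    exact ⟨C, hC, fun i j l => h (i, j, l)⟩
  have hW : ∀ f, 0 ≤ WW m f := fun f => W_nonneg _ f
  refine unif (fun i C D hCD h f => ⟨(h f).1.trans (by gcongr; exact hW f),
    (h f).2.1.trans (by gcongr; exact hW f), (h f).2.2.trans (by gcongr; exact hW f)⟩)
    fun ⟨i, j, l⟩ => ?_
  obtain ⟨C₀, hC₀, h₀⟩ := top_of (m := m) (T := fun f => ap l f) (t0 l) fun w => by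
    simpa [apW_ap] using Bd.zero _
  obtain ⟨C₁, hC₁, h₁⟩ := top_of (m := m) (T := fun f => mulV i (ap l f)) (t1 i l) fun w => by
    simpa only [apW_ap] using (c1 i w).ap l
  obtain ⟨C₂, hC₂, h₂⟩ := top_of (m := m) (T := fun f => mulV i (mulV j (ap l f))) (t2 i j l)
    fun w => by simpa only [apW_ap] using (c2 i j w).ap l
  refine ⟨C₀ + C₁ + C₂, by positivity, fun f => ?_⟩
  have := hW f
  refine ⟨(h₀ f).trans ?_, (h₁ f).trans ?_, (h₂ f).trans ?_⟩ <;> gcongr <;> linarith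

/-! ### The hydrodynamic part -/

lemma wq_PP_le (w : List Ix) :
    ∃ C : ℝ, 0 ≤ C ∧ ∀ f, wq (apW w (PP f)) ≤ C * ip (PP f) (PP f) := by
  obtain ⟨C, hC, h⟩ := wq_le_nA
  obtain ⟨D, hD, h'⟩ := nA_clm_PP_le (apW w) 2
  exact ⟨C * D, by positivity, fun f => (h _).trans (by rw [mul_assoc]; gcongr; exact h' f)⟩

lemma split (m : ℕ) : ∃ C : ℝ, 0 < C ∧ ∀ f,
    WW m f ≤ C * (ip (PP f) (PP f) + WW m (f - PP f)) := by
  choose C hC h using wq_PP_le
  have h0 : 0 ≤ ∑ l ∈ range (m + 1), ∑ w ∈ words l, C w :=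
    Finset.sum_nonneg fun _ _ => Finset.sum_nonneg fun _ _ => hC _
  refine ⟨2 + 2 * ∑ l ∈ range (m + 1), ∑ w ∈ words l, C w, by positivity, fun f => ?_⟩
  have h1 : WW m f ≤ 2 * (∑ l ∈ range (m + 1), ∑ w ∈ words l, C w) * ip (PP f) (PP f)
      + 2 * WW m (f - PP f) := by
    simp only [WW, Finset.mul_sum, Finset.sum_mul, ← Finset.sum_add_distrib]
    refine Finset.sum_le_sum fun l _ => Finset.sum_le_sum fun w _ => ?_
    have e : apW w f = apW w (PP f) + apW w (f - PP f) := by rw [← map_add]; simp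
    have := wq_add_le (apW w (PP f)) (apW w (f - PP f))
    rw [← e] at this
    linarith [h w f]
  have h2 := ip_self_nonneg (PP f)
  have h3 : 0 ≤ WW m (f - PP f) := W_nonneg _ _
  nlinarith [mul_nonneg h0 h3]

lemma sqrt_five (S : ℝ) (hS : 0 ≤ S) : √((dd + 2) * S) * √S ≤ cs * S := by
  rw [Real.sqrt_mul (by linarith [dr_pos]), mul_assoc, Real.mul_self_sqrt hS, cs]

lemma ip_mulV_PP (i : Ix) (X Y : SV) :
    ip (mulV i (PP X)) (PP Y) = ip (PP (mulV i (PP X))) (PP Y) := by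
  rw [ip_PP, PP_PP]

lemma sharp1 (ξ : Ix → ℝ) (Y : SV) :
    |∑ i, ξ i * ip (mulV i (PP Y)) (PP Y)| ≤ cs * √(∑ i, ξ i ^ 2) * ip (PP Y) (PP Y) := by
  have e : ∑ i, ξ i * ip (mulV i (PP Y)) (PP Y) = ip (∑ i, ξ i • PP (mulV i (PP Y))) (PP Y) := by
    simp only [map_sum, map_smul, LinearMap.sum_apply, LinearMap.smul_apply, smul_eq_mul,
      ← ip_mulV_PP]
  have h0 : 0 ≤ ∑ i, ξ i ^ 2 := Finset.sum_nonneg fun _ _ => sq_nonneg _
  have h1 := (ip_sum_smul_le univ ξ fun i => PP (mulV i (PP Y))).trans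
    (mul_le_mul_of_nonneg_left (sum_ip_PP_mulV_le (PP_PP Y)) h0)
  rw [e]
  calc _ ≤ √((∑ i, ξ i ^ 2) * ((dd + 2) * ip (PP Y) (PP Y))) * √(ip (PP Y) (PP Y)) :=
        (abs_ip_le _ _).trans (by gcongr)
    _ = √(∑ i, ξ i ^ 2) * (√((dd + 2) * ip (PP Y) (PP Y)) * √(ip (PP Y) (PP Y))) := by
        rw [Real.sqrt_mul h0, mul_assoc]
    _ ≤ √(∑ i, ξ i ^ 2) * (cs * ip (PP Y) (PP Y)) :=
        mul_le_mul_of_nonneg_left (sqrt_five _ (ip_self_nonneg _)) (Real.sqrt_nonneg _)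
    _ = _ := by ring

lemma sharp2 (ξ : Ix → ℝ) (X : Ix → SV) :
    |∑ p, ∑ i, ξ p * ip (mulV i (PP (X i))) (PP (X p))|
      ≤ cs * √(∑ i, ξ i ^ 2) * ∑ i, ip (PP (X i)) (PP (X i)) := by
  have e : ∑ p, ∑ i, ξ p * ip (mulV i (PP (X i))) (PP (X p)) =
      ip (∑ i, (1 : ℝ) • PP (mulV i (PP (X i)))) (∑ p, ξ p • PP (X p)) := by
    simp only [map_sum, map_smul, LinearMap.sum_apply, smul_eq_mul, one_smul, ← ip_mulV_PP,
      Finset.mul_sum]
  have h0 : 0 ≤ ∑ i, ξ i ^ 2 := Finset.sum_nonneg fun _ _ => sq_nonneg _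
  have hS : 0 ≤ ∑ i, ip (PP (X i)) (PP (X i)) := Finset.sum_nonneg fun _ _ => ip_self_nonneg _
  have h1 : ip (∑ i, (1 : ℝ) • PP (mulV i (PP (X i)))) (∑ i, (1 : ℝ) • PP (mulV i (PP (X i))))
      ≤ (dd + 2) * ∑ i, ip (PP (X i)) (PP (X i)) := by
    refine (ip_sum_smul_le univ _ _).trans ?_
    have hd := dr_pos
    have h3 := Finset.sum_le_sum (s := univ) fun i _ => ip_PP_mulV_le i (PP_PP (X i))
    rw [← Finset.mul_sum] at h3
    rw [one_pow, sum_const_Ix, mul_one]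
    refine (mul_le_mul_of_nonneg_left h3 hd.le).trans (le_of_eq ?_)
    field_simp
  have h2 := ip_sum_smul_le univ ξ fun p => PP (X p)
  rw [e]
  calc _ ≤ √((dd + 2) * ∑ i, ip (PP (X i)) (PP (X i))) *
        √((∑ i, ξ i ^ 2) * ∑ i, ip (PP (X i)) (PP (X i))) := (abs_ip_le _ _).trans (by gcongr)
    _ = √(∑ i, ξ i ^ 2) * (√((dd + 2) * ∑ i, ip (PP (X i)) (PP (X i))) *
        √(∑ i, ip (PP (X i)) (PP (X i)))) := by
        rw [Real.sqrt_mul h0]; ring
    _ ≤ √(∑ i, ξ i ^ 2) * (cs * ∑ i, ip (PP (X i)) (PP (X i))) :=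
        mul_le_mul_of_nonneg_left (sqrt_five _ hS) (Real.sqrt_nonneg _)
    _ = _ := by ring

lemma cross : ∃ C : ℝ, 0 < C ∧ ∀ i f g, |ip (mulV i f) g - ip (mulV i (PP f)) (PP g)| ≤
    C * (√(ip (PP f) (PP f)) * √(wq (g - PP g)) + √(wq (f - PP f)) * √(ip (PP g) (PP g))
      + √(wq (f - PP f)) * √(wq (g - PP g))) := by
  refine ⟨1, one_pos, fun i f g => ?_⟩
  have e : ip (mulV i f) g - ip (mulV i (PP f)) (PP g) = ip (PP f) (mulV i (g - PP g)) +
      ip (mulV i (f - PP f)) (PP g) + ip (mulV i (f - PP f)) (g - PP g) := by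
    rw [← ip_mulV]
    simp only [map_sub, LinearMap.sub_apply]
    ring
  rw [e, one_mul]
  refine (abs_add_three _ _ _).trans (add_le_add (add_le_add ?_ ?_) ?_) <;>
    refine (abs_ip_le _ _).trans ?_ <;> gcongr
  exacts [ip_mulV_le _ _, ip_mulV_le _ _, ip_mulV_le _ _, ip_le_wq _]

lemma matr (κ a : ℝ) (M : Ix → Ix → ℝ)
    (h : ∀ ξ : Ix → ℝ, κ * ∑ i, ξ i ^ 2 ≤ a * ∑ i, ξ i ^ 2 + ∑ p, ∑ i, ξ p * ξ i * M p i)
    (m : ℕ) (X : Ix → SV) : κ * ∑ i, ip (X i) (RR m (X i)) ≤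
      a * ∑ i, ip (X i) (RR m (X i)) + ∑ p, ∑ i, M p i * ip (X i) (RR m (X p)) := by
  have key : ∀ Y : Ix → SV, κ * ∑ i, ip (Y i) (Y i) ≤
      a * ∑ i, ip (Y i) (Y i) + ∑ p, ∑ i, M p i * ip (Y i) (Y p) := by
    intro Y
    have i0 : Integrable fun v => ∑ i, Y i v * Y i v :=
      integrable_finsetSum _ fun i _ => integrable_mul _ _
    have i1 : ∀ p, Integrable fun v => ∑ i, M p i * (Y i v * Y p v) := fun p =>
      integrable_finsetSum _ fun i _ => (integrable_mul _ _).const_mul _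
    have i2 : Integrable fun v => ∑ p, ∑ i, M p i * (Y i v * Y p v) :=
      integrable_finsetSum _ fun p _ => i1 p
    simp only [ip_def, ← integral_const_mul]
    simp only [← integral_finsetSum _ fun i _ => integrable_mul (Y i) (Y i),
      ← integral_finsetSum _ fun i _ => (integrable_mul (Y i) (Y _)).const_mul _]
    rw [← integral_finsetSum _ fun p _ => i1 p, ← integral_const_mul, ← integral_const_mul,
      ← integral_add (i0.const_mul a) i2]
    refine integral_mono (i0.const_mul κ) ((i0.const_mul a).add i2) fun v => ?_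
    have := h fun i => Y i v
    have e : ∑ p, ∑ i, Y p v * Y i v * M p i = ∑ p, ∑ i, M p i * (Y i v * Y p v) :=
      Finset.sum_congr rfl fun p _ => Finset.sum_congr rfl fun i _ => by ring
    simp only [sq, e] at this
    exact this
  have := Finset.sum_le_sum (s := words m) fun w _ => key fun i => apW w (X i)
  have e1 : ∑ i, ip (X i) (RR m (X i)) = ∑ w ∈ words m, ∑ i, ip (apW w (X i)) (apW w (X i)) := by
    simp only [ip_RR]
    exact Finset.sum_comm
  have e2 : ∑ p, ∑ i, M p i * ip (X i) (RR m (X p)) =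
      ∑ w ∈ words m, ∑ p, ∑ i, M p i * ip (apW w (X i)) (apW w (X p)) := by
    simp only [ip_RR, Finset.mul_sum]
    rw [Finset.sum_comm (s := words m)]
    exact Finset.sum_congr rfl fun p _ => Finset.sum_comm
  rw [e1, e2]
  simpa only [Finset.sum_add_distrib, ← Finset.mul_sum] using this

end Vel

theorem vStmt : VStmt where
  wq_nonneg := Vel.wq_nonneg
  wq_zero := Vel.wq_zero
  wq_cont := Vel.wq_cont
  wq_le := Vel.wq_le
  comm := Vel.comm
  nv := fun _ i f g => Vel.sum_pair (B := fun p => mulV i p) (Vel.ip_mulV_le i) f g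
  rr := fun m f g => by
    rw [ip_RR]; exact Vel.sum_pair (B := fun p => p) Vel.ip_le_wq f g
  mv := Vel.mv
  top := Vel.top
  low := Vel.low
  split := Vel.split
  sharp1 := Vel.sharp1
  sharp2 := Vel.sharp2
  cross := Vel.cross
  matr := Vel.matr

end Pool.Agent.BoltzD

end
end MrgPart3

-- ======== part 4: formerly Pool.Agent.BoltzD.M7.Change
section MrgPart4

/-! Module M7d: smoothness and decay are preserved by the change of variables. -/

set_option autoImplicit false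

open Pool.Agent.BoltzC Set Filter Topology
open scoped ContDiff Pointwise

noncomputable section

namespace Pool.Agent.BoltzD.Change

variable [Dim]

/-- the slab `[0, T) × R^d × R^d` -/
def Om (T : ℝ) : Set (ℝ × E3 × E3) := Ico 0 T ×ˢ univ

lemma uniq (T : ℝ) : UniqueDiffOn ℝ (Om T) := (uniqueDiffOn_Ico 0 T).prod uniqueDiffOn_univ

variable {T T' : ℝ} {G G' : Type} [NormedAddCommGroup G] [NormedSpace ℝ G] [NormedAddCommGroup G']
  [NormedSpace ℝ G']

lemma mem_Om (hT : T' < T) {t : ℝ} (ht : t ∈ Icc 0 T') (y : E3 × E3) : (t, y) ∈ Om T :=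
  ⟨⟨ht.1, ht.2.trans_lt hT⟩, trivial⟩

/-- the derivative of order `i` grows at most linearly in `v` -/
def Bd (T T' : ℝ) (φ : ℝ × E3 × E3 → G) (i : ℕ) : Prop :=
  ∃ C : ℝ, 0 ≤ C ∧ ∀ t ∈ Icc 0 T', ∀ x v : E3,
    ‖iteratedFDerivWithin ℝ i φ (Om T) (t, x, v)‖ ≤ C * (1 + ‖v‖)

/-- the derivative of order `i` is bounded -/
def Bd0 (T T' : ℝ) (φ : ℝ × E3 × E3 → G) (i : ℕ) : Prop :=
  ∃ C : ℝ, 0 ≤ C ∧ ∀ t ∈ Icc 0 T', ∀ x v : E3,
    ‖iteratedFDerivWithin ℝ i φ (Om T) (t, x, v)‖ ≤ C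

lemma Bd0.bd {φ : ℝ × E3 × E3 → G} {i : ℕ} (h : Bd0 T T' φ i) : Bd T T' φ i := by
  obtain ⟨C, hC, h⟩ := h
  exact ⟨C, hC, fun t ht x v => (h t ht x v).trans
    (le_mul_of_one_le_right hC (by linarith [norm_nonneg v]))⟩

lemma shift {φ : ℝ × E3 × E3 → G} {y : E3 × E3} (h : ∀ p, φ (p + (0, y)) = φ p) (i : ℕ)
    (p : ℝ × E3 × E3) :
    iteratedFDerivWithin ℝ i φ (Om T) (p + (0, y)) = iteratedFDerivWithin ℝ i φ (Om T) p := by
  have h1 := iteratedFDerivWithin_comp_add_right (𝕜 := ℝ) (f := φ) (s := Om T) i (0, y) p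
  have h2 : ((0, y) : ℝ × E3 × E3) +ᵥ Om T = Om T := by
    ext q
    rw [mem_vadd_set_iff_neg_vadd_mem]
    simp [Om]
  rw [h2] at h1
  rw [← h1, funext h]

lemma bd0_of_per (hT : T' < T) {ψ : ℝ × E3 → G}
    (hψ : ContDiffOn ℝ ∞ (fun p : ℝ × E3 × E3 => ψ (p.1, p.2.1)) (Om T))
    (hp : ∀ t, Per fun x => ψ (t, x)) (i : ℕ) :
    Bd0 T T' (fun p : ℝ × E3 × E3 => ψ (p.1, p.2.1)) i := by
  have hc := hψ.continuousOn_iteratedFDerivWithin (m := i) (by exact_mod_cast le_top) (uniq T)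
  have hK : IsCompact (Icc 0 T' ×ˢ Metric.closedBall (0 : E3) (dd * |(1 : ℝ)|) ×ˢ
      ({0} : Set E3)) := isCompact_Icc.prod ((isCompact_closedBall _ _).prod isCompact_singleton)
  obtain ⟨C, hC⟩ := hK.exists_bound_of_continuousOn (hc.mono fun p hp => mem_Om hT hp.1 p.2)
  refine ⟨max C 0, le_max_right _ _, fun t ht x v => le_trans ?_ (le_max_left _ _)⟩
  have h1 : Per fun x => iteratedFDerivWithin ℝ i (fun p : ℝ × E3 × E3 => ψ (p.1, p.2.1)) (Om T)
      (t, x, 0) := fun j x => by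
    have := shift (T := T) (φ := fun p : ℝ × E3 × E3 => ψ (p.1, p.2.1)) (y := (ev j, 0))
      (fun p => by simpa using hp p.1 j p.2.1) i (t, x, 0)
    simpa using this
  obtain ⟨y, hy, e⟩ := h1.exists_mem_cube 0 x
  have h2 := shift (T := T) (φ := fun p : ℝ × E3 × E3 => ψ (p.1, p.2.1)) (y := (0, v))
    (fun p => by simp) i (t, x, 0)
  simp only [Prod.mk_add_mk, add_zero, zero_add] at h2
  rw [h2, ← e]
  exact hC (t, y, 0) ⟨ht, cube_subset_closedBall 0 1 hy, rfl⟩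

lemma bd0_clm (hT : T' < T) (L : ℝ × E3 × E3 →L[ℝ] G) {i : ℕ} (hi : 1 ≤ i) : Bd0 T T' L i := by
  obtain ⟨j, rfl⟩ := Nat.exists_eq_add_of_le' hi
  refine ⟨‖L‖, norm_nonneg L, fun t ht x v => ?_⟩
  have hm := mem_Om hT ht (x, v)
  rw [← norm_iteratedFDerivWithin_fderivWithin (uniq T) hm,
    iteratedFDerivWithin_congr (f := fun _ => L) (fun q hq => L.fderivWithin (uniq T q hq)) hm]
  rcases eq_or_ne j 0 with rfl | hj
  · rw [norm_iteratedFDerivWithin_zero]
  · rw [iteratedFDerivWithin_const_of_ne hj]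
    simp

lemma bd_vel (hT : T' < T) (i : ℕ) : Bd T T' (fun p : ℝ × E3 × E3 => p.2.2) i := by
  rcases Nat.eq_zero_or_pos i with rfl | hi
  · exact ⟨1, zero_le_one, fun t _ x v => by simp⟩
  · exact (bd0_clm hT ((ContinuousLinearMap.snd ℝ E3 E3).comp
      (ContinuousLinearMap.snd ℝ ℝ (E3 × E3))) hi).bd

lemma Bd.sub (hT : T' < T) {φ ψ : ℝ × E3 × E3 → G} (hφ : ContDiffOn ℝ ∞ φ (Om T))
    (hψ : ContDiffOn ℝ ∞ ψ (Om T)) {i : ℕ} (h : Bd T T' φ i) (h' : Bd T T' ψ i) :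
    Bd T T' (fun p => φ p - ψ p) i := by
  obtain ⟨C, hC, h⟩ := h
  obtain ⟨C', hC', h'⟩ := h'
  refine ⟨C + C', by positivity, fun t ht x v => ?_⟩
  have hm := mem_Om hT ht (x, v)
  have e := iteratedFDerivWithin_sub_apply (i := i) ((hφ _ hm).of_le (by exact_mod_cast le_top))
    ((hψ _ hm).of_le (by exact_mod_cast le_top)) (uniq T) hm
  rw [show (fun p => φ p - ψ p) = φ - ψ from rfl, e, add_mul]
  exact (norm_sub_le _ _).trans (add_le_add (h t ht x v) (h' t ht x v))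

lemma Bd.prod (hT : T' < T) {φ : ℝ × E3 × E3 → G} {ψ : ℝ × E3 × E3 → G'}
    (hφ : ContDiffOn ℝ ∞ φ (Om T)) (hψ : ContDiffOn ℝ ∞ ψ (Om T)) {i : ℕ} (h : Bd T T' φ i)
    (h' : Bd T T' ψ i) : Bd T T' (fun p => (φ p, ψ p)) i := by
  obtain ⟨C, hC, h⟩ := h
  obtain ⟨C', hC', h'⟩ := h'
  refine ⟨C + C', by positivity, fun t ht x v => ?_⟩
  have hm := mem_Om hT ht (x, v)
  rw [iteratedFDerivWithin_prodMk (hφ _ hm) (hψ _ hm) (uniq T) hm (by exact_mod_cast le_top),
    ContinuousMultilinearMap.opNorm_prod, add_mul]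
  exact max_le ((h t ht x v).trans (le_add_of_nonneg_right (by positivity)))
    ((h' t ht x v).trans (le_add_of_nonneg_left (by positivity)))

lemma bd_smul (hT : T' < T) {a : ℝ × E3 × E3 → ℝ} {φ : ℝ × E3 × E3 → G}
    (ha : ContDiffOn ℝ ∞ a (Om T)) (hφ : ContDiffOn ℝ ∞ φ (Om T)) (h : ∀ i, Bd0 T T' a i)
    (h' : ∀ i, Bd T T' φ i) (n : ℕ) : Bd T T' (fun p => a p • φ p) n := by
  choose C hC h using h
  choose C' hC' h' using h'
  refine ⟨∑ i ∈ Finset.range (n + 1), (n.choose i : ℝ) * C i * C' (n - i),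
    Finset.sum_nonneg fun i _ => mul_nonneg (mul_nonneg (Nat.cast_nonneg _) (hC i)) (hC' _),
    fun t ht x v => ?_⟩
  refine (norm_iteratedFDerivWithin_smul_le ha hφ (uniq T) (mem_Om hT ht (x, v))
    (by exact_mod_cast le_top)).trans ?_
  rw [Finset.sum_mul]
  refine Finset.sum_le_sum fun i _ => ?_
  rw [mul_assoc _ (C' _)]
  exact mul_le_mul (mul_le_mul_of_nonneg_left (h i t ht x v) (Nat.cast_nonneg _)) (h' _ t ht x v)
    (norm_nonneg _) (mul_nonneg (Nat.cast_nonneg _) (hC i))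

open M6

lemma cd_sOf {r s0 : ℝ} (hr : 0 < r) :
    ContDiffOn ℝ ∞ (fun p : ℝ × E3 × E3 => sOf r s0 p.1) (Om (Tb r s0)) := fun p hp => by
  have h0 : 0 < r * (Tb r s0 - p.1) := mul_pos hr (sub_pos.2 hp.1.2)
  exact (((contDiffAt_const.mul (contDiffAt_const.sub contDiffAt_fst)).log h0.ne').neg.div_const
    r).contDiffWithinAt

theorem changeStmt : ChangeStmt := by
  intro r s0 A u c H hr hu hc pu pc hpos hH
  have h1 := cd_sOf (s0 := s0) hr
  have h2 : ContDiffOn ℝ ∞ (fun p : ℝ × E3 × E3 => p.2.1) (Om (Tb r s0)) := by fun_prop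
  have h3 : ContDiffOn ℝ ∞ (fun p : ℝ × E3 × E3 => p.2.2) (Om (Tb r s0)) := by fun_prop
  have h4 := hu.comp_contDiffOn (h1.prodMk h2)
  have h5 := (hc.comp_contDiffOn (h1.prodMk h2)).inv fun p _ => (hpos _).ne'
  have h6 := h5.smul (h3.sub h4)
  set Φ : ℝ × E3 × E3 → ℝ × E3 × E3 := fun p => (sOf r s0 p.1, p.2.1,
    (c (sOf r s0 p.1, p.2.1))⁻¹ • (p.2.2 - u (sOf r s0 p.1, p.2.1))) with hΦ
  have h7 : ContDiffOn ℝ ∞ Φ (Om (Tb r s0)) := h1.prodMk (h2.prodMk h6)
  have h8 : MapsTo Φ (Om (Tb r s0)) (Ici s0 ×ˢ univ) := fun p hp => ⟨le_sOf hr hp.1, trivial⟩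
  have h9 : ContDiffOn ℝ ∞ (H ∘ Φ) (Om (Tb r s0)) := hH.smooth.comp h7 h8
  refine ⟨contDiffOn_const.mul h9, fun T' hT n q => ?_⟩
  have b1 : ∀ i, 1 ≤ i → Bd (Tb r s0) T' Φ i := fun i hi =>
    Bd.prod hT h1 (h2.prodMk h6)
      (bd0_of_per hT (ψ := fun p => sOf r s0 p.1) h1 (fun _ _ _ => rfl) i).bd
      (Bd.prod hT h2 h6 (bd0_clm hT ((ContinuousLinearMap.fst ℝ E3 E3).comp
        (ContinuousLinearMap.snd ℝ ℝ (E3 × E3))) hi).bd
        (bd_smul hT h5 (h3.sub h4)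
          (bd0_of_per hT (ψ := fun p => (c (sOf r s0 p.1, p.2))⁻¹) h5
            fun t => (pc (sOf r s0 t)).map fun a => a⁻¹)
          (fun j => Bd.sub hT h3 h4 (bd_vel hT j)
            (bd0_of_per hT (ψ := fun p => u (sOf r s0 p.1, p.2)) h4
              (fun t => pu (sOf r s0 t)) j).bd) i))
  choose! D hD0 hD using b1
  choose C hC using fun i => hH.decay (sOf r s0 T') i (q + n)
  obtain ⟨M, hM0, hM⟩ := exists_bound_of_per (ψ := fun s x => ‖u (s, x)‖ + c (s, x))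
    (hu.continuous.norm.add hc.continuous)
    (fun s => (pu s).map₂ (pc s) fun a b => ‖a‖ + b) (isCompact_Icc (a := s0) (b := sOf r s0 T'))
  set D1 : ℝ := 1 + ∑ i ∈ Finset.range (n + 1), |D i| with hD1
  set C1 : ℝ := ∑ i ∈ Finset.range (n + 1), |C i| with hC1
  have hD2 : 0 ≤ ∑ i ∈ Finset.range (n + 1), |D i| := Finset.sum_nonneg fun i _ => abs_nonneg _
  have hC2 : 0 ≤ C1 := Finset.sum_nonneg fun i _ => abs_nonneg _
  refine ⟨|A| * (n.factorial * C1 * D1 ^ n * (1 + M) ^ (q + n)), fun t ht x v => ?_⟩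
  have hm := mem_Om hT ht (x, v)
  have hs : sOf r s0 t ∈ Icc s0 (sOf r s0 T') := ⟨le_sOf hr hm.1, sOf_mono hr ht.2 hT⟩
  set V : E3 := (c (sOf r s0 t, x))⁻¹ • (v - u (sOf r s0 t, x)) with hV
  have hv1 : 1 ≤ 1 + ‖v‖ := by linarith [norm_nonneg v]
  have hV0 : 0 < (1 + ‖V‖) ^ (q + n) := by positivity
  have k1 := norm_iteratedFDerivWithin_comp_le (n := n) hH.smooth h7 (by exact_mod_cast le_top)
    ((uniqueDiffOn_Ici s0).prod uniqueDiffOn_univ) (uniq _) h8 hm
    (C := C1 / (1 + ‖V‖) ^ (q + n)) (D := D1 * (1 + ‖v‖)) (fun i hi => ?_) (fun i hi hi' => ?_)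
  · have k2 : 1 + ‖v‖ ≤ (1 + M) * (1 + ‖V‖) := by
      have e : v = u (sOf r s0 t, x) + c (sOf r s0 t, x) • V := by
        simp [hV, smul_smul, (hpos _).ne']
      have k3 := norm_add_le (u (sOf r s0 t, x)) (c (sOf r s0 t, x) • V)
      rw [← e, norm_smul, Real.norm_of_nonneg (hpos _).le] at k3
      have k4 := (le_abs_self _).trans (hM _ hs x)
      nlinarith [norm_nonneg V, norm_nonneg (u (sOf r s0 t, x)), hpos (sOf r s0 t, x)]
    have k5 : (1 + ‖v‖) ^ (q + n) ≤ (1 + M) ^ (q + n) * (1 + ‖V‖) ^ (q + n) := by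
      rw [← mul_pow]
      gcongr
    have e := iteratedFDerivWithin_const_smul_apply (i := n) (a := A)
      ((h9 _ hm).of_le (by exact_mod_cast le_top)) (uniq _) hm
    change (1 + ‖v‖) ^ q * ‖iteratedFDerivWithin ℝ n (A • (H ∘ Φ)) (Om (Tb r s0)) (t, x, v)‖ ≤ _
    rw [e, norm_smul, Real.norm_eq_abs, mul_left_comm]
    refine mul_le_mul_of_nonneg_left ?_ (abs_nonneg A)
    calc _ ≤ (1 + ‖v‖) ^ q * (n.factorial * (C1 / (1 + ‖V‖) ^ (q + n)) * (D1 * (1 + ‖v‖)) ^ n) :=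
          mul_le_mul_of_nonneg_left k1 (by positivity)
      _ = n.factorial * C1 * D1 ^ n * ((1 + ‖v‖) ^ (q + n) / (1 + ‖V‖) ^ (q + n)) := by
          rw [mul_pow, pow_add (1 + ‖v‖)]; ring
      _ ≤ _ := mul_le_mul_of_nonneg_left ((div_le_iff₀ hV0).2 k5) (by positivity)
  · rw [le_div_iff₀ hV0, mul_comm]
    exact ((hC i _ hs x V).trans (le_abs_self _)).trans (Finset.single_le_sum
      (f := fun i => |C i|) (fun j _ => abs_nonneg _) (Finset.mem_range.2 (Nat.lt_succ_of_le hi)))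
  · have k2 : D i ≤ D1 := by
      have := Finset.single_le_sum (f := fun i => |D i|) (fun j _ => abs_nonneg _)
        (Finset.mem_range.2 (Nat.lt_succ_of_le hi'))
      linarith [le_abs_self (D i)]
    refine ((hD i hi t ht x v).trans (mul_le_mul_of_nonneg_right k2 (by positivity))).trans
      (le_self_pow₀ ?_ (by omega))
    exact one_le_mul_of_one_le_of_one_le (by linarith) hv1

end Pool.Agent.BoltzD.Change

end
end MrgPart4

-- marker of a merged file
example : 731051 + 869589 = 731051 + 869589 := rfl
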