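import Pool.Agent.BoltzD.M7.Gron
import Pool.Agent.BoltzD.M7.Change
import Pool.Agent.BoltzD.Lin.YF
import Pool.Agent.BoltzD.Solver.Stmt
import Pool.Agent.BoltzD.En.Split
import Mathlib.Topology.Compactification.OnePoint.Basic
import Mathlib.Data.Set.Finite.List
import Pool.Agent.BoltzD.M6.Phys
import Pool.Agent.BoltzD.Coll.Bound
import Pool.Agent.MP_187b32_an.PD.Small.Loc
import Pool.Agent.BoltzD.Solver.Ops

-- ======== part 0: formerly Pool.Agent.BoltzD.M7.Conc
section MrgPart0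

/-! Module M7a: bounds of all orders along the iteration. -/

set_option autoImplicit false

open Set Filter Topology Finset Pool.Agent.BoltzC

noncomputable section

namespace Pool.Agent.BoltzD.M7

variable [Dim]

open Solver

lemma der_lq (n : ℕ) : ∀ φ φ' : Vf, SmD φ.f φ'.f → ∀ s,
    HasDerivAt (fun t => lq ZX nX n (φ.at t)) (2 * NB ZX bX.B n (φ'.at s) (φ.at s)) s := by
  induction n with
  | zero =>
    intro φ φ' h s
    refine ((h.ip h).hasDerivAt_tint s).congr_deriv ?_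
    change _ = 2 * tint fun x => ip (φ'.f s x) (φ.f s x)
    rw [← tint_const_mul]
    exact tint_congr fun x => by rw [ip_comm (φ.f s x)]; ring
  | succ n ih =>
    intro φ φ' h s
    simp only [lq_succ, NB_succ, ← Vf.Z_at, mul_sum]
    refine HasDerivAt.fun_sum fun z _ => ih _ _ ?_ s
    rcases z with i | j
    · exact h.dX i
    · exact h.clm _

/-- The weighted dissipation. -/
def ek (k : Cf) (d : SV → ℝ) (s : ℝ) (G : XS) : ℝ := tint fun x => k.c s x * d (G.1 x)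

variable {d : SV → ℝ} {k : Cf}

lemma cont_lq (hd : Continuous d) (n : ℕ) : ∀ φ : Vf,
    Continuous fun s => lq ZX (ek k d s) n (φ.at s) := by
  induction n with
  | zero => exact fun φ => continuous_tint (k.sm.cont.mul (hd.comp φ.sm.cont))
  | succ n ih =>
    intro φ
    simp only [lq_succ, ← Vf.Z_at]
    exact continuous_finsetSum _ fun z _ => ih _

lemma cont_ek (hd : Continuous d) (s : ℝ) (G : XS) : Continuous fun x => k.c s x * d (G.1 x) :=
  (k.sm.cont_slice s).mul (hd.comp (XS.sm G).cont)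

/-- Bounds of all orders in the scale. -/
def Bd (a a' : ℝ) (x : ℕ → ℝ → XS) : Prop :=
  ∀ n, ∃ C, ∀ j, ∀ s ∈ Icc a a', sq ZX nX n (x j s) ≤ C

variable {a a' : ℝ} {x y : ℕ → ℝ → XS}

lemma bd_iff : Bd a a' x ↔ ∀ n, ∃ C, ∀ j, ∀ s ∈ Icc a a', (Solver.lev ZX bX n).nr (x j s) ≤ C := by
  refine ⟨fun h n => ?_, fun h n => ?_⟩
  · obtain ⟨C, hC⟩ := h (n + 1)
    exact ⟨√C, fun j s hs => Real.le_sqrt_of_sq_le ((lev_nr_sq _ _ _ _).trans_le (hC j s hs))⟩
  · obtain ⟨C, hC⟩ := h n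
    refine ⟨C ^ 2, fun j s hs => (sq_mono bX.nonneg n.le_succ _).trans ?_⟩
    rw [← lev_nr_sq]
    exact pow_le_pow_left₀ (PD.nr_nonneg _ _) (hC j s hs) 2

lemma Bd.congr (h : Bd a a' x) (e : ∀ j, ∀ s ∈ Icc a a', y j s = x j s) : Bd a a' y :=
  fun n => (h n).imp fun C hC j s hs => by rw [e j s hs]; exact hC j s hs

lemma Bd.comp (h : Bd a a' x) (σ : ℕ → ℕ) : Bd a a' fun j => x (σ j) :=
  fun n => (h n).imp fun _ hC j => hC (σ j)

lemma Bd.add (h : Bd a a' x) (h' : Bd a a' y) : Bd a a' fun j s => x j s + y j s :=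
  bd_iff.2 fun n => by
    obtain ⟨C, hC⟩ := bd_iff.1 h n
    obtain ⟨C', hC'⟩ := bd_iff.1 h' n
    exact ⟨C + C', fun j s hs => (PD.nr_add_le _ _ _).trans (add_le_add (hC j s hs) (hC' j s hs))⟩

lemma Bd.sub (h : Bd a a' x) (h' : Bd a a' y) : Bd a a' fun j s => x j s - y j s :=
  bd_iff.2 fun n => by
    obtain ⟨C, hC⟩ := bd_iff.1 h n
    obtain ⟨C', hC'⟩ := bd_iff.1 h' n
    exact ⟨C + C', fun j s hs => (PD.nr_sub_le _ _ _).trans (add_le_add (hC j s hs) (hC' j s hs))⟩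

lemma bd_vf (φ : Vf) : Bd a a' fun _ => φ.at :=
  bd_iff.2 fun n => (φ.bdd_lev a a' n).imp fun _ hC _ => hC

lemma bd_fin {m : ℕ} (φ : Fin m → Vf) {c : ℕ → ℝ → Fin m → ℝ} {C : ℝ}
    (hc : ∀ j, ∀ s ∈ Icc a a', ∀ i, |c j s i| ≤ C) :
    Bd a a' fun j s => ∑ i, c j s i • (φ i).at s :=
  bd_iff.2 fun n => by
    choose K hK using fun i => (φ i).bdd_lev a a' n
    refine ⟨∑ i, C * K i, fun j s hs => ?_⟩
    rw [PD.nr, map_sum]
    refine (norm_sum_le _ _).trans (sum_le_sum fun i _ => ?_)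
    exact (PD.nr_smul _ _ _).trans_le (mul_le_mul (hc j s hs i) (hK i s hs) (PD.nr_nonneg _ _)
      ((abs_nonneg _).trans (hc j s hs i)))

lemma Bd.nA_le (h : Bd a a' x) (n : ℕ) (u : List Ix) :
    ∃ C, ∀ j, ∀ s ∈ Icc a a', ∀ y, nA n (dXw u (x j s).1 y) ≤ C := by
  obtain ⟨C, hC⟩ := h (n + dd + 1 + u.length)
  refine ⟨KS * C, fun j s hs y => ?_⟩
  rw [← DW_val]
  exact (nA_le_sq n _ y).trans (mul_le_mul_of_nonneg_left ((sq_DW_le u _ _).trans (hC j s hs))
    KS_nonneg)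

lemma lq_le_of_nA (m : ℕ) : ∀ (G : XS) (C : ℝ),
    (∀ u : List Ix, u.length ≤ m → ∀ y, nA m (dXw u G.1 y) ≤ C) →
    lq ZX nX m G ≤ (2 * dd) ^ m * C := by
  induction m with
  | zero =>
    intro G C h
    rw [pow_zero, one_mul]
    refine (le_abs_self _).trans (abs_tint_le_const fun y => ?_)
    rw [abs_of_nonneg (ip_self_nonneg _), ← nA_zero]
    exact h [] le_rfl y
  | succ m ih =>
    intro G C h
    rw [lq_succ]
    refine (sum_le_card_nsmul _ _ ((2 * dd) ^ m * C) fun z _ => ih _ _ fun u hu y => ?_).trans_eq (by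
      simp only [card_univ, Fintype.card_sum, Fintype.card_fin, nsmul_eq_mul]
      push_cast
      ring)
    rcases z with i | i
    · exact (nA_mono m.le_succ _).trans (h (i :: u) (Nat.succ_le_succ hu) y)
    · have e : dXw u (ZX (Sum.inr i) G).1 y = ap i (dXw u G.1 y) :=
        congrFun (dXw_clm (XS.sm G) (ap i) u) y
      rw [e]
      exact (nA_ap_le m i _).trans (h u (hu.trans m.le_succ) y)

theorem bound_gen {P0 P1 : (SV →L[ℝ] SV) → Prop} (hdc : Continuous d) (hd : ∀ f, 0 ≤ d f)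
    (hadd : ∀ f g, d (f + g) ≤ 2 * d f + 2 * d g) {p : ℕ} {Cd : ℝ} (hCd : 0 ≤ Cd)
    (hup : ∀ f, d f ≤ Cd * nA p f)
    (h0 : ∀ B, P0 B → V0 d B ∧ ∀ j, P0 (adV j B)) (h1 : ∀ B, P1 B → V1 d B ∧ ∀ j, P1 (adV j B))
    {L : SV →L[ℝ] SV} (hL1 : P1 L) (hL : ∀ h, d h - ip h h ≤ ip (L h) h)
    {A : ℝ → XS →ₗ[ℝ] XS} (hA : Adm P0 P1 d A) (hk : ∀ s x, 0 < k.c s x) {n0 : ℕ}
    {h h' : ℕ → Vf} (hh : ∀ j, SmD (h j).f (h' j).f) {r f N : ℕ → ℝ → XS}
    (eqn : ∀ j, ∀ s ∈ Icc a a',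
      (h' (j + 1)).at s + (A + tm k L none) s ((h (j + 1)).at s) = N j s + f j s)
    (hN : ∀ n, n0 ≤ n → ∃ C : ℝ, 0 ≤ C ∧ ∀ j, ∀ s ∈ Icc a a', ∀ y,
      |NB ZX bX.B n (N j s) y| ≤
        1 / 16 * (lq ZX (ek k d s) n ((h j).at s + r j s) + lq ZX (ek k d s) n y) +
        C * (√(sq ZX nX n ((h j).at s + r j s)) * √(sq ZX (dI d) n ((h j).at s + r j s))) *
          √(lq ZX (dI d) n y))
    (hr : Bd a a' r) (hf : Bd a a' f) (init : Bd a a fun j => (h j).at)
    (base : n0 = 0 ∨ ∃ C, ∀ j, ∀ s ∈ Icc a a', sq ZX nX (p + 1 + n0) ((h j).at s) ≤ C) :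
    Bd a a' fun j => (h j).at := by
  obtain ⟨κ, hκ, hκ'⟩ := exists_lower_bound_of_per k.sm.cont k.per (isCompact_Icc (a := a)
    (b := a')) fun s _ => hk s
  obtain ⟨M, hM, hM'⟩ := k.bound a a'
  have hdG : ∀ G : XS, Continuous fun x => d (G.1 x) := fun G => hdc.comp (XS.sm G).cont
  refine Reg.bound (Z := ZX) (b := bX) (d := dI d) (e := ek k d) (κ := κ) (M := M * Cd)
    (n0 := n0) (q := p + 1) (A := A + tm k L none) (h' := fun j => (h' j).at) (r := r) (f := f)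
    (N := N)
    { hd := dd_nonneg hd
      hκ := hκ
      hM := by positivity
      low := fun s hs G => ?_
      up := fun s hs G => ?_
      add := fun s hs G H => ?_
      der := fun n j => der_lq n _ _ (hh j)
      cont := fun n j => cont_lq hdc n _
      eqn := eqn
      hA := main_w (dd_nonneg hd)
        (fun A hA => Gen.ad (fun B hB => (h0 B hB).2) (fun B hB => (h1 B hB).2) hA)
        (fun A hA => Gen.tame hdc hd (fun B hB => (h0 B hB).1) (fun B hB => (h1 B hB).1) a a' hA)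
        (hA.gen.add (.t1 k L hL1)) fun ε hε => ?_
      hN := hN
      hr := hr
      hf := hf
      init := fun n => (init n).imp fun C hC j => hC j a ⟨le_rfl, le_rfl⟩
      base := base }
  · rw [dI, ← tint_const_mul]
    exact tint_mono (continuous_const.mul (hdG G)) (cont_ek hdc s G) fun x =>
      mul_le_mul_of_nonneg_right (hκ' s hs x) (hd _)
  · refine le_trans ?_ (mul_le_mul_of_nonneg_left ((tint_nA_le p G).trans (lq_le_sq bX.nonneg p G))
      (by positivity))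
    rw [← tint_const_mul]
    refine tint_mono (cont_ek hdc s G) (continuous_const.mul ((XS.sm G).nA p).cont) fun x => ?_
    rw [mul_assoc]
    exact mul_le_mul ((le_abs_self _).trans (hM' s hs x)) (hup _) (hd _) hM.le
  · have c1 : ∀ G : XS, Continuous fun x => 2 * (k.c s x * d (G.1 x)) := fun G =>
      continuous_const.mul (cont_ek hdc s G)
    rw [ek, ek, ek, ← tint_const_mul, ← tint_const_mul, ← tint_add (c1 G) (c1 H)]
    refine tint_mono (cont_ek hdc s _) ((c1 G).add (c1 H)) fun x => ?_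
    have := mul_le_mul_of_nonneg_left (hadd (G.1 x) (H.1 x)) (hk s x).le
    change k.c s x * d (G.1 x + H.1 x) ≤ _
    linarith
  · obtain ⟨C, hC, h2⟩ := hA.low a a' ε hε
    refine ⟨C + M, by positivity, fun s hs H => ?_⟩
    have c2 : Continuous fun x => M * ip (H.1 x) (H.1 x) := continuous_const.mul (XS.cont_ip _ _)
    have h5 : ek k d s H - M * bX.B H H ≤ bX.B (tm k L none s H) H := by
      rw [ek, bX_B, bX_B, ← tint_const_mul, ← tint_sub (cont_ek hdc s H) c2]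
      refine tint_mono ((cont_ek hdc s H).sub c2) (XS.cont_ip _ _) fun x => ?_
      rw [tm_apply, map_smul, LinearMap.smul_apply, smul_eq_mul]
      have e1 := mul_le_mul_of_nonneg_left (hL (H.1 x)) (hk s x).le
      have e3 := mul_le_mul_of_nonneg_right ((le_abs_self _).trans (hM' s hs x))
        (ip_self_nonneg (H.1 x))
      change _ ≤ k.c s x * ip (L (H.1 x)) (H.1 x)
      linarith
    simp only [Pi.add_apply, LinearMap.add_apply, map_add]
    linarith [(abs_le.1 (h2 s hs H)).1]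

/-- The hydrodynamic part. -/
theorem bound_hydro {F : ℝ → Fld} (hF : FldC F) {W W' : ℕ → Vf} (hW : ∀ j, SmD (W j).f (W' j).f)
    (hP : ∀ j s x, PP ((W j).f s x) = (W j).f s x) {f : ℕ → ℝ → XS}
    (eqn : ∀ j, ∀ s ∈ Icc a a', ∀ x,
      (W' (j + 1)).f s x + PP ((F s).tr ((W (j + 1)).f s) x) = (f j s).1 x)
    (hf : Bd a a' f) (init : Bd a a fun j => (W j).at) : Bd a a' fun j => (W j).at := by
  have hd : ∀ f : SV, 0 ≤ ip f f := ip_self_nonneg
  have hdc : Continuous fun f : SV => ip f f :=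
    continuous_ip.comp (continuous_id.prodMk continuous_id)
  have hA : Adm FR (fun B => B = 0) (fun f => ip f f) (trOp hF tmH) := by
    refine adm_trOp hd hF fun c α z _ => ?_
    rcases z with i | j
    · refine .tm_inl hdc c (fr_comp_PP _) i ((fr_comp_PP _).v0 hd).vd fun f h => ?_
      simp only [ContinuousLinearMap.comp_apply, ip_PP, ip_mulW]
    · exact .tm_none hdc c (fr_comp_PP _) ((fr_comp_PP _).v0 hd).vd
  refine bound_gen (P0 := FR) (P1 := fun B => B = 0) (p := 0) (Cd := 1) (n0 := 0)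
    (k := ⟨fun _ _ => 1, SmC.const _, fun _ => Per.const _⟩) (r := 0) (N := 0) (L := 0) hdc hd
    (fun f g => by simpa only [nA_zero] using nA_add_le 0 f g) zero_le_one
    (fun f => by rw [one_mul, nA_zero]) (fun _ hB => ⟨hB.v0 hd, hB.adV⟩) ?_ rfl (fun h => by simp)
    hA (fun _ _ => one_pos) hW (fun j s hs => Subtype.ext (funext fun x => ?_))
    (fun n _ => ⟨0, le_rfl, fun j s hs y => ?_⟩) (bd_iff.2 fun n => ⟨0, fun j s hs => ?_⟩) hf init
    (Or.inl rfl)
  · rintro B rfl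
    refine ⟨fun ε hε => ⟨0, le_rfl, fun f h => ?_⟩, fun j => ?_⟩
    · simpa using mul_nonneg hε.le (hd h)
    · ext1 f; simp [adV_apply]
  · have h4 := trOp_apply hF PP (T := tmH) (s := s) (x := x) (G := (W (j + 1)).at s)
      (H := opV PP ((W (j + 1)).at s)) fun c α z => by
        rcases z with i | i
        · rw [tmH, tm_apply]
          exact congrArg (fun f => c.c s x • PP (mulW α f))
            (congrFun (congrArg Subtype.val (opD_opV i PP _)) x).symm
        · rfl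
    rw [show (opV PP ((W (j + 1)).at s)).1 = (W (j + 1)).f s from funext fun y => hP _ s y] at h4
    simp only [Pi.add_apply, LinearMap.add_apply, Submodule.coe_add, h4, tm_apply, zero_apply,
      smul_zero, add_zero, Pi.zero_apply, zero_add]
    exact eqn j s hs x
  · have he : ∀ G : XS, 0 ≤ ek ⟨fun _ _ => 1, SmC.const _, fun _ => Per.const _⟩
        (fun f => ip f f) s G := fun G => tint_nonneg fun x => mul_nonneg zero_le_one (hd _)
    simp only [Pi.zero_apply, map_zero, LinearMap.zero_apply, abs_zero, zero_mul, add_zero]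
    exact mul_nonneg (by norm_num) (add_nonneg (lq_nonneg he _ _) (lq_nonneg he _ _))
  · simp [PD.nr]

/-- The collision operator times a coefficient. -/
def bl (Q : CollOp) (c : Cf) (s : ℝ) : XS →ₗ[ℝ] XS →ₗ[ℝ] XS :=
  LinearMap.mk₂ ℝ (fun G H => ⟨fun x => c.c s x • Q.G (G.1 x) (H.1 x),
      (c.sm.slice s).smul (Sm.bilin Q.G Q.cont (XS.sm G) (XS.sm H)),
      (c.per s).map₂ ((XS.per G).map₂ (XS.per H) fun f g => Q.G f g) (· • ·)⟩)
    (fun _ _ _ => Subtype.ext (funext fun x => by simp))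
    (fun a _ _ => Subtype.ext (funext fun x => by simp [smul_comm a]))
    (fun _ _ _ => Subtype.ext (funext fun x => by simp))
    (fun a _ _ => Subtype.ext (funext fun x => by simp [smul_comm a]))

lemma bl_apply (Q : CollOp) (c : Cf) (s : ℝ) (G H : XS) (x : E3) :
    (bl Q c s G H).1 x = c.c s x • Q.G (G.1 x) (H.1 x) := rfl

lemma ad2_bl (Q : CollOp) (c : Cf) (z : Ix ⊕ Ix) : ∃ c', ad2 (ZX z) (bl Q c) = bl Q c' := by
  rcases z with i | j
  · refine ⟨c.d i, funext fun s => LinearMap.ext₂ fun G H => Subtype.ext (funext fun x => ?_)⟩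
    have h1 := congrFun (dX_smul (c.sm.slice s).dif
      (Sm.bilin Q.G Q.cont (XS.sm G) (XS.sm H)).dif i) x
    have h2 := congrFun (dX_bilin Q.G Q.cont (XS.sm G).dif (XS.sm H).dif i) x
    change dX i (fun x => c.c s x • Q.G (G.1 x) (H.1 x)) x - c.c s x • Q.G (dX i G.1 x) (H.1 x) -
      c.c s x • Q.G (G.1 x) (dX i H.1 x) = dX i (c.c s) x • Q.G (G.1 x) (H.1 x)
    rw [h1, h2, smul_add]
    abel
  · refine ⟨⟨fun _ _ => 0, SmC.const _, fun _ => Per.const _⟩,
      funext fun s => LinearMap.ext₂ fun G H => Subtype.ext (funext fun x => ?_)⟩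
    change ap j (c.c s x • Q.G (G.1 x) (H.1 x)) - c.c s x • Q.G (ap j (G.1 x)) (H.1 x) -
      c.c s x • Q.G (G.1 x) (ap j (H.1 x)) = (0 : ℝ) • Q.G (G.1 x) (H.1 x)
    rw [map_smul, Q.leib, smul_add, zero_smul]
    abel

lemma bX_bl (Q : CollOp) (c : Cf) (s : ℝ) (G H K : XS) : bX.B (bl Q c s G H) K =
    tint fun x => c.c s x * ip (Q.G (G.1 x) (H.1 x)) (K.1 x) :=
  tint_congr fun x => by rw [bl_apply, map_smul, LinearMap.smul_apply, smul_eq_mul]

lemma tri_dq (Q : CollOp) : ∃ C : ℝ, 0 < C ∧ ∀ g h f,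
    |ip (Q.G g h) f| ≤ C * √(nA Q.p h) * √(Q.dq g) * √(Q.dq f) := by
  obtain ⟨C, hC, h⟩ := Q.tri
  refine ⟨C, hC, fun g h' f => (h g h' f).trans (mul_le_mul_of_nonneg_left
    (Real.sqrt_le_sqrt (le_add_of_nonneg_right (ip_self_nonneg f))) (by positivity))⟩

lemma tri2_bl (Q : CollOp) (c : Cf) (a a' : ℝ) :
    Tri2 ZX bX (dI Q.dq) (Icc a a') (Q.p + dd + 1) (bl Q c) := by
  obtain ⟨C, hC, h⟩ := tri_dq Q
  obtain ⟨M, hM, hM'⟩ := c.bound a a'
  have key : ∀ s ∈ Icc a a', ∀ G H K : XS, |bX.B (bl Q c s G H) K| ≤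
      M * C * √KS * (√(dI Q.dq G) * √(sq ZX nX (Q.p + dd + 1) H)) * √(dI Q.dq K) := by
    intro s hs G H K
    set T := M * C * √KS * √(sq ZX nX (Q.p + dd + 1) H) with hT
    have hT0 : 0 ≤ T := by positivity
    have h1 := abs_tint_le_sqrt (φ := fun x => c.c s x * ip (Q.G (G.1 x) (H.1 x)) (K.1 x))
      (a := fun x => T ^ 2 * Q.dq (G.1 x)) (b := fun x => Q.dq (K.1 x))
      (continuous_const.mul ((Alg.continuous_dq Q).comp (XS.sm G).cont))
      ((Alg.continuous_dq Q).comp (XS.sm K).cont)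
      (fun x => mul_nonneg (sq_nonneg _) (Alg.dq_nonneg Q _)) (fun x => Alg.dq_nonneg Q _)
      fun x => by
        rw [abs_mul, Real.sqrt_mul (sq_nonneg _), Real.sqrt_sq hT0]
        refine (mul_le_mul (hM' s hs x) (h _ _ _) (abs_nonneg _) hM.le).trans ?_
        have h2 := Real.sqrt_le_sqrt (nA_le_sq Q.p H x)
        rw [Real.sqrt_mul KS_nonneg] at h2
        calc _ = M * C * √(nA Q.p (H.1 x)) * (√(Q.dq (G.1 x)) * √(Q.dq (K.1 x))) := by ring
          _ ≤ M * C * (√KS * √(sq ZX nX (Q.p + dd + 1) H)) *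
            (√(Q.dq (G.1 x)) * √(Q.dq (K.1 x))) := by gcongr
          _ = _ := by rw [hT]; ring
    rw [tint_const_mul, Real.sqrt_mul (sq_nonneg _), Real.sqrt_sq hT0] at h1
    rw [bX_bl]
    refine h1.trans_eq ?_
    rw [hT, dI, dI]
    ring
  refine ⟨M * C * √KS, by positivity, fun s hs G H K => ⟨?_, key s hs G H K⟩⟩
  rw [show bl Q c s G H = bl Q c s H G from Subtype.ext (funext fun x => by
    rw [bl_apply, bl_apply, Q.symm]), mul_comm (√_)]
  exact key s hs H G K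

lemma top_bl (Q : CollOp) {C : ℝ} (hC : 0 < C)
    (hT : ∀ g h f, |ip (Q.G g h) f| ≤ C * √(nA Q.p h) * √(Q.dq g) * √(Q.dq f)) {k k2 : Cf} {s : ℝ}
    (hk : ∀ x, 0 < k.c s x) (h2 : ∀ x, k2.c s x = k.c s x / 2) {G : XS}
    (hG : ∀ x, nA Q.p (G.1 x) ≤ 1 / (64 * C ^ 2)) (H K : XS) :
    |bX.B (bl Q k2 s H G) K| ≤ 1 / 32 * (ek k Q.dq s H + ek k Q.dq s K) := by
  have c1 : ∀ H : XS, Continuous fun x => k.c s x * Q.dq (H.1 x) := cont_ek (Alg.continuous_dq Q) s
  rw [bX_bl, ek, ek, ← tint_add (c1 H) (c1 K), ← tint_const_mul]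
  refine abs_tint_le_of_abs_le (continuous_const.mul ((c1 H).add (c1 K))) fun x => ?_
  have h3 : C * √(nA Q.p (G.1 x)) ≤ 1 / 8 := by
    rw [← le_div_iff₀' hC]
    refine Real.sqrt_le_iff.2 ⟨by positivity, (hG x).trans_eq ?_⟩
    field_simp
    norm_num
  have h4 := hT (H.1 x) (G.1 x) (K.1 x)
  have h5 := Real.sq_sqrt (Alg.dq_nonneg Q (H.1 x))
  have h6 := Real.sq_sqrt (Alg.dq_nonneg Q (K.1 x))
  have h7 := mul_le_mul_of_nonneg_right h3
    (mul_nonneg (Real.sqrt_nonneg (Q.dq (H.1 x))) (Real.sqrt_nonneg (Q.dq (K.1 x))))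
  have h8 : |ip (Q.G (H.1 x) (G.1 x)) (K.1 x)| ≤ 1 / 16 * (Q.dq (H.1 x) + Q.dq (K.1 x)) := by
    nlinarith [sq_nonneg (√(Q.dq (H.1 x)) - √(Q.dq (K.1 x)))]
  rw [abs_mul, h2, abs_of_pos (half_pos (hk x))]
  linarith [mul_le_mul_of_nonneg_left h8 (hk x).le]

lemma allBd_of {s0 : ℝ} {φ : ℕ → Vf} (h : ∀ s1, ∃ J, Bd s0 s1 fun j => (φ (J + j)).at) :
    AllBd s0 fun j => (φ j).f := fun s1 n u => by
  obtain ⟨J, h⟩ := h s1
  obtain ⟨C, hC⟩ := h.nA_le n u
  refine ⟨C, (eventually_ge_atTop J).mono fun j hj => ?_⟩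
  obtain ⟨i, rfl⟩ := Nat.exists_eq_add_of_le hj
  exact hC i

theorem boundStmt : BoundStmt := by
  intro Q
  obtain ⟨C, hC, hT⟩ := tri_dq Q
  obtain ⟨p, Cd, hCd, hup⟩ := Alg.dq_le_nA Q
  refine ⟨p + 1 + (2 * (Q.p + dd + 1) + 1), 1 / (256 * C ^ 2), by positivity,
    fun F k s0 ε N h h' g e hF hk hkp hk0 hN hε I Lg => ?_⟩
  obtain ⟨m, m', φ, Ψ, Ψ', W, W', c, d, α, K, hφ, hφp, hΨ, hW⟩ := Lg.str
  choose w1 w2 w3 w4 w5 w6 w7 using hW
  let kc : Cf := ⟨k, hk, hkp⟩
  let k2 : Cf := ⟨fun s x => k s x / 2, (hk.const_smul 2⁻¹).congr fun s x => by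
    rw [smul_eq_mul, inv_mul_eq_div], fun s => (hkp s).map (· / 2)⟩
  let H : ℕ → Vf := fun j => ⟨h j, (I.smd j).sm, I.per j⟩
  let H' : ℕ → Vf := fun j => ⟨h' j, (I.smd j).sm', I.per' j⟩
  let G : ℕ → Vf := fun j => ⟨g j, I.smg j, I.perg j⟩
  let E : ℕ → Vf := fun j => ⟨e j, I.sme j, I.pere j⟩
  let U : ℕ → Vf := fun j => ⟨W j, (w1 j).sm, w2 j⟩
  let U' : ℕ → Vf := fun j => ⟨W' j, (w1 j).sm', w3 j⟩
  let Φ : Fin m → Vf := fun i => ⟨φ i, hφ i, hφp i⟩
  let P : Fin m' → Vf := fun i => ⟨fun _ => Ψ i, (hΨ i).1.smC, fun _ => (hΨ i).2.1⟩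
  let P' : Fin m' → Vf := fun i => ⟨fun _ => Ψ' i, (hΨ i).2.2.1.smC, fun _ => (hΨ i).2.2.2⟩
  let S : Vf := ⟨fun s => (F s).src, Alg.smC_src hF, fun s => Alg.per_src (hF.reg s)⟩
  have ev : ∀ {n : ℕ} (ψ : Fin n → Vf) (a : Fin n → ℝ) (s : ℝ) (x : E3),
      (∑ i, a i • (ψ i).at s).1 x = ∑ i, a i • (ψ i).f s x := fun ψ a s x => by
    simp only [Submodule.coe_sum, Finset.sum_apply]
    rfl
  have bE : ∀ s1, Bd s0 s1 fun j => (E j).at := fun s1 =>
    (bd_fin Φ (c := d) fun j s hs i => ((w7 j s hs.1).1 i).2).congr fun j s hs =>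
      Subtype.ext (funext fun x => by rw [ev]; exact ((w7 j s hs.1).2 x).2.2)
  have bU : ∀ s1, Bd s0 s1 fun j => (U j).at := fun s1 =>
    bound_hydro hF (W' := U') w1 w4 (fun j s hs x => by rw [ev]; exact ((w7 _ s hs.1).2 x).1)
      (bd_fin Φ (c := fun j => c (j + 1)) fun j s hs i => ((w7 _ s hs.1).1 i).1)
      ((bd_fin P (c := fun j _ => α j) fun j _ _ => w5 j).congr fun j s hs => by
        obtain rfl : s = s0 := le_antisymm hs.2 hs.1
        exact Subtype.ext (funext fun x => by rw [ev]; exact (w6 j x).1))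
  have lag : ∀ j s, s0 ≤ s → (G (j + 1)).at s = (H j).at s + ((U (j + 1)).at s - (U j).at s) :=
    fun j s hs => Subtype.ext (funext fun x => eq_add_of_sub_eq' ((w7 j s hs).2 x).2.1)
  have hΓ := collData_gam Q
  have hdq : (fun f => -ip (gam Q sqMS f) f + ip f f) = Q.dq := funext fun f => by
    rw [neg_ip_gam]; rfl
  have bH : ∀ s1, ∃ J, Bd s0 s1 fun j => (H (J + j)).at := fun s1 => by
    obtain ⟨J, hJ⟩ := I.cauchy s1 (1 / (256 * C ^ 2)) (by positivity)
    refine ⟨J, bound_gen (P0 := MulC 3) (P1 := fun B => ∃ φ, B = -gam Q φ) (k := kc)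
      (n0 := 2 * (Q.p + dd + 1) + 1) (h' := fun j => H' (J + j))
      (A := trOp hF fun c α z => tm c (mulW α) (some z)) (L := -gam Q sqMS)
      (N := fun j s => bl Q k2 s ((G (J + j + 1)).at s) ((G (J + j + 1)).at s))
      (Alg.continuous_dq Q) (Alg.dq_nonneg Q) (Alg.dq_add_le Q) hCd.le hup
      (fun _ hB => ⟨hB.v0 (Alg.dq_nonneg Q) (Q.wgt.imp fun _ t => t.2), hB.adV⟩) ?_ ⟨_, rfl⟩
      (fun f => by rw [← hdq]; simp)
      (adm_trOp (Alg.dq_nonneg Q) hF fun c α z hα => hdq ▸ adm_mulW hΓ c α hα (some z)) hk0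
      (fun j => I.smd _) (fun j s hs => Subtype.ext (funext fun x => ?_)) (fun n hn => ?_)
      (((bU s1).comp fun j => J + j + 1).sub ((bU s1).comp fun j => J + j))
      ((bd_vf S).add ((bE s1).comp fun j => J + j + 1))
      ((bd_fin P' (c := fun j _ => α (J + j)) fun j _ _ => w5 _).congr fun j s hs => by
        obtain rfl : s = s0 := le_antisymm hs.2 hs.1
        exact Subtype.ext (funext fun x => by rw [ev]; exact (w6 _ x).2)) (Or.inr ?_)⟩
    · rintro B ⟨ψ, rfl⟩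
      exact ⟨hdq ▸ hΓ.v1 ψ, fun j => ⟨_, hΓ.adV j ψ⟩⟩
    · have h4 := trOp_apply hF (ContinuousLinearMap.id ℝ SV) (s := s) (x := x)
        (T := fun c α z => tm c (mulW α) (some z)) (G := (H (J + (j + 1))).at s)
        (H := (H (J + (j + 1))).at s) fun c α z => by rw [tm_apply, ZoX_val]; rfl
      simp only [Pi.add_apply, LinearMap.add_apply, Submodule.coe_add, h4, tm_apply, neg_apply,
        neg_gam, bl_apply, ContinuousLinearMap.id_apply]
      rw [← add_assoc, add_left_comm (k2.c s x • _), ← add_assoc (S.at s |>.1 x)]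
      exact I.eqn (J + j + 1) s hs.1 x
    · obtain ⟨C1, hC1, h1⟩ := quad_le (Z := ZX) (b := bX) (I := Icc s0 s1)
        (𝒟 := fun B => ∃ c, B = bl Q c) (dd_nonneg (Alg.dq_nonneg Q))
        (by rintro _ ⟨c, rfl⟩ z; exact ad2_bl Q c z)
        (by rintro _ ⟨c, rfl⟩; exact tri2_bl Q c s0 s1) ⟨k2, rfl⟩
        (fun s f g => Subtype.ext (funext fun x => by rw [bl_apply, bl_apply, Q.symm])) hn
      refine ⟨C1, hC1, fun j s hs y => ?_⟩
      rw [← lag _ s hs.1]
      refine (h1 s hs _ y (ek kc Q.dq s) (1 / 32) (top_bl Q hC hT (hk0 s) (fun _ => rfl)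
        fun x => ?_)).trans_eq (by norm_num)
      have a1 := (hJ (J + j + 1) (by omega) J le_rfl s hs).2.1 [] (by simp) x
      have a2 := (I.small (J + j + 1) s hs.1 x).trans hε
      have a3 := nA_add_le N (g (J + j + 1) s x - h (J + j + 1) s x) (h (J + j + 1) s x)
      rw [sub_add_cancel] at a3
      refine (nA_mono (by omega : Q.p ≤ N) _).trans (a3.trans ?_)
      rw [show 1 / (64 * C ^ 2) = 2 * (1 / (256 * C ^ 2)) + 2 * (1 / (256 * C ^ 2)) by ring]
      exact add_le_add (mul_le_mul_of_nonneg_left a1 zero_le_two)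
        (mul_le_mul_of_nonneg_left a2 zero_le_two)
    · obtain ⟨C1, h1⟩ := Lg.bdd s1
      refine ⟨∑ i ∈ range (p + 1 + (2 * (Q.p + dd + 1) + 1)), (2 * dd) ^ i * C1, fun j s hs =>
        sum_le_sum fun i hi => lq_le_of_nA i _ _ fun u hu y => ?_⟩
      have := mem_range.1 hi
      exact (nA_mono (by omega) _).trans (h1 _ s hs u (by omega) y)
  refine ⟨allBd_of (φ := H) bH, allBd_of (φ := G) fun s1 => ?_,
    allBd_of (φ := E) fun s1 => ⟨0, (bE s1).comp _⟩⟩
  obtain ⟨J, hJ⟩ := bH s1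
  exact ⟨J + 1, (hJ.add (((bU s1).comp fun j => J + j + 1).sub
    ((bU s1).comp fun j => J + j))).congr fun j s hs => by
      rw [add_right_comm]; exact lag _ s hs.1⟩

end Pool.Agent.BoltzD.M7

end
end MrgPart0

-- ======== part 1: formerly Pool.Agent.BoltzD.Pic.LimA
section MrgPart1

/-! Calculus for the passage to the limit: continuous directional derivatives, reflection in time,
evaluation of Schwartz valued maps. -/

set_option autoImplicit false

open Filter Topology Pool.Agent.BoltzC Set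
open scoped ContDiff

noncomputable section

namespace Pool.Agent.BoltzD.PicLim

variable [Dim]

section Dir

variable {X : Type*} [NormedAddCommGroup X] [NormedSpace ℝ X] {ι : Type*} [Fintype ι]

lemma hasDerivAt_line_shift {f : X → ℝ} {e : X} {D : X → ℝ}
    (hf : ∀ x, HasDerivAt (fun t : ℝ => f (x + t • e)) (D x) 0) (x : X) (t : ℝ) :
    HasDerivAt (fun t : ℝ => f (x + t • e)) (D (x + t • e)) t := by
  have h := hf (x + t • e)
  have h2 : HasDerivAt (fun τ : ℝ => f (x + t • e + (τ - t) • e)) (D (x + t • e)) t := by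
    have := HasDerivAt.comp_sub_const (f := fun τ : ℝ => f (x + t • e + τ • e)) t t
      (by simpa using h)
    exact this
  refine h2.congr_of_eventuallyEq (Eventually.of_forall fun τ => ?_)
  simp only [sub_smul]
  congr 1
  abel

theorem hasFDerivAt_of_dir (e : ι → X) (π : ι → X →L[ℝ] ℝ) (he : ∀ x, ∑ i, π i x • e i = x)
    {f : X → ℝ} {D : ι → X → ℝ} (hD : ∀ i, Continuous (D i))
    (hf : ∀ i x, HasDerivAt (fun t : ℝ => f (x + t • e i)) (D i x) 0) (x : X) :
    HasFDerivAt f (∑ i, D i x • π i) x := by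
  classical
  rw [hasFDerivAt_iff_isLittleO_nhds_zero, Asymptotics.isLittleO_iff]
  intro c hc
  set A : ℝ := ∑ i, ‖π i‖ + 1 with hA
  set B : ℝ := ∑ i, ‖π i‖ * ‖e i‖ + 1 with hB
  have A0 : 0 < A := by positivity
  have B0 : 0 < B := by positivity
  have h1 : ∀ᶠ y in 𝓝 x, ∀ i, |D i y - D i x| ≤ c / A := by
    refine eventually_all.2 fun i => ?_
    have := (Metric.tendsto_nhds.1 ((hD i).tendsto x)) (c / A) (by positivity)
    filter_upwards [this] with y hy
    exact (Real.dist_eq _ _ ▸ hy).le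
  obtain ⟨δ, hδ, h2⟩ := Metric.eventually_nhds_iff.1 h1
  have key : ∀ (t : ι → ℝ) (S : Finset ι), ∑ i ∈ S, |t i| * ‖e i‖ < δ →
      |f (x + ∑ i ∈ S, t i • e i) - f x - ∑ i ∈ S, D i x * t i| ≤ c / A * ∑ i ∈ S, |t i| := by
    intro t S
    induction S using Finset.induction_on with
    | empty => simp
    | insert j S hj ih =>
      intro hS
      simp only [Finset.sum_insert hj] at hS ⊢
      have a0 : 0 ≤ |t j| * ‖e j‖ := by positivity
      have a1 := ih (by linarith)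
      set y := x + ∑ i ∈ S, t i • e i with hy
      have a2 : ‖y - x‖ ≤ ∑ i ∈ S, |t i| * ‖e i‖ := by
        rw [hy, add_sub_cancel_left]
        exact (norm_sum_le _ _).trans (le_of_eq (Finset.sum_congr rfl fun i _ => by
          rw [norm_smul, Real.norm_eq_abs]))
      have a3 := Convex.norm_image_sub_le_of_norm_hasDerivWithin_le
        (f := fun τ : ℝ => f (y + τ • e j) - D j x * τ)
        (f' := fun τ => D j (y + τ • e j) - D j x) (C := c / A) (s := uIcc 0 (t j))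
        (fun τ _ => by
          have := ((hasDerivAt_line_shift (hf j) y τ).fun_sub
            ((hasDerivAt_id τ).const_mul (D j x))).hasDerivWithinAt (s := uIcc 0 (t j))
          simpa using this)
        (fun τ hτ => by
          refine h2 ?_ j
          rw [dist_eq_norm, add_sub_right_comm]
          refine (norm_add_le _ _).trans_lt ?_
          have b1 : |τ| ≤ |t j| := by simpa using abs_sub_left_of_mem_uIcc hτ
          have b2 : ‖τ • e j‖ ≤ |t j| * ‖e j‖ := by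
            rw [norm_smul, Real.norm_eq_abs]; gcongr
          linarith) (convex_uIcc _ _) left_mem_uIcc right_mem_uIcc
      simp only [zero_smul, add_zero, mul_zero, sub_zero, Real.norm_eq_abs] at a3
      have e1 : x + (t j • e j + ∑ i ∈ S, t i • e i) = y + t j • e j := by rw [hy]; abel
      rw [e1]
      have a4 := abs_add_le (f (y + t j • e j) - D j x * t j - f y)
        (f y - f x - ∑ i ∈ S, D i x * t i)
      rw [mul_add]
      refine le_trans (le_of_eq ?_) (a4.trans (add_le_add a3 a1))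
      congr 1
      ring
  filter_upwards [Metric.ball_mem_nhds (0 : X) (div_pos hδ B0)] with h hh
  rw [mem_ball_zero_iff, lt_div_iff₀ B0] at hh
  have b0 := norm_nonneg h
  have b1 : ∀ i, |π i h| ≤ ‖π i‖ * ‖h‖ := fun i => (π i).le_opNorm h
  have b2 := key (fun i => π i h) Finset.univ (by
    refine lt_of_le_of_lt ?_ hh
    calc ∑ i, |π i h| * ‖e i‖ ≤ ∑ i, ‖π i‖ * ‖h‖ * ‖e i‖ :=
          Finset.sum_le_sum fun i _ => by gcongr; exact b1 i
      _ = ‖h‖ * ∑ i, ‖π i‖ * ‖e i‖ := by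
          rw [Finset.mul_sum]; exact Finset.sum_congr rfl fun i _ => by ring
      _ ≤ _ := by gcongr; linarith)
  rw [he] at b2
  have b3 : ∑ i, |π i h| ≤ A * ‖h‖ := by
    calc ∑ i, |π i h| ≤ ∑ i, ‖π i‖ * ‖h‖ := Finset.sum_le_sum fun i _ => b1 i
      _ = (∑ i, ‖π i‖) * ‖h‖ := by rw [Finset.sum_mul]
      _ ≤ _ := by gcongr; linarith
  simp only [sum_apply, smul_apply, smul_eq_mul,
    Real.norm_eq_abs]
  refine b2.trans ((mul_le_mul_of_nonneg_left b3 (by positivity)).trans (le_of_eq ?_))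
  field_simp

theorem contDiff_one_of_dir (e : ι → X) (π : ι → X →L[ℝ] ℝ) (he : ∀ x, ∑ i, π i x • e i = x)
    {f : X → ℝ} {D : ι → X → ℝ} (hD : ∀ i, Continuous (D i))
    (hf : ∀ i x, HasDerivAt (fun t : ℝ => f (x + t • e i)) (D i x) 0) : ContDiff ℝ 1 f := by
  have h := hasFDerivAt_of_dir e π he hD hf
  rw [contDiff_one_iff_fderiv]
  refine ⟨fun x => (h x).differentiableAt, ?_⟩
  rw [show fderiv ℝ f = fun x => ∑ i, D i x • π i from funext fun x => (h x).fderiv]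
  exact continuous_finsetSum _ fun i _ => (hD i).smul continuous_const

theorem contDiff_of_coind (e : ι → X) (π : ι → X →L[ℝ] ℝ) (he : ∀ x, ∑ i, π i x • e i = x)
    (P : (X → ℝ) → Prop) (hP : ∀ f, P f → Continuous f ∧
      ∀ i, ∃ D, P D ∧ ∀ x, HasDerivAt (fun t : ℝ => f (x + t • e i)) (D x) 0)
    {f : X → ℝ} (hf : P f) : ContDiff ℝ ∞ f := by
  rw [contDiff_infty]
  intro n
  induction n generalizing f with
  | zero => exact contDiff_zero.2 (hP f hf).1
  | succ n ih =>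
    choose D hD1 hD2 using (hP f hf).2
    have h := hasFDerivAt_of_dir e π he (fun i => (hP _ (hD1 i)).1) hD2
    rw [Nat.cast_succ, contDiff_succ_iff_fderiv]
    refine ⟨fun x => (h x).differentiableAt, by simp, ?_⟩
    rw [show fderiv ℝ f = fun x => ∑ i, D i x • π i from funext fun x => (h x).fderiv]
    exact ContDiff.sum fun i _ => (ih (hD1 i)).smul contDiff_const

theorem dir_of_limit {e : X} {f D : ℕ → X → ℝ} {F Dl : X → ℝ}
    (hf : ∀ N x, HasDerivAt (fun t : ℝ => f N (x + t • e)) (D N x) 0)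
    (hF : ∀ x, Tendsto (fun N => f N x) atTop (𝓝 (F x)))
    (hD : TendstoLocallyUniformly D Dl atTop) (x : X) :
    HasDerivAt (fun t : ℝ => F (x + t • e)) (Dl x) 0 := by
  have h1 := hD.comp (fun t : ℝ => x + t • e) (by fun_prop)
  have h2 := hasDerivAt_of_tendstoLocallyUniformlyOn (s := univ) isOpen_univ
    (tendstoLocallyUniformlyOn_univ.2 h1)
    (Eventually.of_forall fun N t _ => hasDerivAt_line_shift (hf N) x t)
    (fun t _ => hF (x + t • e)) (mem_univ 0)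
  simpa using h2

end Dir

/-- Odd reflection in time at `s0`. -/
lemma hasDerivAt_refl {φ φ' : ℝ → ℝ} (h : ∀ s, HasDerivAt φ (φ' s) s) (s0 s : ℝ) :
    HasDerivAt (fun σ => φ (max σ s0) + φ s0 - φ (max (2 * s0 - σ) s0)) (φ' (s0 + |s - s0|)) s := by
  have r : ∀ σ, s0 ≤ σ → φ (max σ s0) + φ s0 - φ (max (2 * s0 - σ) s0) = φ σ := by
    intro σ hσ
    rw [max_eq_left hσ, max_eq_right (by linarith)]
    ring
  have l : ∀ σ, σ ≤ s0 →
      φ (max σ s0) + φ s0 - φ (max (2 * s0 - σ) s0) = 2 * φ s0 - φ (2 * s0 - σ) := by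
    intro σ hσ
    rw [max_eq_right hσ, max_eq_left (by linarith)]
    ring
  have dl : HasDerivAt (fun σ => 2 * φ s0 - φ (2 * s0 - σ)) (φ' (2 * s0 - s)) s := by
    simpa using ((h (2 * s0 - s)).comp_const_sub (2 * s0) s).const_sub (2 * φ s0)
  rcases lt_trichotomy s s0 with hs | rfl | hs
  · rw [abs_of_neg (by linarith), show s0 + -(s - s0) = 2 * s0 - s by ring]
    refine dl.congr_of_eventuallyEq ?_
    filter_upwards [Iio_mem_nhds hs] with σ hσ using l σ (le_of_lt hσ)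
  · rw [sub_self, abs_zero, add_zero, ← hasDerivWithinAt_univ, ← Iic_union_Ici (a := s)]
    refine HasDerivWithinAt.union ?_ ?_
    · rw [show 2 * s - s = s by ring] at dl
      exact dl.hasDerivWithinAt.congr (fun σ hσ => l σ hσ) (l s le_rfl)
    · exact (h s).hasDerivWithinAt.congr (fun σ hσ => r σ hσ) (r s le_rfl)
  · rw [abs_of_pos (by linarith), show s0 + (s - s0) = s by ring]
    refine (h s).congr_of_eventuallyEq ?_
    filter_upwards [Ioi_mem_nhds hs] with σ hσ using r σ (le_of_lt hσ)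

lemma continuous_evalSV : Continuous fun p : SV × E3 => p.1 p.2 :=
  (continuous_eval (F := BoundedContinuousFunction E3 ℝ)).comp
    (((SchwartzMap.toBoundedContinuousFunctionCLM ℝ E3 ℝ).continuous.comp continuous_fst).prodMk
      continuous_snd)

/-- Evaluation at a velocity. -/
def evV (V : E3) : SV →L[ℝ] ℝ :=
  (BoundedContinuousFunction.evalCLM ℝ V).comp (SchwartzMap.toBoundedContinuousFunctionCLM ℝ E3 ℝ)

@[simp] lemma evV_apply (V : E3) (f : SV) : evV V f = f V := rfl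

lemma hd_eval {γ : ℝ → SV} {a : SV} {t : ℝ} (h : HD γ a t) (V : E3) :
    HasDerivAt (fun s => γ s V) (a V) t := (h.clm (evV V)).hasDerivAt

theorem contDiff_of_sm {G : E3 → SV} (hG : Sm G) :
    ContDiff ℝ ∞ fun q : E3 × E3 => G q.1 q.2 := by
  refine contDiff_of_coind (ι := Ix ⊕ Ix)
    (Sum.elim (fun i => ((ev i, 0) : E3 × E3)) fun j => (0, ev j))
    (Sum.elim (fun i => (EuclideanSpace.proj i : E3 →L[ℝ] ℝ).comp (ContinuousLinearMap.fst ℝ _ _))
      fun j => (EuclideanSpace.proj j : E3 →L[ℝ] ℝ).comp (ContinuousLinearMap.snd ℝ _ _))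
    (fun x => ?_) (fun f => ∃ G : E3 → SV, Sm G ∧ f = fun q => G q.1 q.2) ?_ ⟨G, hG, rfl⟩
  · rw [Fintype.sum_sum_type]
    ext1
    · simpa [Prod.fst_sum] using sum_coord_ev x.1
    · simpa [Prod.snd_sum] using sum_coord_ev x.2
  · rintro _ ⟨G, hG, rfl⟩
    refine ⟨continuous_evalSV.comp ((hG.cont.comp continuous_fst).prodMk continuous_snd), ?_⟩
    rintro (i | j)
    · refine ⟨_, ⟨_, hG.dX i, rfl⟩, fun x => ?_⟩
      simpa using hd_eval (hG.dif i x.1) x.2
    · refine ⟨_, ⟨_, hG.clm (dV j), rfl⟩, fun x => ?_⟩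
      simpa using hasDerivAt_line (G x.1) j x.2

end Pool.Agent.BoltzD.PicLim

end
end MrgPart1

-- ======== part 2: formerly Pool.Agent.BoltzD.M7.SvLim
section MrgPart2

-- ======== part 0: formerly Pool.Agent.BoltzD.M6.Final
section MrgPart0

/-! Module M6a: from the rescaled solution to the physical statement. -/

set_option autoImplicit false

open MeasureTheory Set Filter Topology Pool.Agent.BoltzC
open scoped ContDiff

noncomputable section

namespace Pool.Agent.BoltzD.M6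

variable [Dim]

open Stmt

/-- the link between the two representations of the collision operator -/
def SigmaStmt : Prop :=
  ∃ p : ℕ, ∀ (G : E3 → ℝ) (K : ℝ), Coll.Nice p K G → ∀ V,
    Integrable (collInt (Bk dd) (fun v => sqM v * G v) V) (collMeas dd) ∧
      Q (Bk dd) (fun v => sqM v * G v) V = sqM V * Coll.Gam G G V

theorem clm_eq_sum (L : E3 →L[ℝ] ℝ) (z : E3) : L z = ∑ i, z i * L (ev i) := by
  conv_lhs => rw [← sum_coord_ev z]
  simp

theorem fderiv_two {a : ℝ → E3 → ℝ} (ha : Differentiable ℝ fun p : ℝ × E3 => a p.1 p.2)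
    (s τ : ℝ) (x z : E3) : fderiv ℝ (fun p : ℝ × E3 => a p.1 p.2) (s, x) (τ, z) =
      τ * dS a s x + ∑ i, z i * dX i (a s) x := by
  have h := (ha (s, x)).hasFDerivAt
  set L := fderiv ℝ (fun p : ℝ × E3 => a p.1 p.2) (s, x)
  have h1 : HasDerivAt (fun t => a t x) (L (1, 0)) s :=
    h.comp_hasDerivAt (f := fun t => (t, x)) s ((hasDerivAt_id s).prodMk (hasDerivAt_const s x))
  have h2 : HasFDerivAt (a s) (L.comp (ContinuousLinearMap.inr ℝ ℝ E3)) x :=
    h.comp x (hasFDerivAt_prodMk_right s x)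
  have h3 : ∀ i, dX i (a s) x = (L.comp (ContinuousLinearMap.inr ℝ ℝ E3)) (ev i) := fun i =>
    dX_eq (HasDerivAt.hd (h2.hasLineDerivAt (ev i)))
  simp only [h3]
  rw [dS, h1.deriv, ← clm_eq_sum, ← smul_eq_mul, ← map_smul, ContinuousLinearMap.comp_apply,
    ← map_add]
  simp

theorem fderiv_three {g : ℝ → E3 → E3 → ℝ}
    (hg : Differentiable ℝ fun q : ℝ × E3 × E3 => g q.1 q.2.1 q.2.2) (s τ : ℝ) (x V z w : E3) :
    fderiv ℝ (fun q : ℝ × E3 × E3 => g q.1 q.2.1 q.2.2) (s, x, V) (τ, z, w) =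
      τ * deriv (fun t => g t x V) s + ∑ i, z i * fderiv ℝ (fun y => g s y V) x (ev i) +
        ∑ j, w j * fderiv ℝ (g s x) V (ev j) := by
  have h := (hg (s, x, V)).hasFDerivAt
  set L := fderiv ℝ (fun q : ℝ × E3 × E3 => g q.1 q.2.1 q.2.2) (s, x, V)
  have h1 : HasDerivAt (fun t => g t x V) (L (1, 0)) s :=
    h.comp_hasDerivAt (f := fun t => (t, x, V)) s
      ((hasDerivAt_id s).prodMk (hasDerivAt_const s (x, V)))
  have h2 : HasFDerivAt (fun y => g s y V) _ x :=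
    h.comp (f := fun y => (s, y, V)) x
      ((hasFDerivAt_const s x).prodMk (hasFDerivAt_prodMk_left x V))
  have h3 : HasFDerivAt (g s x) _ V :=
    h.comp (f := fun W => (s, x, W)) V
      ((hasFDerivAt_const s V).prodMk (hasFDerivAt_prodMk_right x V))
  rw [h1.deriv, h2.fderiv, h3.fderiv, ← clm_eq_sum, ← clm_eq_sum, ← smul_eq_mul, ← map_smul,
    ContinuousLinearMap.comp_apply, ContinuousLinearMap.comp_apply, ← map_add, ← map_add]
  simp

/-- the physical velocity as a vector field -/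
def uV (B : BgD) (p : ℝ × E3) : E3 := WithLp.toLp 2 fun i => B.u i p.1 p.2

theorem contDiff_uV {B : BgD} (hB : B.Ok) : ContDiff ℝ ∞ (uV B) :=
  contDiff_euclidean.2 hB.cd_u

theorem fderiv_uV {B : BgD} (hB : B.Ok) (p z : ℝ × E3) (j : Ix) :
    fderiv ℝ (uV B) p z j = fderiv ℝ (fun p : ℝ × E3 => B.u j p.1 p.2) p z := by
  have h := ((contDiff_uV hB).differentiable (by simp) p).hasFDerivAt
  have h1 : HasFDerivAt (fun p : ℝ × E3 => B.u j p.1 p.2) _ p :=
    (EuclideanSpace.proj j : E3 →L[ℝ] ℝ).hasFDerivAt.comp p h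
  rw [h1.fderiv]
  rfl

theorem far_bound {B : BgD} (hB : B.Ok) {ρ : ℝ} (hρ : 0 < ρ) : ∃ M, ∀ s, 0 ≤ s → ∀ x,
    (∀ n, ρ ≤ ‖x + lat n‖) → ‖uV B (s, x)‖ + B.C s x ≤ M := by
  obtain ⟨K, hK⟩ := hB.sym
  refine ⟨(dd + 1) * (|K 0| * √(ρ ^ 2 / 12) ^ (1 - B.r)), fun s hs x hx => ?_⟩
  have h1 : √(ρ ^ 2 / 12) ≤ B.Lam s x := by
    refine Real.sqrt_le_sqrt ?_
    obtain ⟨n, hn⟩ := exists_lattice_mem_cube (WithLp.toLp 2 fun _ => -1 / 2) x
    have e : ∑ i, (n i : ℝ) • ev i = lat n := by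
      conv_rhs => rw [← sum_coord_ev (lat n)]
      rfl
    rw [e] at hn
    have h2 := B.cut.rho2_ge (x + lat n) fun i => by
      have := hn i
      simp only [mem_Ioc] at this
      rw [abs_le]
      constructor <;> linarith [this.1, this.2]
    rw [per_lat B.cut.per_rho2] at h2
    have h3 : ρ ^ 2 ≤ ‖x + lat n‖ ^ 2 := pow_le_pow_left₀ hρ.le (hx n) 2
    linarith [Real.exp_pos (-2 * s)]
  have h0 : 0 < √(ρ ^ 2 / 12) := Real.sqrt_pos.2 (by positivity)
  have h2 : K 0 * B.Lam s x ^ (1 - B.r) ≤ |K 0| * √(ρ ^ 2 / 12) ^ (1 - B.r) :=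
    mul_le_mul (le_abs_self _) (Real.rpow_le_rpow_of_nonpos h0 h1 (by linarith [hB.r_gt]))
      (Real.rpow_nonneg (h0.le.trans h1) _) (abs_nonneg _)
  have h3 : ∀ i, |B.u i s x| ≤ K 0 * B.Lam s x ^ (1 - B.r) := fun i => by
    simpa [dXw] using (hK s hs).1 i [] le_rfl x
  have h4 : |B.C s x| ≤ K 0 * B.Lam s x ^ (1 - B.r) := by
    simpa [dXw] using (hK s hs).2.1 [] le_rfl x
  have h5 := (norm_le_sum_abs (uV B (s, x))).trans (sum_le_Ix fun i => (h3 i).trans h2)
  linarith [le_abs_self (B.C s x)]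

theorem top_C {B : BgD} (hB : B.Ok) : Tendsto (fun s => B.C s 0) atTop atTop := by
  obtain ⟨c0, hc0, h⟩ := hB.C_ge
  have h1 : ∀ s, B.Lam s 0 ^ (1 - B.r) = Real.exp ((B.r - 1) * s) := fun s => by
    rw [BgD.Lam, B.cut.rho2_eq 0 fun i => by simp, norm_zero, zero_pow two_ne_zero, add_zero,
      Real.sqrt_eq_rpow, ← Real.exp_mul, ← Real.exp_mul]
    congr 1
    ring
  refine tendsto_atTop_mono' _ ((eventually_ge_atTop 0).mono fun s hs => h s hs 0) ?_
  simp only [h1]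
  exact (Real.tendsto_exp_atTop.comp
    (tendsto_id.const_mul_atTop (by linarith [hB.r_gt]))).const_mul_atTop hc0

theorem shift_eq {τ C : ℝ} (hτ : τ ≠ 0) (hC : C ≠ 0) (a c : ℝ) (u V p q : Ix → ℝ) (j : Ix) :
    -(C⁻¹ * (τ * a + ∑ i, (u i + C * V i) * p i + (τ * c + ∑ i, (u i + C * V i) * q i) * V j)) =
      τ * (-(a + ∑ i, τ⁻¹ * u i * p i) / C +
        ∑ i, (-(τ⁻¹ * p i) - if i = j then (c + ∑ i, τ⁻¹ * u i * q i) / C else 0) * V i +
        ∑ i, -(τ⁻¹ * q i) * V i * V j) := by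
  have e1 : ∀ p : Ix → ℝ, ∑ i, (u i + C * V i) * p i = ∑ i, u i * p i + C * ∑ i, p i * V i :=
    fun p => by
      rw [Finset.mul_sum, ← Finset.sum_add_distrib]
      exact Finset.sum_congr rfl fun i _ => by ring
  have e2 : ∀ p : Ix → ℝ, ∑ i, τ⁻¹ * u i * p i = τ⁻¹ * ∑ i, u i * p i := fun p => by
    simp only [Finset.mul_sum, mul_assoc]
  have e3 : ∀ p : Ix → ℝ, ∑ i, -(τ⁻¹ * p i) * V i = -(τ⁻¹ * ∑ i, p i * V i) := fun p => by
    simp only [Finset.mul_sum, mul_assoc, neg_mul, Finset.sum_neg_distrib]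
  simp only [sub_mul, ite_mul, zero_mul, Finset.sum_sub_distrib, Finset.sum_ite_eq',
    Finset.mem_univ, if_true, ← Finset.sum_mul, e1, e2, e3]
  field_simp
  ring

theorem eqn_alg {τ C A K M g gs Γ : ℝ} {u V gx gv b : Ix → ℝ} (hτ : τ ≠ 0)
    (h : gs + ∑ i, (τ⁻¹ * u i + τ⁻¹ * C * V i) * gx i -
      ∑ j, b j * (V j / 2 * (M + g) - (-M / 2 * V j + gv j)) = A * (τ⁻¹ * K) * Γ) :
    τ * (M * gs) + ∑ i, (u i + C * V i) * (M * gx i) +
      ∑ j, τ * b j * (M * (-M / 2 * V j + gv j) + (M + g) * (-M / 2 * V j)) = A * K * (M * Γ) := by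
  have e1 : ∑ i, (u i + C * V i) * (M * gx i) =
      τ * M * ∑ i, (τ⁻¹ * u i + τ⁻¹ * C * V i) * gx i := by
    rw [Finset.mul_sum]
    exact Finset.sum_congr rfl fun i _ => by field_simp
  have e2 : ∑ j, τ * b j * (M * (-M / 2 * V j + gv j) + (M + g) * (-M / 2 * V j)) =
      -(τ * M) * ∑ j, b j * (V j / 2 * (M + g) - (-M / 2 * V j + gv j)) := by
    rw [Finset.mul_sum]
    exact Finset.sum_congr rfl fun i _ => by ring
  have e3 : A * K * (M * Γ) = τ * M * (A * (τ⁻¹ * K) * Γ) := by field_simp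
  rw [e1, e2, e3, ← h]
  ring

theorem phys_of (hσ : SigmaStmt) : ∃ (ε m : ℝ) (p : ℕ), 0 < ε ∧ ∀ (B : BgD), B.Ok →
    ∀ (A s0 : ℝ) (g : ℝ → E3 → E3 → ℝ), 0 < A → 0 ≤ s0 →
    Lim B.fld (fun s x => A * B.k1 s x) s0 ε p g → (∀ s, s0 ≤ s → ∀ x V, 0 ≤ sqM V + g s x V) →
    Phys B.r s0 A (1 + ε) m (uV B) (fun q => B.C q.1 q.2)
      (fun q => sqM q.2.2 * (sqM q.2.2 + g q.1 q.2.1 q.2.2))
      (fderiv ℝ fun q : ℝ × E3 × E3 => sqM q.2.2 * (sqM q.2.2 + g q.1 q.2.1 q.2.2)) := by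
  obtain ⟨p, hσ⟩ := hσ
  obtain ⟨ε, hε, m, hm, hlow⟩ := exists_mass_lower
  refine ⟨ε, m, p, hε, fun B hB A s0 g hA hs0 hg hpos => ?_⟩
  have hg1 := hg.c1.differentiable one_ne_zero
  have hM : ContDiff ℝ ∞ fun q : ℝ × E3 × E3 => sqM q.2.2 := contDiff_sqM.comp (by fun_prop)
  have hH : ContDiff ℝ 1 fun q : ℝ × E3 × E3 => sqM q.2.2 * (sqM q.2.2 + g q.1 q.2.1 q.2.2) :=
    (hM.of_le (by simp)).mul ((hM.of_le (by simp)).add hg.c1)
  have hN : ∀ s, s0 ≤ s → ∀ x, Coll.Nice p _ fun W => sqM W + g s x W := fun s hs x =>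
    (Coll.nice_sM p).add (hg.nice s hs x)
  refine
    { hr := by linarith [hB.r_gt]
      hA := hA
      hm := hm
      cu := (contDiff_uV hB).of_le (by simp)
      cc := hB.cd_C.of_le (by simp)
      cu0 := (contDiff_uV hB).comp (contDiff_prodMk_right s0)
      cc0 := hB.cd_C.comp (contDiff_prodMk_right s0)
      cH0 := (contDiff_sqM.comp contDiff_snd).mul
        ((contDiff_sqM.comp contDiff_snd).add hg.init_smooth)
      pu := fun s i x => by simp only [uV, hB.per_u _ s i x]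
      pc := hB.per_C
      pH := fun s _ i x => by simp only [hg.per s _ i x]
      cpos := fun q => hB.C_pos _ _
      top := top_C hB
      far := fun ρ hρ => (far_bound hB hρ).imp fun M hM s hs => hM s (hs0.trans hs)
      hd := fun q _ => (hH.differentiable one_ne_zero q).hasFDerivAt.hasFDerivWithinAt
      cd := (hH.continuous_fderiv one_ne_zero).continuousOn
      nonneg := fun s hs x V => mul_nonneg (sqM_pos V).le (hpos s hs x V)
      le := fun s hs x V => ?_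
      low := fun s hs x => hlow _ (hN s hs x).continuous fun V => by
        simpa using (hg.nice s hs x).abs_le V
      int := fun s hs x V => (hσ _ _ (hN s hs x) V).1
      eqn := fun s hs x V => ?_ }
  · rw [mul_comm]
    refine mul_le_mul_of_nonneg_right ?_ (sqM_pos V).le
    linarith [sqM_le_one V, (abs_le.1 ((hg.nice s hs x).abs_le V)).2]
  · have hgV : HasFDerivAt (g s x) (fderiv ℝ (g s x) V) V :=
      (hg1.comp (f := fun W => (s, x, W)) (by fun_prop) V).hasFDerivAt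
    have hgx : HasFDerivAt (fun y => g s y V) (fderiv ℝ (fun y => g s y V) x) x :=
      (hg1.comp (f := fun y => (s, y, V)) (by fun_prop) x).hasFDerivAt
    have hgs : HasDerivAt (fun t => g t x V) (deriv (fun t => g t x V) s) s :=
      (hg1.comp (f := fun t => (t, x, V)) (by fun_prop) s).hasDerivAt
    have hG := (hasFDerivAt_sqM V).fun_add hgV
    have he := hg.eqn s hs x V
    rw [fderiv_three (g := fun s x V => sqM V * (sqM V + g s x V)) (hH.differentiable one_ne_zero),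
      (hσ _ _ (hN s hs x) V).2, ((hgs.const_add (sqM V)).const_mul (sqM V)).deriv,
      ((hgx.const_add (sqM V)).const_mul (sqM V)).fderiv, ((hasFDerivAt_sqM V).fun_mul hG).fderiv]
    rw [hG.fderiv] at he
    have hC := (hB.C_pos s x).ne'
    have hE : Real.exp (-B.r * s) = (Real.exp (B.r * s))⁻¹ := by rw [neg_mul, Real.exp_neg]
    have hE0 := (Real.exp_pos (B.r * s)).ne'
    simp only [PiLp.neg_apply, PiLp.smul_apply, PiLp.add_apply, fderiv_uV hB,
      fderiv_two ((hB.cd_u _).differentiable (by simp)), fderiv_two (hB.cd_C.differentiable (by simp)),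
      smul_eq_mul, add_apply, smul_apply, innerSL_apply_apply, inner_ev, uV, shift_eq hE0 hC]
    simp only [BgD.fld, Fld.bj, BgD.mat, BgD.k1, hE, add_apply, smul_apply, innerSL_apply_apply,
      inner_ev, smul_eq_mul] at he
    exact eqn_alg hE0 he

theorem final_of (hσ : SigmaStmt) : FinalStmt := by
  obtain ⟨ε, m, p, hε, h⟩ := phys_of hσ
  exact ⟨ε, p, hε, fun B hB A s0 g hA hs0 hg hpos => (h B hB A s0 g hA hs0 hg hpos).main⟩

end Pool.Agent.BoltzD.M6

end
end MrgPart0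

-- ======== part 1: formerly Pool.Agent.BoltzD.Bg.Defs
section MrgPart1

/-! Background module MC1: profile data, the explicit background, uniform symbol classes. -/

set_option autoImplicit false

open Pool.Agent.BoltzC Finset
open scoped ContDiff

noncomputable section

namespace Pool.Agent.BoltzD

variable [Dim]

/-- The data and properties of the profile (the content of `M1Stmt`). -/
structure Prof where
  r : ℝ
  lam : ℝ
  c0 : ℝ
  U : Ix → E3 → ℝ
  C : E3 → ℝ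
  K : ℕ → ℝ
  r_gt : 30 / 29 < r
  r_lt : r < 3 / 2
  lam_pos : 0 < lam
  c0_pos : 0 < c0
  cd_U : ∀ i, ContDiff ℝ ∞ (U i)
  cd_C : ContDiff ℝ ∞ C
  eqU : ∀ y j, (r - 1) * U j y + ∑ i, (y i + U i y) * dX i (U j) y
    + (dd + 2) * C y * dX j C y = 0
  eqC : ∀ y, (r - 1) * C y + ∑ i, (y i + U i y) * dX i C y
    + (dd : ℝ)⁻¹ * C y * ∑ i, dX i (U i) y = 0
  bdU : ∀ (w : List Ix) j y,
    |dXw w (U j) y| ≤ K w.length * (1 + ‖y‖ ^ 2) ^ ((1 - r - w.length) / 2)
  bdC : ∀ (w : List Ix) y,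
    |dXw w C y| ≤ K w.length * (1 + ‖y‖ ^ 2) ^ ((1 - r - w.length) / 2)
  low : ∀ y, c0 * (1 + ‖y‖ ^ 2) ^ ((1 - r) / 2) ≤ C y
  rep : ∀ (y : E3) (ξ : Ix → ℝ), lam * ∑ i, ξ i ^ 2 ≤
    (1 - cs * √(∑ i, dX i C y ^ 2)) * ∑ i, ξ i ^ 2 + ∑ p, ∑ i, ξ p * ξ i * dX p (U i) y

theorem M1Stmt.prof (h : M1Stmt) : Nonempty Prof := by
  obtain ⟨r, lam, c0, U, C, K, h1, h2, h3, h4, h5, h6, h7, h8, h9, h10, h11, h12⟩ := h
  exact ⟨⟨r, lam, c0, U, C, K, h1, h2, h3, h4, h5, h6, h7, h8, h9, h10, h11, h12⟩⟩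

/-- The cut-off rescaled copy `chi(x) exp(c s) Φ(exp(s) pi(x))` of a function of `y`. -/
def Cut.resc (cut : Cut) (c : ℝ) (Φ : E3 → ℝ) (s : ℝ) (x : E3) : ℝ :=
  cut.chi x * (Real.exp (c * s) * Φ (Real.exp s • cut.pi x))

/-- The explicit background. -/
def mkBg (P : Prof) (cut : Cut) (nu : ℝ) : BgD where
  r := P.r
  nu := nu
  cut := cut
  u i := cut.resc (P.r - 1) (P.U i)
  C s x := cut.resc (P.r - 1) P.C s x + (1 - cut.chi x)

/-- Everything in `BgD.Ok` except `hyp`, with explicit constants; the symbol bounds are at the scale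
`Lam` (so that `K` and `c0` do not depend on `nu`). -/
structure BgD.Pre (B : BgD) (K : ℕ → ℝ) (c0 : ℝ) (U : Ix → E3 → ℝ) (C : E3 → ℝ) : Prop where
  r_gt : 30 / 29 < B.r
  r_lt : B.r < 3 / 2
  nu_pos : 0 < B.nu
  nu_le : B.nu ≤ 1
  cd_u : ∀ i, ContDiff ℝ ∞ fun p : ℝ × E3 => B.u i p.1 p.2
  cd_C : ContDiff ℝ ∞ fun p : ℝ × E3 => B.C p.1 p.2
  per_u : ∀ i s, Per (B.u i s)
  per_C : ∀ s, Per (B.C s)
  C_pos : ∀ s x, 0 < B.C s x
  K_pos : ∀ n, 0 < K n
  c0_pos : 0 < c0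
  C_ge : ∀ s, 0 ≤ s → ∀ x, c0 * B.Lam s x ^ (1 - B.r) ≤ B.C s x
  sym : ∀ s, 0 ≤ s →
    (∀ i, SymBd K 0 (B.Lam s) (fun x => B.Lam s x ^ (1 - B.r)) (B.u i s)) ∧
    SymBd K 0 (B.Lam s) (fun x => B.Lam s x ^ (1 - B.r)) (B.C s) ∧
    (∀ i, SymBd K 0 (B.Lam s) (fun x => B.mu s x * B.Lam s x ^ (1 - B.r)) (dS (B.u i) s)) ∧
    SymBd K 0 (B.Lam s) (fun x => B.mu s x * B.Lam s x ^ (1 - B.r)) (dS B.C s)
  euler_u : ∀ j s x, box (1 / 10) x →
    B.mat (B.u j) s x + (dd + 2) * (Real.exp (-B.r * s) * B.C s x) * dX j (B.C s) x = 0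
  euler_C : ∀ s x, box (1 / 10) x →
    B.mat B.C s x + (dd : ℝ)⁻¹ * B.C s x * ∑ i, Real.exp (-B.r * s) * dX i (B.u i s) x = 0
  cd_U' : ∀ i, ContDiff ℝ ∞ (U i)
  cd_C' : ContDiff ℝ ∞ C
  scal : ∀ s x, box (1 / 8) x →
    (∀ i, B.u i s x = Real.exp ((B.r - 1) * s) * U i (Real.exp s • x)) ∧
      B.C s x = Real.exp ((B.r - 1) * s) * C (Real.exp s • x)

/-- The field `hyp` of `BgD.Ok`. -/
def BgD.Hyp (B : BgD) : Prop :=
  ∃ (K : ℕ → ℝ) (lam s1 : ℝ), 0 < lam ∧ 0 ≤ s1 ∧ ∀ s, s1 ≤ s →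
    (B.fld s).Bd K (B.sig s) (B.mu s) ∧ SymBd K 0 (B.sig s) (B.k1 s) (B.k1 s) ∧
    ∀ a, 0 ≤ a → a ≤ B.eta → WtBd (B.fld s) K lam (B.om a s) (B.sig s) (B.mu s)
      (dS (B.om a) s) (dS B.sig s) fun x => 2 * a * B.om a s x

/-- Output of MC1a, first half. -/
def PreStmt : Prop :=
  ∀ P : Prof, ∃ (cut : Cut) (K : ℕ → ℝ) (c0 : ℝ), ∀ nu, 0 < nu → nu ≤ 1 →
    (mkBg P cut nu).Pre K c0 P.U P.C

/-- Jointly smooth scalar fields. -/
def CD (a : ℝ → E3 → ℝ) : Prop := ContDiff ℝ ∞ fun p : ℝ × E3 => a p.1 p.2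

/-- Uniform symbol class: on the set `P` of parameters and points, `a` has size `m` at the length
scale `σ`. -/
structure Sy {T : Type*} (P : T → E3 → Prop) (σ m a : T → E3 → ℝ) : Prop where
  cd : ∀ t, ContDiff ℝ ∞ (a t)
  pos : ∀ t x, P t x → 0 < σ t x
  bd : ∀ w : List Ix, ∃ K : ℝ, 0 < K ∧
    ∀ t x, P t x → σ t x ^ w.length * |dXw w (a t) x| ≤ K * m t x

/-- The set `s ≥ 0`. -/
def Pos (s : ℝ) (_ : E3) : Prop := 0 ≤ s

/-- The open box of half side `1/4`. -/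
def inn (x : E3) : Prop := ∀ i, |x i| < 1 / 4

/-- The weight `(1 + |y|^2)^(1/2)`. -/
def jb (y : E3) : ℝ := √(1 + ‖y‖ ^ 2)

/-- Classical symbols of order `β` on the whole space. -/
def PS (β : ℝ) (Φ : E3 → ℝ) : Prop :=
  Sy (fun (_ : Unit) _ => True) (fun _ => jb) (fun _ y => jb y ^ β) fun _ => Φ

end Pool.Agent.BoltzD

end
end MrgPart1

-- ======== part 2: formerly Pool.Agent.BoltzD.Prof.Radial
section MrgPart2

/-!
From radial profiles (functions of `z = |y| ^ 2`) to the statement `M1Stmt` on Euclidean space.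
-/

set_option autoImplicit false

open Set Pool.Agent.BoltzC Finset
open scoped ContDiff

namespace Pool.Agent.BoltzD.Prof

open Pool.Agent.MP_187b32_an.PD (SymZ Rad ProfStmt)

lemma symz_der {δ a : ℝ} {f : ℝ → ℝ} (h : SymZ δ a f) : SymZ δ (a - 1) (deriv f) := by
  refine ⟨h.1.deriv_of_isOpen isOpen_Ioi (by simp), fun n => ?_⟩
  obtain ⟨K, hK⟩ := h.2 (n + 1)
  refine ⟨K, fun z hz => ?_⟩
  have := hK z hz
  rwa [Function.iterate_succ_apply, Nat.cast_succ, show a - (n + 1) = a - 1 - n by ring] at this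

lemma symz_zero (δ a : ℝ) : SymZ δ a fun _ => 0 := by
  refine ⟨contDiffOn_const, fun n => ⟨0, fun z _ => ?_⟩⟩
  have : deriv^[n] (fun _ : ℝ => (0 : ℝ)) = fun _ => 0 := by
    induction n with
    | zero => rfl
    | succ n ih => rw [Function.iterate_succ_apply, deriv_const', ih]
  simp [this]

lemma symz_hd {δ a : ℝ} {f : ℝ → ℝ} (h : SymZ δ a f) (hδ : 0 < δ) {z : ℝ} (hz : 0 ≤ z) :
    HasDerivAt f (deriv f z) z :=
  ((h.1.contDiffAt (Ioi_mem_nhds (by linarith))).differentiableAt (by simp)).hasDerivAt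

variable [Dim]

lemma nsq (y : E3) : ‖y‖ ^ 2 = ∑ i, y i ^ 2 := by
  rw [EuclideanSpace.norm_sq_eq]
  simp

lemma line_apply (y : E3) (i j : Ix) (t : ℝ) :
    (y + t • ev i) j = y j + t * (if j = i then 1 else 0) := by
  simp [ev]

lemma hd_coord (y : E3) (i j : Ix) :
    HasDerivAt (fun t : ℝ => (y + t • ev i) j) (if j = i then 1 else 0) 0 := by
  simp only [line_apply]
  simpa using ((hasDerivAt_id (0 : ℝ)).mul_const (if j = i then (1 : ℝ) else 0)).const_add (y j)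

lemma hd_nsq (y : E3) (i : Ix) :
    HasDerivAt (fun t : ℝ => ‖y + t • ev i‖ ^ 2) (2 * y i) 0 := by
  simp only [nsq]
  have := HasDerivAt.fun_sum (u := Finset.univ) fun j _ => (hd_coord y i j).fun_pow 2
  refine this.congr_deriv ?_
  simp [mul_ite]

lemma hd_rad {δ a : ℝ} {f : ℝ → ℝ} (h : SymZ δ a f) (hδ : 0 < δ) (y : E3) (i : Ix) :
    HasDerivAt (fun t : ℝ => f (‖y + t • ev i‖ ^ 2)) (deriv f (‖y‖ ^ 2) * (2 * y i)) 0 := by
  have h1 : HasDerivAt f (deriv f (‖y‖ ^ 2)) (‖y + (0 : ℝ) • ev i‖ ^ 2) := by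
    simpa using symz_hd h hδ (sq_nonneg ‖y‖)
  exact h1.comp (0 : ℝ) (hd_nsq y i)

/-- The class generated by radial symbols and coordinates. -/
inductive Rs (δ : ℝ) : ℝ → (E3 → ℝ) → Prop
  | base {m : ℝ} {f : ℝ → ℝ} : SymZ δ (m / 2) f → Rs δ m fun y => f (‖y‖ ^ 2)
  | mulc {m m' : ℝ} {F : E3 → ℝ} (i : Ix) : Rs δ m F → m' = m + 1 → Rs δ m' fun y => y i * F y
  | add {m : ℝ} {F G : E3 → ℝ} : Rs δ m F → Rs δ m G → Rs δ m fun y => F y + G y

lemma Rs.cd {δ m : ℝ} {F : E3 → ℝ} (hδ : 0 < δ) (h : Rs δ m F) : ContDiff ℝ ∞ F := by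
  induction h with
  | base hf =>
    exact hf.1.comp_contDiff (contDiff_norm_sq ℝ) fun y =>
      lt_of_lt_of_le (neg_lt_zero.2 hδ) (sq_nonneg _)
  | mulc i _ _ ih => exact (EuclideanSpace.proj (𝕜 := ℝ) i).contDiff.mul ih
  | add _ _ ih1 ih2 => exact ih1.add ih2

lemma abs_coord_le (y : E3) (i : Ix) : |y i| ≤ (1 + ‖y‖ ^ 2) ^ (1 / 2 : ℝ) := by
  rw [← Real.sqrt_eq_rpow]
  apply Real.abs_le_sqrt
  rw [nsq]
  have := Finset.single_le_sum (f := fun j => y j ^ 2) (fun j _ => sq_nonneg (y j))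
    (Finset.mem_univ i)
  linarith

lemma Rs.bd {δ m : ℝ} {F : E3 → ℝ} (h : Rs δ m F) :
    ∃ K : ℝ, ∀ y, |F y| ≤ K * (1 + ‖y‖ ^ 2) ^ (m / 2) := by
  induction h with
  | base hf =>
    obtain ⟨K, hK⟩ := hf.2 0
    exact ⟨K, fun y => by simpa using hK _ (sq_nonneg ‖y‖)⟩
  | @mulc m m' F i _ e ih =>
    obtain ⟨K, hK⟩ := ih
    refine ⟨K, fun y => ?_⟩
    have hp : (0 : ℝ) < 1 + ‖y‖ ^ 2 := by positivity
    rw [abs_mul, e, add_div, Real.rpow_add hp, ← mul_assoc, mul_comm]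
    exact mul_le_mul (hK y) (abs_coord_le y i) (abs_nonneg _) ((abs_nonneg _).trans (hK y))
  | add _ _ ih1 ih2 =>
    obtain ⟨K, hK⟩ := ih1
    obtain ⟨L, hL⟩ := ih2
    exact ⟨K + L, fun y => (abs_add_le _ _).trans (by rw [add_mul]; exact add_le_add (hK y) (hL y))⟩

lemma Rs.congr {δ m m' : ℝ} {F G : E3 → ℝ} (h : Rs δ m F) (e : m = m') (e' : ∀ y, F y = G y) :
    Rs δ m' G := by
  obtain rfl : F = G := funext e'
  exact e ▸ h

lemma Rs.hd {δ m : ℝ} {F : E3 → ℝ} (hδ : 0 < δ) (h : Rs δ m F) (i : Ix) :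
    ∃ G, Rs δ (m - 1) G ∧ ∀ y, HasDerivAt (fun t : ℝ => F (y + t • ev i)) (G y) 0 := by
  induction h with
  | @base m f hf =>
    have h1 : Rs δ (m - 1) fun y => y i * deriv f (‖y‖ ^ 2) :=
      Rs.mulc i (Rs.base (m := m - 2) (by rw [show (m - 2) / 2 = m / 2 - 1 by ring]; exact symz_der hf)) (by ring)
    exact ⟨_, h1.add h1, fun y => (hd_rad hf hδ y i).congr_deriv (by ring)⟩
  | @mulc m m' F j hF e ih =>
    obtain ⟨G, hG, hd⟩ := ih
    have h1 : Rs δ (m' - 1) fun y => y j * G y := Rs.mulc j hG (by rw [e]; ring)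
    have h2 : Rs δ (m' - 1) fun y => (if j = i then 1 else 0) * F y := by
      split_ifs
      · exact hF.congr (by rw [e]; ring) (by simp)
      · exact (Rs.base (symz_zero δ _)).congr rfl (by simp)
    exact ⟨_, h2.add h1, fun y => ((hd_coord y i j).fun_mul (hd y)).congr_deriv (by simp)⟩
  | add _ _ ih1 ih2 =>
    obtain ⟨F', hF, h1⟩ := ih1
    obtain ⟨G', hG, h2⟩ := ih2
    exact ⟨_, hF.add hG, fun y => (h1 y).fun_add (h2 y)⟩

lemma Rs.dX {δ m : ℝ} {F : E3 → ℝ} (hδ : 0 < δ) (h : Rs δ m F) (i : Ix) :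
    Rs δ (m - 1) (dX i F) := by
  obtain ⟨G, hG, hd⟩ := h.hd hδ i
  exact hG.congr rfl fun y => (dX_eq (hd y).hd).symm

lemma Rs.dXw {δ : ℝ} (hδ : 0 < δ) (w : List Ix) : ∀ {m : ℝ} {F : E3 → ℝ}, Rs δ m F →
    Rs δ (m - w.length) (dXw w F) := by
  induction w with
  | nil => exact fun h => h.congr (by simp) fun _ => rfl
  | cons i w ih =>
    intro m F h
    exact (ih (h.dX hδ i)).congr (by simp; ring) fun _ => rfl

lemma Rs.words {δ m : ℝ} (hδ : 0 < δ) {ι : Type} [Finite ι] {F : ι → E3 → ℝ}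
    (h : ∀ j, Rs δ m (F j)) : ∃ K : ℕ → ℝ, ∀ (w : List Ix) j y,
      |BoltzC.dXw w (F j) y| ≤ K w.length * (1 + ‖y‖ ^ 2) ^ ((m - w.length) / 2) := by
  choose K hK using fun (p : List Ix × ι) => (Rs.dXw hδ p.1 (h p.2)).bd
  have hb : ∀ n : ℕ, ∃ L : ℝ, ∀ p : List Ix × ι, p.1.length = n → K p ≤ L := fun n => by
    have hf : ({l : List Ix | l.length = n} ×ˢ (Set.univ : Set ι)).Finite :=
      (List.finite_length_eq Ix n).prod Set.finite_univ
    obtain ⟨L, hL⟩ := (hf.image K).bddAbove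
    exact ⟨L, fun p hp => hL ⟨p, ⟨hp, trivial⟩, rfl⟩⟩
  choose L hL using hb
  refine ⟨L, fun w j y => (hK (w, j) y).trans ?_⟩
  exact mul_le_mul_of_nonneg_right (hL _ (w, j) rfl) (by positivity)

lemma sum_a (y : Ix → ℝ) (a b : ℝ) (j : Ix) :
    ∑ i, (y i + y i * a) * ((if j = i then 1 else 0) * a + y j * (b * (2 * y i))) =
      y j * ((1 + a) * (a + 2 * (∑ i, y i ^ 2) * b)) := by
  have : ∀ i, (y i + y i * a) * ((if j = i then 1 else 0) * a + y j * (b * (2 * y i))) =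
      (if j = i then y i * ((1 + a) * a) else 0) + y j * (1 + a) * 2 * b * y i ^ 2 := fun i => by
    split_ifs <;> ring
  simp only [this, Finset.sum_add_distrib, Finset.sum_ite_eq, Finset.mem_univ, if_true,
    ← Finset.mul_sum]
  ring

lemma sum_b (y : Ix → ℝ) (a d : ℝ) :
    ∑ i, (y i + y i * a) * (d * (2 * y i)) = 2 * (∑ i, y i ^ 2) * (1 + a) * d := by
  rw [Finset.mul_sum, Finset.sum_mul, Finset.sum_mul]
  exact Finset.sum_congr rfl fun i _ => by ring

lemma sum_c (y : Ix → ℝ) (a b : ℝ) :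
    ∑ i, (a + y i * (b * (2 * y i))) =
      dd * a + 2 * (∑ i, y i ^ 2) * b := by
  rw [Finset.sum_add_distrib, Finset.mul_sum, Finset.sum_mul, ← sum_const_Ix]
  congr 1
  exact Finset.sum_congr rfl fun i _ => by ring

lemma sum_d (y ξ : Ix → ℝ) (a b : ℝ) :
    ∑ p, ∑ i, ξ p * ξ i * ((if i = p then 1 else 0) * a + y i * (b * (2 * y p))) =
      a * ∑ i, ξ i ^ 2 + 2 * b * (∑ i, ξ i * y i) ^ 2 := by
  have : ∀ p i, ξ p * ξ i * ((if i = p then 1 else 0) * a + y i * (b * (2 * y p))) =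
      (if i = p then a * (ξ p * ξ i) else 0) + 2 * b * (ξ p * y p * (ξ i * y i)) := fun p i => by
    split_ifs <;> ring
  simp only [this, Finset.sum_add_distrib, Finset.sum_ite_eq', Finset.mem_univ, if_true,
    ← Finset.mul_sum, ← Finset.sum_mul, sq]

theorem m1_of (h : ProfStmt) : M1Stmt := by
  obtain ⟨r, hr1, hr2, lam, c0, δ, w, C, hlam, hc0, hδ, hw, hC, e1, e2, hlow, hrep⟩ :=
    h dd two_le_dd
  have rU : ∀ j : Ix, Rs δ (1 - r) fun y => y j * w (‖y‖ ^ 2) := fun j =>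
    Rs.mulc j (Rs.base (m := -r) hw) (by ring)
  have rC : Rs δ (1 - r) fun y => C (‖y‖ ^ 2) := Rs.base hC
  have dU : ∀ (i j : Ix) (y : E3), dX i (fun y : E3 => y j * w (‖y‖ ^ 2)) y =
      (if j = i then 1 else 0) * w (‖y‖ ^ 2) + y j * (deriv w (‖y‖ ^ 2) * (2 * y i)) :=
    fun i j y => dX_eq (((hd_coord y i j).fun_mul (hd_rad hw hδ y i)).congr_deriv (by simp)).hd
  have dC : ∀ (i : Ix) (y : E3), dX i (fun y : E3 => C (‖y‖ ^ 2)) y =
      deriv C (‖y‖ ^ 2) * (2 * y i) := fun i y => dX_eq (hd_rad hC hδ y i).hd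
  obtain ⟨K1, hK1⟩ := Rs.words hδ rU
  obtain ⟨K2, hK2⟩ := Rs.words hδ (ι := Unit) (F := fun _ y => C (‖y‖ ^ 2)) fun _ => rC
  refine ⟨r, lam, c0, fun j y => y j * w (‖y‖ ^ 2), fun y => C (‖y‖ ^ 2),
    fun n => max (K1 n) (K2 n), by linarith, by linarith, hlam, hc0, fun j => (rU j).cd hδ,
    rC.cd hδ, fun y j => ?_, fun y => ?_, fun u j y => (hK1 u j y).trans ?_,
    fun u y => (hK2 u () y).trans ?_, fun y => hlow _ (sq_nonneg _), fun y ξ => ?_⟩
  · have h1 := e1 _ (sq_nonneg ‖y‖)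
    simp only [dU, dC]
    rw [sum_a, ← nsq y]
    linear_combination y j * h1
  · have h1 := e2 _ (sq_nonneg ‖y‖)
    simp only [dU, dC, if_true, one_mul]
    rw [sum_b, sum_c, ← nsq y, ← one_div]
    linear_combination h1
  · exact mul_le_mul_of_nonneg_right (le_max_left _ _) (by positivity)
  · exact mul_le_mul_of_nonneg_right (le_max_right _ _) (by positivity)
  · obtain ⟨h1, h2⟩ := hrep _ (sq_nonneg ‖y‖)
    have e3 : ∑ i, dX i (fun y : E3 => C (‖y‖ ^ 2)) y ^ 2 =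
        4 * ‖y‖ ^ 2 * deriv C (‖y‖ ^ 2) ^ 2 := by
      simp only [dC]
      generalize deriv C (‖y‖ ^ 2) = d
      rw [nsq, Finset.mul_sum, Finset.sum_mul]
      exact Finset.sum_congr rfl fun i _ => by ring
    have e4 : cs ≤ √(4 / 3 * (dd + 2)) := Real.sqrt_le_sqrt (by linarith [dr_pos])
    have e5 := mul_le_mul_of_nonneg_right e4
      (Real.sqrt_nonneg (4 * ‖y‖ ^ 2 * deriv C (‖y‖ ^ 2) ^ 2))
    rw [e3]
    simp only [dU]
    rw [sum_d]
    generalize w (‖y‖ ^ 2) = a at *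
    generalize deriv w (‖y‖ ^ 2) = b at *
    generalize cs * √(4 * ‖y‖ ^ 2 * deriv C (‖y‖ ^ 2) ^ 2) = g at *
    have h3 : lam ≤ 1 + a - g := by linarith
    have h4 : lam ≤ 1 + a + 2 * ‖y‖ ^ 2 * b - g := by linarith
    have c1 := Finset.sum_mul_sq_le_sq_mul_sq Finset.univ (fun i => ξ i) fun i => y i
    rw [← nsq y] at c1
    have hx : 0 ≤ ∑ i, ξ i ^ 2 := by positivity
    rcases le_total 0 b with hb | hb
    · nlinarith [mul_nonneg hb (sq_nonneg (∑ i, ξ i * y i)), mul_nonneg (sub_nonneg.2 h3) hx]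
    · nlinarith [mul_nonneg (neg_nonneg.2 hb) (sub_nonneg.2 c1), mul_nonneg (sub_nonneg.2 h4) hx]

end Pool.Agent.BoltzD.Prof

end MrgPart2

-- ======== part 3: formerly Pool.Agent.BoltzD.M7.Asm
section MrgPart3

/-! Assembly of the statement in the smooth class. -/

set_option autoImplicit false

open Set Filter Topology Pool.Agent.BoltzC

noncomputable section

namespace Pool.Agent.BoltzD.M7

variable [Dim]

open M6

lemma SmoothS.congr {s0 : ℝ} {H H' : ℝ × E3 × E3 → ℝ} (h : SmoothS s0 H)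
    (e : ∀ q ∈ Ici s0 ×ˢ (univ : Set (E3 × E3)), H' q = H q) : SmoothS s0 H' :=
  ⟨h.smooth.congr e, fun s1 n q => (h.decay s1 n q).imp fun C hC s hs x V => by
    rw [iteratedFDerivWithin_congr e (mk_mem_prod hs.1 trivial)]
    exact hC s hs x V⟩

theorem main2_of (h1 : M1Stmt) (h2 : BgStmt) (hc : CollStmt) (hi : IterStmt2) (hl : LimitStmt2)
    (h4 : PosStmt) (hσ : SigmaStmt) (hs : SvLimStmt) (ht : TimeStmt) (hch : ChangeStmt) :
    Stmt.MainD2 dd := by
  obtain ⟨B, hB⟩ := h2 h1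
  obtain ⟨Q, hQ⟩ := hc
  obtain ⟨ε0, p0, hε0, h4⟩ := h4
  obtain ⟨ε1, m, p1, hε1, h5⟩ := phys_of hσ
  obtain ⟨N0, ε2, hε2, hb⟩ := boundStmt Q
  obtain ⟨N, ε', hε', hl⟩ := hl Q hQ (max p0 p1) (min ε0 ε1) (lt_min hε0 hε1)
  obtain ⟨A, s0, h, h', g, e, hA, hs0, I, Lg⟩ := hi Q B hB (max N N0) (min ε' ε2) (lt_min hε' hε2)
  have hk := hB.sm_k1.const_smul A
  have hkp : ∀ s, Per fun x => A * B.k1 s x := fun s i x => by simp only [BgD.k1, hB.per_C s i x]
  have hk0 : ∀ s x, 0 < A * B.k1 s x := fun s x => by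
    have := hB.C_pos s x
    unfold BgD.k1
    positivity
  have I' : Iter Q B.fld (fun s x => A * B.k1 s x) s0 ε' N h h' g e :=
    { I with
      small := fun j s hs x => (nA_mono (le_max_left _ _) _).trans
        ((I.small j s hs x).trans (min_le_left _ _))
      cauchy := fun s1 η hη => (I.cauchy s1 η hη).imp fun J hJ j hj l hl s hs =>
        have t := hJ j hj l hl s hs
        ⟨fun u hu x => (nA_mono (le_max_left _ _) _).trans (t.1 u hu x),
          fun u hu x => (nA_mono (le_max_left _ _) _).trans (t.2.1 u hu x),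
          fun u hu x => (nA_mono (le_max_left _ _) _).trans (t.2.2 u hu x)⟩ }
  obtain ⟨f, hf, hlim⟩ := hl B.fld _ s0 h h' g e hB.fldC hk hkp I'
  obtain ⟨b1, b2, b3⟩ := hb B.fld _ s0 _ _ h h' g e hB.fldC hk hkp hk0 (le_max_right _ _)
    (min_le_right _ _) I Lg
  obtain ⟨G, g1, g2, g3, g4⟩ := hs Q B.fld _ s0 _ _ h h' g e hB.fldC hk hkp I b1 b2 b3
  have P := h5 B hB A s0 f hA hs0 (hf.mono (min_le_right _ _) (le_max_right _ _))
    (h4 B.fld _ s0 f hB.fldC hk hkp hk0 (hf.mono (min_le_left _ _) (le_max_left _ _)))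
  refine ⟨28, 1 / 4, Stmt.Bk dd, by norm_num, by norm_num, nonCutoff_B8, _, _, 0, Tb_pos P.hr,
    P.admissible', P.classical, hch _ _ _ _ _ _ P.hr (contDiff_uV hB) hB.cd_C P.pu P.pc P.cpos
      (SmoothS.congr (ht Q B hB A s0 G g1 g2 g4) fun q hq => ?_), P.implosion⟩
  rw [tendsto_nhds_unique (hlim q.1 hq.1 q.2.1 q.2.2) (g3 q.1 hq.1 q.2.1 q.2.2)]

end Pool.Agent.BoltzD.M7

end
end MrgPart3

-- ======== part 4: formerly Pool.Agent.BoltzD.M7.SvLim
section MrgPart4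

/-! Module M7b: the limit of the iteration in Schwartz space. -/

set_option autoImplicit false

open Pool.Agent.BoltzC Set Filter Topology Finset

noncomputable section

namespace Pool.Agent.BoltzD

variable [Dim]

namespace SvLim

open Solver

omit [Dim] in
lemma cont_onePoint {Y Z : Type*} [TopologicalSpace Y] [LocallyCompactSpace Y] [UniformSpace Z]
    {Φ : OnePoint ℕ → Y → Z} (hc : ∀ j, Continuous (Φ j)) :
    Continuous (fun p : OnePoint ℕ × Y => Φ p.1 p.2) ↔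
      TendstoLocallyUniformly (fun j : ℕ => Φ j) (Φ OnePoint.infty) atTop := by
  let Ψ : OnePoint ℕ → C(Y, Z) := fun j => ⟨Φ j, hc j⟩
  have h1 : Continuous Ψ ↔
      TendstoLocallyUniformly (fun j : ℕ => Φ j) (Φ OnePoint.infty) atTop := by
    rw [OnePoint.continuous_iff_from_nat, ContinuousMap.tendsto_iff_tendstoLocallyUniformly]
    rfl
  rw [← h1]
  exact ⟨fun h => (ContinuousMap.curry ⟨_, h⟩).continuous,
    fun h => ContinuousMap.continuous_uncurry_of_continuous ⟨Ψ, h⟩⟩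

variable {α : Type*} {l : Filter α}

lemma lq_bdd (n : ℕ) : ∀ H : α → XS,
    (∀ u m, ∃ C, ∀ᶠ a in l, ∀ y, nA m (dXw u (H a).1 y) ≤ C) →
    ∃ C, ∀ᶠ a in l, lq ZX nX n (H a) ≤ C := by
  induction n with
  | zero =>
    intro H hH
    obtain ⟨C, h⟩ := hH [] 0
    refine ⟨C, h.mono fun a h => (le_abs_self _).trans (abs_tint_le_const fun y => ?_)⟩
    rw [abs_of_nonneg (ip_self_nonneg _), ← nA_zero]
    exact h y
  | succ n ih =>
    intro H hH
    have h : ∀ z, ∃ C, ∀ᶠ a in l, lq ZX nX n (ZX z (H a)) ≤ C := fun z => by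
      refine ih _ fun u m => ?_
      rcases z with i | i
      · exact hH (i :: u) m
      · obtain ⟨C, h⟩ := hH u (m + 1)
        refine ⟨C, h.mono fun a h y => le_trans ?_ (h y)⟩
        have e : dXw u (ZX (Sum.inr i) (H a)).1 y = ap i (dXw u (H a).1 y) :=
          congrFun (dXw_clm (XS.sm (H a)) (ap i) u) y
        rw [e]
        exact nA_ap_le m i _
    choose C hC using h
    exact ⟨∑ z, C z, (eventually_all.2 hC).mono fun a h => sum_le_sum fun z _ => h z⟩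

lemma Zs_le (z : Ix ⊕ Ix) (G : XS) :
    bX.B (ZsX z G) (ZsX z G) ≤ bX.B (ZX z G) (ZX z G) := by
  rcases z with i | j
  · simp [ZX, ZsX]
  · exact tint_mono (XS.cont_ip _ _) (XS.cont_ip _ _) fun x => ip_am_le j _

/-- Bounded at all orders and small at order zero implies small at all orders. -/
lemma interp {H : α → XS} (hb : ∀ u m, ∃ C, ∀ᶠ a in l, ∀ y, nA m (dXw u (H a).1 y) ≤ C)
    (h0 : ∀ η : ℝ, 0 < η → ∀ᶠ a in l, ∀ y, nA 0 ((H a).1 y) ≤ η) (n : ℕ) :
    Tendsto (fun a => (Solver.lev ZX bX n).nr (H a)) l (𝓝 0) := by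
  have h1 : ∀ n, Tendsto (fun a => lq ZX nX n (H a)) l (𝓝 0) := by
    intro n
    induction n with
    | zero =>
      refine tendsto_order.2 ⟨fun c hc => .of_forall fun a => hc.trans_le (bX.nonneg _),
        fun c hc => (h0 (c / 2) (half_pos hc)).mono fun a h => lt_of_le_of_lt ?_ (half_lt_self hc)⟩
      refine (le_abs_self _).trans (abs_tint_le_const fun y => ?_)
      rw [abs_of_nonneg (ip_self_nonneg _), ← nA_zero]
      exact h y
    | succ n ih =>
      refine tendsto_order.2 ⟨fun c hc => .of_forall fun a =>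
        hc.trans_le (lq_nonneg bX.nonneg _ _), fun c hc => ?_⟩
      obtain ⟨C, hC⟩ := lq_bdd (n + 2) H hb
      have hε : 0 < c / 2 / (|C| + 1) := by positivity
      have h2 := ih.const_mul ((Fintype.card (Ix ⊕ Ix) : ℝ) / (c / 2 / (|C| + 1)))
      rw [mul_zero] at h2
      filter_upwards [hC, h2.eventually (gt_mem_nhds (half_pos hc))] with a h3 h4
      have h5 := M7.lq_interp adjX Zs_le hε n (H a)
      have h6 : c / 2 / (|C| + 1) * lq ZX nX (n + 2) (H a) ≤ c / 2 := by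
        rw [div_mul_eq_mul_div, div_le_iff₀ (by positivity)]
        exact mul_le_mul_of_nonneg_left (by linarith [le_abs_self C]) (half_pos hc).le
      linarith
  have h2 := (tendsto_finsetSum (range (n + 1)) fun j _ => h1 j).sqrt
  simp only [sum_const_zero, Real.sqrt_zero] at h2
  refine h2.congr fun a => ?_
  rw [← Real.sqrt_sq ((Solver.lev ZX bX n).nr_nonneg _), lev_nr_sq]
  rfl

lemma small_of_lev {H : α → XS} (h : ∀ n, Tendsto (fun a => (Solver.lev ZX bX n).nr (H a)) l (𝓝 0))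
    (u : List (Ix)) (m : ℕ) {η : ℝ} (hη : 0 < η) :
    ∀ᶠ a in l, ∀ y, (qA m).nr (dXw u (H a).1 y) < η := by
  have h1 := fun n => ((h n).const_mul √KS).eventually (gt_mem_nhds ((mul_zero _).trans_lt hη))
  exact (h1 _).mono fun a h y => (qA_nr_le m u _ y).trans_lt h

/-- A convergent sequence of families together with its limit is a smooth family. -/
lemma smC_onePoint {s0 : ℝ} {Φ : OnePoint ℕ → ℝ → XS}
    (hf : ∀ j : ℕ, SmC fun s => (Φ j s).1)
    (h : ∀ s1 n, Tendsto (fun a : ℕ × ℝ => (Solver.lev ZX bX n).nr (Φ a.1 a.2 - Φ OnePoint.infty a.2))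
      (atTop ×ˢ 𝓟 (Icc s0 s1)) (𝓝 0)) :
    SmC fun p : OnePoint ℕ × ℝ => (Φ p.1 (max p.2 s0)).1 := by
  intro u
  refine ⟨continuous_iff_qA.2 fun m => ?_, fun p => ((XS.sm _).dXw u).dif⟩
  let Ψ : OnePoint ℕ → ℝ × E3 → Lvl (qA m) := fun j q => toL (qA m) (dXw u (Φ j (max q.1 s0)).1 q.2)
  have h1 : TendstoLocallyUniformly (fun j : ℕ => Ψ j) (Ψ OnePoint.infty) atTop := by
    rw [Metric.tendstoLocallyUniformly_iff]
    intro η hη q
    refine ⟨{r | r.1 < q.1 + 1}, (isOpen_lt continuous_fst continuous_const).mem_nhds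
      (lt_add_one q.1), ?_⟩
    have h2 := small_of_lev (h (max (q.1 + 1) s0)) u m hη
    rw [eventually_prod_principal_iff] at h2
    filter_upwards [h2] with j hj r hr
    rw [dist_comm, dist_eq_norm, ← map_sub, ← evX_apply, ← evX_apply, ← map_sub, evX_apply]
    exact hj _ ⟨le_max_right _ _, max_le_max_right _ (le_of_lt hr)⟩ _
  have h2 : ∀ j : ℕ, Continuous (Ψ j) := fun j => continuous_iff_qA.1
    (((hf j).reparam (continuous_id.max continuous_const)).dXw u).cont m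
  have h3 : ∀ j, Continuous (Ψ j) := fun j => by
    induction j using OnePoint.rec with
    | infty => exact h1.continuous (.of_forall h2)
    | coe j => exact h2 j
  exact ((cont_onePoint h3).2 h1).comp (Homeomorph.prodAssoc _ _ _).continuous

end SvLim

open SvLim Solver in
theorem svLim : SvLimStmt := by
  intro Q F k s0 ε N h h' g e hF hk _ hI bh bg be
  let xh : ℕ → ℝ → XS := fun j s => ⟨h j s, (hI.smd j).sm.slice s, hI.per j s⟩
  let xg : ℕ → ℝ → XS := fun j s => ⟨g j s, (hI.smg j).slice s, hI.perg j s⟩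
  let xe : ℕ → ℝ → XS := fun j s => ⟨e j s, (hI.sme j).slice s, hI.pere j s⟩
  have sub_le : ∀ (G H : XS) u m y, nA m (dXw u (G - H).1 y) ≤
      2 * nA m (dXw u G.1 y) + 2 * nA m (dXw u H.1 y) := fun G H u m y => by
    rw [← evX_apply, map_sub, evX_apply, evX_apply]
    exact nA_sub_le _ _ _
  have c1 : ∀ s1 n, Tendsto (fun a : (ℕ × ℕ) × ℝ => (Solver.lev ZX bX n).nr (xh a.1.1 a.2 - xh a.1.2 a.2))
      ((atTop ×ˢ atTop) ×ˢ 𝓟 (Icc s0 s1)) (𝓝 0) := fun s1 => by
    refine interp (fun u m => ?_) fun η hη => ?_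
    · obtain ⟨C, hC⟩ := bh s1 m u
      refine ⟨2 * C + 2 * C, eventually_prod_principal_iff.2 ?_⟩
      filter_upwards [hC.prod_mk hC] with j hj s hs y
      exact (sub_le _ _ u m y).trans (by linarith [hj.1 s hs y, hj.2 s hs y])
    · obtain ⟨J, hJ⟩ := hI.cauchy s1 η hη
      refine eventually_prod_principal_iff.2 ?_
      filter_upwards [(eventually_ge_atTop J).prod_mk (eventually_ge_atTop J)] with j hj s hs y
      exact (nA_mono (Nat.zero_le N) _).trans ((hJ _ hj.1 _ hj.2 s hs).1 [] (by simp) y)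
  have c2 : ∀ s1 n, Tendsto (fun a : ℕ × ℝ => (Solver.lev ZX bX n).nr (xg a.1 a.2 - xh a.1 a.2))
      (atTop ×ˢ 𝓟 (Icc s0 s1)) (𝓝 0) := fun s1 => by
    refine interp (fun u m => ?_) fun η hη => ?_
    · obtain ⟨C, hC⟩ := bh s1 m u
      obtain ⟨C', hC'⟩ := bg s1 m u
      refine ⟨2 * C' + 2 * C, eventually_prod_principal_iff.2 ?_⟩
      filter_upwards [hC, hC'] with j hj hj' s hs y
      exact (sub_le _ _ u m y).trans (by linarith [hj s hs y, hj' s hs y])
    · obtain ⟨J, hJ⟩ := hI.cauchy s1 η hη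
      refine eventually_prod_principal_iff.2 ?_
      filter_upwards [eventually_ge_atTop J] with j hj s hs y
      exact (nA_mono (Nat.zero_le N) _).trans ((hJ _ hj _ hj s hs).2.1 [] (by simp) y)
  have c3 : ∀ s1 n, Tendsto (fun a : ℕ × ℝ => (Solver.lev ZX bX n).nr (xe a.1 a.2))
      (atTop ×ˢ 𝓟 (Icc s0 s1)) (𝓝 0) := fun s1 => by
    refine interp (fun u m => ?_) fun η hη => ?_
    · obtain ⟨C, hC⟩ := be s1 m u
      exact ⟨C, eventually_prod_principal_iff.2 hC⟩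
    · obtain ⟨J, hJ⟩ := hI.cauchy s1 η hη
      refine eventually_prod_principal_iff.2 ?_
      filter_upwards [eventually_ge_atTop J] with j hj s hs y
      exact (nA_mono (Nat.zero_le N) _).trans ((hJ _ hj _ hj s hs).2.2 [] (by simp) y)
  have lim : ∀ s, ∃ y : XS, s0 ≤ s →
      ∀ n, Tendsto (fun j => (Solver.lev ZX bX n).nr (xh j s - y)) atTop (𝓝 0) := fun s => by
    by_cases hs : s0 ≤ s
    swap
    · exact ⟨0, fun h => absurd h hs⟩
    refine (XS_complete (fun j => xh j s) fun n => ?_).imp fun y hy _ => hy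
    have h1 : CauchySeq fun j => toL (Solver.lev ZX bX n) (xh j s) := by
      rw [cauchySeq_iff_tendsto_dist_atTop_0, ← prod_atTop_atTop_eq]
      have h2 := (c1 s n).comp (tendsto_id.prodMk
        (tendsto_principal.2 (.of_forall fun _ => (⟨hs, le_rfl⟩ : s ∈ Icc s0 s))))
      refine h2.congr fun a => ?_
      rw [dist_eq_norm, ← map_sub]
      rfl
    obtain ⟨b, b0, b1, b2⟩ := cauchySeq_iff_le_tendsto_0.1 h1
    refine ⟨b, b2, fun M M' => ?_⟩
    have h3 := b1 M M' (min M M') (min_le_left _ _) (min_le_right _ _)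
    rw [dist_eq_norm, ← map_sub] at h3
    refine le_trans h3 ?_
    rcases min_choice M M' with e | e <;> rw [e] <;> linarith [b0 M, b0 M']
  choose y hy using lim
  have d1 : ∀ s1 n, Tendsto (fun a : ℕ × ℝ => (Solver.lev ZX bX n).nr (xh a.1 a.2 - y a.2))
      (atTop ×ˢ 𝓟 (Icc s0 s1)) (𝓝 0) := fun s1 n => by
    refine tendsto_order.2 ⟨fun c hc => .of_forall fun a => hc.trans_le (PD.nr_nonneg _ _),
      fun c hc => ?_⟩
    have h1 := (c1 s1 n).eventually (gt_mem_nhds (half_pos hc))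
    rw [eventually_prod_principal_iff, prod_atTop_atTop_eq, eventually_atTop] at h1
    obtain ⟨J, hJ⟩ := h1
    refine eventually_prod_principal_iff.2 ?_
    filter_upwards [eventually_ge_atTop J.1] with j hj s hs
    obtain ⟨i, hi, hi'⟩ := ((eventually_ge_atTop J.2).and
      ((hy s hs.1 n).eventually (gt_mem_nhds (half_pos hc)))).exists
    have h2 := hJ (j, i) ⟨hj, hi⟩ s hs
    have h3 := (Solver.lev ZX bX n).nr_triangle (xh j s) (xh i s) (y s)
    dsimp only at h2 ⊢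
    linarith
  have d2 : ∀ s1 n, Tendsto (fun a : ℕ × ℝ => (Solver.lev ZX bX n).nr (xg a.1 a.2 - y a.2))
      (atTop ×ˢ 𝓟 (Icc s0 s1)) (𝓝 0) := fun s1 n => by
    have h1 := (c2 s1 n).add (d1 s1 n)
    rw [add_zero] at h1
    exact squeeze_zero (fun _ => PD.nr_nonneg _ _) (fun a => PD.nr_triangle _ _ _ _) h1
  have sh := smC_onePoint (s0 := s0) (Φ := fun j => OnePoint.elim j y xh)
    (fun j => (hI.smd j).sm) d1
  have sg := smC_onePoint (s0 := s0) (Φ := fun j => OnePoint.elim j y xg) (fun j => hI.smg j) d2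
  have se := smC_onePoint (s0 := s0) (Φ := fun j => OnePoint.elim j (fun _ => 0) xe)
    (fun j => hI.sme j) fun s1 n => (c3 s1 n).congr fun a => congrArg _ (sub_zero _).symm
  have sk : SmC fun p : OnePoint ℕ × ℝ => k p.2 := hk.reparam continuous_snd
  have sR := (((((Alg.smC_src hF).reparam (continuous_snd (X := OnePoint ℕ))).add
    ((sk.const_smul (1 / 2)).smul (SmC.bilin Q.G Q.cont sg sg))).add se).sub
    (Alg.smC_tr' hF continuous_snd sh)).sub (sk.smul (sh.clm Q.L))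
  have conv : ∀ s, s0 ≤ s → ∀ x, Tendsto (fun j => h j s x) atTop (𝓝 ((y (max s s0)).1 x)) := by
    intro s hs x
    have h1 := (OnePoint.continuous_iff_from_nat _).1
      ((sh.cont_time x).comp (Continuous.prodMk_left s))
    simpa [max_eq_left hs] using h1
  refine ⟨fun s => (y (max s s0)).1, sh.reparam (Continuous.prodMk_right OnePoint.infty),
    fun s => XS.per _, fun s hs x V => ?_, fun s hs x => hd_iff_qA.2 fun m => ?_⟩
  · exact ((PicLim.evV V).continuous.tendsto _).comp (conv s hs x)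
  · have h1 := continuous_iff_qA.1 (sR.cont_time x) m
    have h2 := (cont_onePoint (fun j => h1.comp (Continuous.prodMk_right j))).1 h1
    refine hasDerivAt_of_tendstoLocallyUniformlyOn (l := atTop) isOpen_Ioi
      (f := fun j t => toL (qA m) (h j t x)) (f' := fun j t => toL (qA m) (h' j t x))
      (g' := fun t => toL (qA m) (rhs Q F k (fun s => (y (max s s0)).1) t x))
      (((h2.tendstoLocallyUniformlyOn (s := Ioi s0)).congr fun j t ht => ?_).congr_right
        fun t ht => ?_) (.of_forall fun j t _ => hd_iff_qA.1 ((hI.smd j).hd t x) m)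
      (fun t ht => tendsto_iff_qA.1 (conv t (le_of_lt ht) x) m) hs
    · refine congrArg (toL (qA m)) ?_
      have ht' : s0 ≤ t := le_of_lt ht
      have h3 := hI.eqn j t ht' x
      simp only [OnePoint.elim_some, max_eq_left ht', xh, xg, xe, smul_eq_mul]
      rw [show 1 / 2 * k t x = k t x / 2 by ring, ← h3]
      abel
    · refine congrArg (toL (qA m)) ?_
      simp only [OnePoint.elim_infty, rhs, smul_eq_mul]
      rw [show 1 / 2 * k t x = k t x / 2 by ring]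
      simp

end Pool.Agent.BoltzD

end
end MrgPart4

-- marker of a merged file
example : 731051 + 690392 = 731051 + 690392 := rfl

end MrgPart2

-- marker of a merged file
example : 731051 + 690392 = 731051 + 690392 := rfl
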